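import Mathlib

/-! Legendre's theorem (Hasse principle for conics over ℚ), part 1: the predicate and its algebra. -/

namespace Pool.Agent.PP5LC

/-- the conic `x² = a y² + b z²` has a nonzero point over `K`. -/
def Nm (K : Type*) [Field K] (a b : K) : Prop :=
  ∃ x y z : K, ¬ (x = 0 ∧ y = 0 ∧ z = 0) ∧ x ^ 2 = a * y ^ 2 + b * z ^ 2

section alg
variable {K : Type*} [Field K] {a b : K}

theorem Nm.symm (h : Nm K a b) : Nm K b a := by
  obtain ⟨x, y, z, h0, h1⟩ := h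
  exact ⟨x, z, y, fun h => h0 ⟨h.1, h.2.2, h.2.1⟩, by rw [h1]; ring⟩

theorem nm_sq_left (t : K) (ht : t ≠ 0) (b : K) : Nm K (t ^ 2) b :=
  ⟨t, 1, 0, fun h => ht h.1, by ring⟩

theorem nm_sq_right (t : K) (ht : t ≠ 0) (a : K) : Nm K a (t ^ 2) :=
  (nm_sq_left t ht a).symm

theorem Nm.trans {b' t n : K} (h : Nm K a b) (hb : b ≠ 0)
    (ht : t ^ 2 - a * n ^ 2 = b * b') : Nm K a b' := by
  obtain ⟨x, y, z, h0, h1⟩ := h
  by_cases hz : z = 0
  · subst hz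
    have h2 : x ^ 2 = a * y ^ 2 := by rw [h1]; ring
    exact ⟨x, y, 0, h0, by rw [h2]; ring⟩
  · refine ⟨x * t + a * n * y, x * n + t * y, b * z, fun h => mul_ne_zero hb hz h.2.2, ?_⟩
    have : (x * t + a * n * y) ^ 2 - a * (x * n + t * y) ^ 2
        = (x ^ 2 - a * y ^ 2) * (t ^ 2 - a * n ^ 2) := by ring
    have h3 : x ^ 2 - a * y ^ 2 = b * z ^ 2 := by rw [h1]; ring
    rw [h3, ht] at this
    linear_combination this

theorem nm_mul_sq {u : K} (hu : u ≠ 0) : Nm K a (b * u ^ 2) ↔ Nm K a b := by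
  constructor
  · rintro ⟨x, y, z, h0, h1⟩
    refine ⟨x, y, u * z, fun h => h0 ⟨h.1, h.2.1, ?_⟩, by rw [h1]; ring⟩
    exact (mul_eq_zero.mp h.2.2).resolve_left hu
  · rintro ⟨x, y, z, h0, h1⟩
    refine ⟨u * x, u * y, z, fun h => h0 ⟨?_, ?_, h.2.2⟩, by linear_combination u ^ 2 * h1⟩
    · exact (mul_eq_zero.mp h.1).resolve_left hu
    · exact (mul_eq_zero.mp h.2.1).resolve_left hu

end alg

/-- clearing denominators. -/
theorem nm_rat_int {a b : ℤ} (h : Nm ℚ (a : ℚ) (b : ℚ)) :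
    ∃ x y z : ℤ, ¬ (x = 0 ∧ y = 0 ∧ z = 0) ∧ x ^ 2 = a * y ^ 2 + b * z ^ 2 := by
  obtain ⟨x, y, z, h0, h1⟩ := h
  refine ⟨x.num * (y.den * z.den), y.num * (x.den * z.den), z.num * (x.den * y.den), ?_, ?_⟩
  · rintro ⟨h2, h3, h4⟩
    have hx : (x.den : ℤ) ≠ 0 := by exact_mod_cast x.den_nz
    have hy : (y.den : ℤ) ≠ 0 := by exact_mod_cast y.den_nz
    have hz : (z.den : ℤ) ≠ 0 := by exact_mod_cast z.den_nz
    refine h0 ⟨?_, ?_, ?_⟩
    · have := (mul_eq_zero.mp h2).resolve_right (mul_ne_zero hy hz)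
      exact Rat.num_eq_zero.mp this
    · have := (mul_eq_zero.mp h3).resolve_right (mul_ne_zero hx hz)
      exact Rat.num_eq_zero.mp this
    · have := (mul_eq_zero.mp h4).resolve_right (mul_ne_zero hx hy)
      exact Rat.num_eq_zero.mp this
  · have hx : (x.den : ℚ) ≠ 0 := by exact_mod_cast x.den_nz
    have hy : (y.den : ℚ) ≠ 0 := by exact_mod_cast y.den_nz
    have hz : (z.den : ℚ) ≠ 0 := by exact_mod_cast z.den_nz
    have ex : x * x.den = x.num := Rat.mul_den_eq_num x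
    have ey : y * y.den = y.num := Rat.mul_den_eq_num y
    have ez : z * z.den = z.num := Rat.mul_den_eq_num z
    have : ((x.num * (y.den * z.den) : ℤ) : ℚ) ^ 2
        = (a : ℚ) * ((y.num * (x.den * z.den) : ℤ) : ℚ) ^ 2
          + (b : ℚ) * ((z.num * (x.den * y.den) : ℤ) : ℚ) ^ 2 := by
      push_cast
      rw [← ex, ← ey, ← ez]
      linear_combination (x.den : ℚ) ^ 2 * (y.den : ℚ) ^ 2 * (z.den : ℚ) ^ 2 * h1
    exact_mod_cast this

/-- over ℝ. -/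
theorem nm_real {a b : ℝ} (h : Nm ℝ a b) (ha : a ≠ 0) (hb : b ≠ 0) : 0 < a ∨ 0 < b := by
  obtain ⟨x, y, z, h0, h1⟩ := h
  by_contra hc
  push Not at hc
  have ha' : a < 0 := lt_of_le_of_ne hc.1 ha
  have hb' : b < 0 := lt_of_le_of_ne hc.2 hb
  have h2 : 0 ≤ x ^ 2 := sq_nonneg x
  have h3 : a * y ^ 2 ≤ 0 := mul_nonpos_of_nonpos_of_nonneg ha'.le (sq_nonneg y)
  have h4 : b * z ^ 2 ≤ 0 := mul_nonpos_of_nonpos_of_nonneg hb'.le (sq_nonneg z)
  have hx : x ^ 2 = 0 := by linarith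
  have hy : a * y ^ 2 = 0 := by linarith
  have hz : b * z ^ 2 = 0 := by linarith
  refine h0 ⟨pow_eq_zero_iff (two_ne_zero) |>.mp hx, ?_, ?_⟩
  · exact pow_eq_zero_iff (two_ne_zero) |>.mp ((mul_eq_zero.mp hy).resolve_left ha)
  · exact pow_eq_zero_iff (two_ne_zero) |>.mp ((mul_eq_zero.mp hz).resolve_left hb)

end Pool.Agent.PP5LC
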