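import Mathlib
import Pool.Agent.PP5LC.Lg1

/-! Legendre's theorem, part 2: what a `p`-adic point says modulo `p`. -/

namespace Pool.Agent.PP5LC

private theorem scal {p : ℕ} [Fact p.Prime] {c x : ℚ_[p]} (hc : c ≠ 0) (h : ‖x‖ ≤ ‖c‖) :
    ∃ X : ℤ_[p], x = c * X := by
  have : ‖x / c‖ ≤ 1 := by
    rw [norm_div]
    exact div_le_one_of_le₀ h (norm_nonneg _)
  exact ⟨⟨x / c, this⟩, by simp; field_simp⟩

private theorem prim3 {p : ℕ} [Fact p.Prime] {x y z : ℚ_[p]} (h : ¬ (x = 0 ∧ y = 0 ∧ z = 0)) :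
    ∃ c : ℚ_[p], c ≠ 0 ∧ ∃ X Y Z : ℤ_[p], x = c * X ∧ y = c * Y ∧ z = c * Z ∧
      (X = 1 ∨ Y = 1 ∨ Z = 1) := by
  have key : ∀ c : ℚ_[p], ‖x‖ ≤ ‖c‖ → ‖y‖ ≤ ‖c‖ → ‖z‖ ≤ ‖c‖ → c ≠ 0 := by
    intro c h1 h2 h3 hc
    subst hc
    rw [norm_zero] at h1 h2 h3
    exact h ⟨norm_le_zero_iff.mp h1, norm_le_zero_iff.mp h2, norm_le_zero_iff.mp h3⟩
  rcases le_total ‖x‖ ‖y‖ with hxy | hxy
  · rcases le_total ‖y‖ ‖z‖ with hyz | hyz
    · have hc := key z (hxy.trans hyz) hyz le_rfl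
      obtain ⟨X, hX⟩ := scal hc (hxy.trans hyz)
      obtain ⟨Y, hY⟩ := scal hc hyz
      exact ⟨z, hc, X, Y, 1, hX, hY, by simp, Or.inr (Or.inr rfl)⟩
    · have hc := key y hxy le_rfl hyz
      obtain ⟨X, hX⟩ := scal hc hxy
      obtain ⟨Z, hZ⟩ := scal hc hyz
      exact ⟨y, hc, X, 1, Z, hX, by simp, hZ, Or.inr (Or.inl rfl)⟩
  · rcases le_total ‖x‖ ‖z‖ with hxz | hxz
    · have hc := key z hxz (hxy.trans hxz) le_rfl
      obtain ⟨X, hX⟩ := scal hc hxz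
      obtain ⟨Y, hY⟩ := scal hc (hxy.trans hxz)
      exact ⟨z, hc, X, Y, 1, hX, hY, by simp, Or.inr (Or.inr rfl)⟩
    · have hc := key x le_rfl hxy hxz
      obtain ⟨Y, hY⟩ := scal hc hxy
      obtain ⟨Z, hZ⟩ := scal hc hxz
      exact ⟨x, hc, 1, Y, Z, by simp, hY, hZ, Or.inl rfl⟩

private theorem zmod_zero {p : ℕ} [Fact p.Prime] {x : ℤ_[p]} (h : PadicInt.toZMod x = 0) :
    ∃ y : ℤ_[p], x = p * y := by
  have : x ∈ RingHom.ker (PadicInt.toZMod : ℤ_[p] →+* ZMod p) := h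
  rw [PadicInt.ker_toZMod, PadicInt.maximalIdeal_eq_span_p, Ideal.mem_span_singleton] at this
  exact this

/-- if `b` is squarefree, `p ∣ b` and `x² = a y² + b z²` has a `p`-adic point then `a` is a
square modulo `p`. -/
theorem sq_mod_of_nm {p : ℕ} [Fact p.Prime] {a b : ℤ} (hb : Squarefree b) (hpb : (p : ℤ) ∣ b)
    (h : Nm ℚ_[p] (a : ℚ_[p]) (b : ℚ_[p])) : IsSquare ((a : ℤ) : ZMod p) := by
  obtain ⟨x, y, z, h0, h1⟩ := h
  obtain ⟨c, hc, X, Y, Z, rfl, rfl, rfl, hu⟩ := prim3 h0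
  have e0 : ((X ^ 2 : ℤ_[p]) : ℚ_[p]) = (((a : ℤ_[p]) * Y ^ 2 + (b : ℤ_[p]) * Z ^ 2 : ℤ_[p]) : ℚ_[p]) := by
    push_cast
    have hc2 : c ^ 2 ≠ 0 := pow_ne_zero 2 hc
    apply mul_left_cancel₀ hc2
    linear_combination h1
  have e1 : X ^ 2 = (a : ℤ_[p]) * Y ^ 2 + (b : ℤ_[p]) * Z ^ 2 := Subtype.ext e0
  have e2 := congrArg (PadicInt.toZMod (p := p)) e1
  have hb0 : ((b : ℤ) : ZMod p) = 0 := by
    rw [ZMod.intCast_zmod_eq_zero_iff_dvd]; exact hpb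
  simp only [map_pow, map_add, map_mul, map_intCast, hb0, zero_mul, add_zero] at e2
  by_cases hY : PadicInt.toZMod Y = 0
  · exfalso
    rw [hY] at e2
    have hX : PadicInt.toZMod X = 0 := by
      have : (PadicInt.toZMod X) ^ 2 = 0 := by rw [e2]; ring
      exact pow_eq_zero_iff (two_ne_zero) |>.mp this
    obtain ⟨X', rfl⟩ := zmod_zero hX
    obtain ⟨Y', rfl⟩ := zmod_zero hY
    obtain ⟨b', rfl⟩ := hpb
    have hp0 : (p : ℤ_[p]) ≠ 0 := by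
      exact_mod_cast (Fact.out : p.Prime).ne_zero
    have e3 : (b' : ℤ_[p]) * Z ^ 2 = p * (X' ^ 2 - a * Y' ^ 2) := by
      apply mul_left_cancel₀ hp0
      push_cast at e1
      linear_combination -e1
    have e4 := congrArg (PadicInt.toZMod (p := p)) e3
    simp only [map_mul, map_pow, map_intCast, map_natCast, CharP.cast_eq_zero, zero_mul] at e4
    have hb' : ((b' : ℤ) : ZMod p) ≠ 0 := by
      rw [Ne, ZMod.intCast_zmod_eq_zero_iff_dvd]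
      rintro ⟨b'', rfl⟩
      have := hb (p : ℤ) ⟨b'', by ring⟩
      exact (Nat.prime_iff_prime_int.mp (Fact.out : p.Prime)).not_isUnit this
    have hZ : PadicInt.toZMod Z = 0 := by
      have := (mul_eq_zero.mp e4).resolve_left hb'
      exact pow_eq_zero_iff (two_ne_zero) |>.mp this
    rcases hu with h | h | h
    · rw [h] at hX; simp at hX
    · rw [h] at hY; simp at hY
    · rw [h] at hZ; simp at hZ
  · refine ⟨PadicInt.toZMod X / PadicInt.toZMod Y, ?_⟩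
    field_simp
    rw [e2]

end Pool.Agent.PP5LC
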