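import Mathlib
import Pool.Agent.PP5LC.Lg2

/-! Legendre's theorem, part 3: the descent. -/

namespace Pool.Agent.PP5LC

private theorem crt_sq (a : ℤ) : ∀ n : ℕ, Squarefree n →
    (∀ p : ℕ, p.Prime → p ∣ n → IsSquare ((a : ℤ) : ZMod p)) → ∃ t : ℤ, (n : ℤ) ∣ t ^ 2 - a := by
  intro n
  induction n using Nat.strong_induction_on with
  | _ n ih =>
    intro hn hp
    by_cases h1 : n = 1
    · exact ⟨0, by simp [h1]⟩
    · have hn0 : n ≠ 0 := hn.ne_zero
      have hpp := Nat.minFac_prime h1
      obtain ⟨m, hm⟩ := Nat.minFac_dvd n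
      set p := n.minFac with hpdef
      have hsq : Squarefree (p * m) := hm ▸ hn
      rw [Nat.squarefree_mul_iff] at hsq
      obtain ⟨hc, -, hm2⟩ := hsq
      have hmpos : 0 < m := Nat.pos_of_ne_zero (by rintro rfl; simp at hm; exact hn0 hm)
      have hlt : m < n := by
        have := hpp.two_le
        nlinarith
      obtain ⟨t2, ht2⟩ := ih m hlt hm2 (fun q hq hqm => hp q hq (hm ▸ hqm.mul_left p))
      have : Fact p.Prime := ⟨hpp⟩
      obtain ⟨s, hs⟩ := hp p hpp (hm ▸ dvd_mul_right p m)
      have ht1 : (p : ℤ) ∣ (s.val : ℤ) ^ 2 - a := by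
        rw [← ZMod.intCast_zmod_eq_zero_iff_dvd]
        push_cast
        rw [ZMod.natCast_zmod_val, hs]
        ring
      obtain ⟨u, v, huv⟩ : ∃ u v : ℤ, u * p + v * m = 1 := by
        have := Nat.isCoprime_iff_coprime.mpr hc
        exact this
      refine ⟨(s.val : ℤ) * (v * m) + t2 * (u * p), ?_⟩
      have hcop : IsCoprime (p : ℤ) (m : ℤ) := Nat.isCoprime_iff_coprime.mpr hc
      have e : (n : ℤ) = (p : ℤ) * m := by exact_mod_cast hm
      rw [e]
      apply hcop.mul_dvd
      · obtain ⟨k, hk⟩ := ht1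
        set s1 : ℤ := (s.val : ℤ)
        have : s1 * (v * m) + t2 * (u * p) = s1 + p * (u * (t2 - s1)) := by
          linear_combination s1 * huv
        rw [this]
        refine ⟨k + 2 * s1 * (u * (t2 - s1)) + p * (u * (t2 - s1)) ^ 2, ?_⟩
        linear_combination hk
      · obtain ⟨k, hk⟩ := ht2
        set s1 : ℤ := (s.val : ℤ)
        have : s1 * (v * m) + t2 * (u * p) = t2 + m * (v * (s1 - t2)) := by
          linear_combination t2 * huv
        rw [this]
        refine ⟨k + 2 * t2 * (v * (s1 - t2)) + m * (v * (s1 - t2)) ^ 2, ?_⟩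
        linear_combination hk

private theorem crt_sq_small (a b : ℤ) (hb : Squarefree b)
    (h : ∀ p : ℕ, p.Prime → (p : ℤ) ∣ b → IsSquare ((a : ℤ) : ZMod p)) :
    ∃ t b' : ℤ, t ^ 2 - a = b * b' ∧ 2 * |t| ≤ |b| := by
  have hb' : Squarefree b.natAbs := Int.squarefree_natAbs.mpr hb
  obtain ⟨t0, ht0⟩ := crt_sq a b.natAbs hb' (fun p hp hpb => h p hp (Int.natCast_dvd.mpr hpb))
  have hb0 : b.natAbs ≠ 0 := hb'.ne_zero
  have h1 := Int.le_bmod (x := t0) (m := b.natAbs) (by omega)
  have h2 := Int.bmod_lt (x := t0) (m := b.natAbs) (by omega)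
  have h3 : ((b.natAbs : ℕ) : ℤ) ∣ t0 - Int.bmod t0 b.natAbs := by
    have := Int.bmod_emod (x := t0) (m := b.natAbs)
    exact Int.ModEq.dvd this
  set t := Int.bmod t0 b.natAbs with htdef
  have h4 : ((b.natAbs : ℕ) : ℤ) ∣ t ^ 2 - a := by
    have : t ^ 2 - a = (t0 ^ 2 - a) - (t0 - t) * (t0 + t) := by ring
    rw [this]
    exact dvd_sub ht0 (h3.mul_right _)
  rw [Int.natAbs_dvd] at h4
  obtain ⟨b', hb'⟩ := h4
  refine ⟨t, b', hb', ?_⟩
  rw [Int.abs_eq_natAbs b]
  rcases abs_cases t with ⟨h5, -⟩ | ⟨h5, -⟩ <;> rw [h5] <;> omega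

private theorem leg_aux : ∀ N : ℕ, ∀ a b : ℤ, a.natAbs + b.natAbs = N → Squarefree a →
    Squarefree b → (0 < a ∨ 0 < b) →
    (∀ (p : ℕ) [Fact p.Prime], p ≠ 2 → Nm ℚ_[p] (a : ℚ_[p]) (b : ℚ_[p])) →
    Nm ℚ (a : ℚ) (b : ℚ) := by
  intro N
  induction N using Nat.strong_induction_on with
  | _ N ih =>
    intro a b hN ha hb hR hp
    wlog hab : a.natAbs ≤ b.natAbs generalizing a b
    · exact (this b a (by omega) hb ha hR.symm (fun p _ h2 => (hp p h2).symm) (by omega)).symm
    have ha0 : a ≠ 0 := ha.ne_zero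
    have hb0 : b ≠ 0 := hb.ne_zero
    by_cases hb1 : b.natAbs ≤ 1
    · rcases hR with hR | hR
      · have : a = 1 := by omega
        subst this
        simpa using nm_sq_left (1 : ℚ) one_ne_zero (b : ℚ)
      · have : b = 1 := by omega
        subst this
        simpa using nm_sq_right (1 : ℚ) one_ne_zero (a : ℚ)
    · push Not at hb1
      obtain ⟨t, b', ht, hts⟩ := crt_sq_small a b hb (by
        intro p hpp hpb
        have : Fact p.Prime := ⟨hpp⟩
        by_cases h2 : p = 2
        · subst h2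
          generalize ((a : ℤ) : ZMod 2) = α
          revert α
          decide
        · exact sq_mod_of_nm hb hpb (hp p h2))
      by_cases hb'0 : b' = 0
      · subst hb'0
        have h1 : a = t ^ 2 := by linarith
        have ht0 : (t : ℚ) ≠ 0 := by
          rintro h
          have : t = 0 := by exact_mod_cast h
          subst this
          exact ha0 (by rw [h1]; ring)
        rw [h1]
        push_cast
        exact nm_sq_left (t : ℚ) ht0 _
      · obtain ⟨m, u, hmu, hm⟩ := Nat.sq_mul_squarefree b'.natAbs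
        have hu0 : u ≠ 0 := by
          rintro rfl
          have : b'.natAbs = 0 := by rw [← hmu]; ring
          omega
        have hm0 : m ≠ 0 := hm.ne_zero
        set b2 : ℤ := b'.sign * m with hb2
        have hb'e : b' = b2 * (u : ℤ) ^ 2 := by
          have h1 : b' = b'.sign * b'.natAbs := (Int.sign_mul_natAbs b').symm
          rw [← hmu] at h1
          rw [hb2]
          push_cast at h1
          linear_combination h1
        have hsgn : b'.sign = 1 ∨ b'.sign = -1 := by
          rcases lt_or_gt_of_ne hb'0 with h | h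
          · exact Or.inr (Int.sign_eq_neg_one_of_neg h)
          · exact Or.inl (Int.sign_eq_one_of_pos h)
        have hb2n : b2.natAbs = m := by
          rcases hsgn with h | h <;> rw [hb2, h] <;> simp
        have hb2sq : Squarefree b2 := by
          rw [← Int.squarefree_natAbs, hb2n]; exact hm
        have hb2le : b2.natAbs ≤ b'.natAbs := by
          rw [hb2n, ← hmu]
          have : 1 ≤ u ^ 2 := Nat.one_le_iff_ne_zero.mpr (pow_ne_zero 2 hu0)
          nlinarith
        have hlt : b'.natAbs < b.natAbs := by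
          have e1 : |b| * |b'| = |t ^ 2 - a| := by rw [ht, abs_mul]
          have e2 : |t ^ 2 - a| ≤ t ^ 2 + |a| := by
            calc |t ^ 2 - a| ≤ |t ^ 2| + |a| := abs_sub _ _
              _ = t ^ 2 + |a| := by rw [abs_of_nonneg (sq_nonneg t)]
          have e3 : t ^ 2 = |t| ^ 2 := (sq_abs t).symm
          have e4 : |a| ≤ |b| := by
            rw [Int.abs_eq_natAbs, Int.abs_eq_natAbs]; exact_mod_cast hab
          have e5 : 2 ≤ |b| := by rw [Int.abs_eq_natAbs]; exact_mod_cast hb1
          have e6 : |b'| < |b| := by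
            by_contra hc
            push Not at hc
            have : |b| * |b| ≤ |b| * |b'| := by
              apply mul_le_mul_of_nonneg_left hc (abs_nonneg _)
            have h7 : 0 ≤ |t| := abs_nonneg t
            nlinarith
          rw [Int.abs_eq_natAbs, Int.abs_eq_natAbs] at e6
          exact_mod_cast e6
        have hR2 : 0 < a ∨ 0 < b2 := by
          by_cases haa : 0 < a
          · exact Or.inl haa
          · right
            have hbp : 0 < b := hR.resolve_left haa
            have h1 : 0 < b * b' := by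
              rw [← ht]
              have : a < 0 := by omega
              nlinarith [sq_nonneg t]
            have h2 : 0 < b' := (mul_pos_iff_of_pos_left hbp).mp h1
            rw [hb2, Int.sign_eq_one_of_pos h2]
            omega
        have hloc : ∀ (p : ℕ) [Fact p.Prime], p ≠ 2 →
            Nm ℚ_[p] (a : ℚ_[p]) (b2 : ℚ_[p]) := by
          intro p _ h2
          have hbne : (b : ℚ_[p]) ≠ 0 := by exact_mod_cast hb0
          have h3 : Nm ℚ_[p] (a : ℚ_[p]) (b' : ℚ_[p]) :=
            (hp p h2).trans (t := (t : ℚ_[p])) (n := 1) hbne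
              (by have := congrArg (fun z : ℤ => (z : ℚ_[p])) ht
                  push_cast at this
                  linear_combination this)
          rw [hb'e] at h3
          push_cast at h3
          exact (nm_mul_sq (by exact_mod_cast hu0)).mp h3
        have hfin := ih (a.natAbs + b2.natAbs) (by omega) a b2 rfl ha hb2sq hR2 hloc
        have h4 : Nm ℚ (a : ℚ) (b' : ℚ) := by
          rw [hb'e]
          push_cast
          exact (nm_mul_sq (by exact_mod_cast hu0)).mpr hfin
        exact h4.trans (t := (t : ℚ)) (n := 1) (by exact_mod_cast hb'0)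
          (by have := congrArg (fun z : ℤ => (z : ℚ)) ht
              push_cast at this
              linear_combination this)

private theorem sqf_int (a : ℤ) (ha : a ≠ 0) :
    ∃ (a' : ℤ) (u : ℕ), Squarefree a' ∧ u ≠ 0 ∧ a = a' * (u : ℤ) ^ 2 ∧ (0 < a → 0 < a') := by
  obtain ⟨m, u, hmu, hm⟩ := Nat.sq_mul_squarefree a.natAbs
  have hu0 : u ≠ 0 := by
    rintro rfl
    have : a.natAbs = 0 := by rw [← hmu]; ring
    omega
  have hm0 : m ≠ 0 := hm.ne_zero
  have hsgn : a.sign = 1 ∨ a.sign = -1 := by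
    rcases lt_or_gt_of_ne ha with h | h
    · exact Or.inr (Int.sign_eq_neg_one_of_neg h)
    · exact Or.inl (Int.sign_eq_one_of_pos h)
  have hn : (a.sign * (m : ℤ)).natAbs = m := by
    rcases hsgn with h | h <;> rw [h] <;> simp
  refine ⟨a.sign * m, u, ?_, hu0, ?_, ?_⟩
  · rw [← Int.squarefree_natAbs, hn]; exact hm
  · have h1 : a = a.sign * a.natAbs := (Int.sign_mul_natAbs a).symm
    rw [← hmu] at h1
    push_cast at h1
    linear_combination h1
  · intro h
    rw [Int.sign_eq_one_of_pos h]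
    omega

/-- **Legendre's theorem** (Hasse principle for conics over `ℚ`), without condition at `2`. -/
theorem legendre_rat {a b : ℤ} (ha : a ≠ 0) (hb : b ≠ 0) (hR : 0 < a ∨ 0 < b)
    (hp : ∀ (p : ℕ) [Fact p.Prime], p ≠ 2 → Nm ℚ_[p] (a : ℚ_[p]) (b : ℚ_[p])) :
    Nm ℚ (a : ℚ) (b : ℚ) := by
  obtain ⟨a', u, ha', hu, rfl, hap⟩ := sqf_int a ha
  obtain ⟨b', v, hb', hv, rfl, hbp⟩ := sqf_int b hb
  have key : Nm ℚ (a' : ℚ) (b' : ℚ) := by
    refine leg_aux _ a' b' rfl ha' hb' (hR.imp hap hbp) ?_
    intro p _ h2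
    have h := hp p h2
    push_cast at h
    have h3 := (nm_mul_sq (by exact_mod_cast hv)).mp h
    exact ((nm_mul_sq (by exact_mod_cast hu)).mp h3.symm).symm
  push_cast
  have h3 := ((nm_mul_sq (u := (u : ℚ)) (by exact_mod_cast hu)).mpr key.symm).symm
  exact (nm_mul_sq (by exact_mod_cast hv)).mpr h3

theorem legendre {a b : ℤ} (ha : a ≠ 0) (hb : b ≠ 0) (hR : 0 < a ∨ 0 < b)
    (hp : ∀ (p : ℕ) [Fact p.Prime], p ≠ 2 → Nm ℚ_[p] (a : ℚ_[p]) (b : ℚ_[p])) :
    ∃ x y z : ℤ, ¬ (x = 0 ∧ y = 0 ∧ z = 0) ∧ x ^ 2 = a * y ^ 2 + b * z ^ 2 :=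
  nm_rat_int (legendre_rat ha hb hR hp)

end Pool.Agent.PP5LC
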