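import Mathlib
import Pool.Agent.PP5LC.Lg3

/-! Legendre's theorem, part 4: local solubility at odd primes and the criterion with
congruences. -/

open Polynomial

namespace Pool.Agent.PP5LC

private theorem norm_lt_of {p : ℕ} [Fact p.Prime] {x : ℤ_[p]} (h : PadicInt.toZMod x = 0) :
    ‖x‖ < 1 := by
  have : x ∈ RingHom.ker (PadicInt.toZMod : ℤ_[p] →+* ZMod p) := h
  rw [PadicInt.ker_toZMod, PadicInt.maximalIdeal_eq_span_p, Ideal.mem_span_singleton] at this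
  exact (PadicInt.norm_lt_one_iff_dvd x).mpr this

private theorem norm_eq_of {p : ℕ} [Fact p.Prime] {x : ℤ_[p]} (h : PadicInt.toZMod x ≠ 0) :
    ‖x‖ = 1 := by
  by_contra hc
  have h1 : ‖x‖ < 1 := lt_of_le_of_ne (PadicInt.norm_le_one x) hc
  have h2 := (PadicInt.norm_lt_one_iff_dvd x).mp h1
  apply h
  have : x ∈ RingHom.ker (PadicInt.toZMod : ℤ_[p] →+* ZMod p) := by
    rw [PadicInt.ker_toZMod, PadicInt.maximalIdeal_eq_span_p, Ideal.mem_span_singleton]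
    exact h2
  exact this

/-- Hensel for square roots at odd `p`. -/
theorem padic_sqrt {p : ℕ} [Fact p.Prime] (hp : p ≠ 2) {v : ℤ_[p]} {r : ZMod p} (hr : r ≠ 0)
    (h : PadicInt.toZMod v = r ^ 2) : ∃ s : ℤ_[p], s ^ 2 = v := by
  set a : ℤ_[p] := ((r.val : ℕ) : ℤ_[p]) with ha
  have hta : PadicInt.toZMod a = r := by
    rw [ha, map_natCast, ZMod.natCast_zmod_val]
  have h2 : (2 : ZMod p) ≠ 0 := by
    intro h0
    have h3 : ((2 : ℕ) : ZMod p) = 0 := by exact_mod_cast h0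
    rw [ZMod.natCast_eq_zero_iff] at h3
    exact hp ((Nat.prime_dvd_prime_iff_eq Fact.out Nat.prime_two).mp h3)
  have e1 : ((X ^ 2 - C v : ℤ_[p][X])).aeval a = a ^ 2 - v := by simp
  have e2 : ((X ^ 2 - C v : ℤ_[p][X])).derivative.aeval a = 2 * a := by
    simp [one_add_one_eq_two]
  have n1 : ‖a ^ 2 - v‖ < 1 := by
    apply norm_lt_of
    rw [map_sub, map_pow, hta, h]; ring
  have n2 : ‖2 * a‖ = 1 := by
    apply norm_eq_of
    rw [map_mul, hta, map_ofNat]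
    exact mul_ne_zero h2 hr
  obtain ⟨z, hz, -⟩ := hensels_lemma (F := (X ^ 2 - C v : ℤ_[p][X])) (a := a)
    (by rw [e1, e2, n2]; simpa using n1)
  refine ⟨z, ?_⟩
  simp only [map_sub, map_pow, aeval_X, aeval_C] at hz
  simpa using sub_eq_zero.mp hz

theorem nm_of_isSquare {p : ℕ} [Fact p.Prime] (hp : p ≠ 2) {a b : ℤ} (hb : ¬ (p : ℤ) ∣ b)
    (h : IsSquare ((b : ℤ) : ZMod p)) : Nm ℚ_[p] (a : ℚ_[p]) (b : ℚ_[p]) := by
  obtain ⟨r, hr⟩ := h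
  have hb0 : ((b : ℤ) : ZMod p) ≠ 0 := by
    rw [Ne, ZMod.intCast_zmod_eq_zero_iff_dvd]; exact hb
  have hr0 : r ≠ 0 := by rintro rfl; exact hb0 (by rw [hr]; ring)
  obtain ⟨s, hs⟩ := padic_sqrt (v := (b : ℤ_[p])) hp hr0 (by rw [map_intCast, hr]; ring)
  refine ⟨(s : ℚ_[p]), 0, 1, fun h => one_ne_zero h.2.2, ?_⟩
  have := congrArg (fun z : ℤ_[p] => (z : ℚ_[p])) hs
  push_cast at this
  rw [this]
  ring

private theorem nm_unit_aux {p : ℕ} [Fact p.Prime] (hp : p ≠ 2) {a b : ℤ} {y z : ZMod p}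
    (ha : ¬ (p : ℤ) ∣ a) (h : (a : ZMod p) * y ^ 2 + (b : ZMod p) * z ^ 2 = 1) (hy : y ≠ 0) :
    Nm ℚ_[p] (a : ℚ_[p]) (b : ℚ_[p]) := by
  have ha0 : ((a : ℤ) : ZMod p) ≠ 0 := by
    rw [Ne, ZMod.intCast_zmod_eq_zero_iff_dvd]; exact ha
  have hu : IsUnit (a : ℤ_[p]) := by
    rw [PadicInt.isUnit_iff]
    apply norm_eq_of
    rw [map_intCast]; exact ha0
  obtain ⟨A, hA⟩ := hu
  set ζ : ℤ_[p] := ((z.val : ℕ) : ℤ_[p]) with hζ
  have htz : PadicInt.toZMod ζ = z := by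
    rw [hζ, map_natCast, ZMod.natCast_zmod_val]
  have hAinv : PadicInt.toZMod ((A⁻¹ : ℤ_[p]ˣ) : ℤ_[p]) = ((a : ℤ) : ZMod p)⁻¹ := by
    have h1 : (a : ℤ_[p]) * ((A⁻¹ : ℤ_[p]ˣ) : ℤ_[p]) = 1 := by rw [← hA]; simp
    have h2 := congrArg (PadicInt.toZMod (p := p)) h1
    rw [map_mul, map_intCast, map_one] at h2
    exact eq_inv_of_mul_eq_one_right h2
  obtain ⟨s, hs⟩ := padic_sqrt (v := (1 - (b : ℤ_[p]) * ζ ^ 2) * ((A⁻¹ : ℤ_[p]ˣ) : ℤ_[p])) hp hy (by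
    rw [map_mul, hAinv, map_sub, map_one, map_mul, map_intCast, map_pow, htz]
    field_simp
    linear_combination -h)
  refine ⟨1, (s : ℚ_[p]), (ζ : ℚ_[p]), fun h => one_ne_zero h.1, ?_⟩
  have e : (a : ℤ_[p]) * s ^ 2 = 1 - (b : ℤ_[p]) * ζ ^ 2 := by
    rw [hs, ← hA]
    have : (A : ℤ_[p]) * ((A⁻¹ : ℤ_[p]ˣ) : ℤ_[p]) = 1 := by simp
    linear_combination (1 - (b : ℤ_[p]) * ζ ^ 2) * this
  have := congrArg (fun z : ℤ_[p] => (z : ℚ_[p])) e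
  push_cast at this
  linear_combination -this

theorem nm_units {p : ℕ} [Fact p.Prime] (hp : p ≠ 2) {a b : ℤ} (ha : ¬ (p : ℤ) ∣ a)
    (hb : ¬ (p : ℤ) ∣ b) : Nm ℚ_[p] (a : ℚ_[p]) (b : ℚ_[p]) := by
  have ha0 : ((a : ℤ) : ZMod p) ≠ 0 := by
    rw [Ne, ZMod.intCast_zmod_eq_zero_iff_dvd]; exact ha
  have hb0 : ((b : ℤ) : ZMod p) ≠ 0 := by
    rw [Ne, ZMod.intCast_zmod_eq_zero_iff_dvd]; exact hb
  obtain ⟨y, z, hyz⟩ := FiniteField.exists_root_sum_quadratic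
    (f := C ((a : ℤ) : ZMod p) * X ^ 2) (g := C ((b : ℤ) : ZMod p) * X ^ 2 - C 1)
    (degree_C_mul_X_pow 2 ha0)
    (by
      rw [degree_sub_eq_left_of_degree_lt]
      · exact degree_C_mul_X_pow 2 hb0
      · rw [degree_C_mul_X_pow 2 hb0, degree_C one_ne_zero]; norm_num)
    (by rw [ZMod.card]; exact (Fact.out : p.Prime).eq_two_or_odd.resolve_left hp)
  simp only [eval_mul, eval_C, eval_pow, eval_X, eval_sub] at hyz
  have h1 : (a : ZMod p) * y ^ 2 + (b : ZMod p) * z ^ 2 = 1 := by linear_combination hyz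
  by_cases hy : y = 0
  · have hz : z ≠ 0 := by
      rintro rfl
      rw [hy] at h1
      simp at h1
    exact (nm_unit_aux hp (a := b) (b := a) (y := z) (z := y) hb (by linear_combination h1) hz).symm
  · exact nm_unit_aux hp ha h1 hy

/-- Legendre's criterion, congruence form. -/
theorem legendre_cong {a b : ℤ} (ha : a ≠ 0) (hb : b ≠ 0) (hR : 0 < a ∨ 0 < b)
    (h : ∀ p : ℕ, p.Prime → p ≠ 2 → (¬ (p : ℤ) ∣ a ∧ ¬ (p : ℤ) ∣ b) ∨
      (¬ (p : ℤ) ∣ a ∧ IsSquare ((a : ℤ) : ZMod p)) ∨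
      (¬ (p : ℤ) ∣ b ∧ IsSquare ((b : ℤ) : ZMod p))) :
    Nm ℚ (a : ℚ) (b : ℚ) := by
  refine legendre_rat ha hb hR ?_
  intro p hpf hp
  rcases h p hpf.out hp with ⟨h1, h2⟩ | ⟨h1, h2⟩ | ⟨h1, h2⟩
  · exact nm_units hp h1 h2
  · exact (nm_of_isSquare hp h1 h2).symm
  · exact nm_of_isSquare hp h1 h2

end Pool.Agent.PP5LC
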