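import Mathlib
import Pool.Agent.PP5LC.Lg4

/-! Values of binary quadratic forms. -/

namespace Pool.Agent.PP5LC

/-- the binary form `a u² + b u v + c v²`. -/
def bq {R : Type*} [CommRing R] (a b c u v : R) : R := a * u ^ 2 + b * u * v + c * v ^ 2

/-- a form which is primitive at the primes dividing `N` has a primitive value prime to `N`. -/
theorem good_value (a b c N : ℤ) (hN : N ≠ 0)
    (h : ∀ p : ℕ, p.Prime → (p : ℤ) ∣ N → ¬ ((p : ℤ) ∣ a ∧ (p : ℤ) ∣ b ∧ (p : ℤ) ∣ c)) :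
    ∃ u v : ℤ, IsCoprime u v ∧ IsCoprime (bq a b c u v) N := by
  classical
  set S := N.natAbs.primeFactors with hS
  set U : Finset ℕ := S.filter (fun p => (p : ℤ) ∣ a ∧ ¬ (p : ℤ) ∣ c) with hU
  set V : Finset ℕ := S.filter (fun p => ¬ (p : ℤ) ∣ a) with hV
  have hSp : ∀ p ∈ S, p.Prime := fun p hp => Nat.prime_of_mem_primeFactors hp
  have hUp : ∀ p ∈ U, p.Prime := fun p hp => hSp p (Finset.mem_filter.mp hp).1
  have hVp : ∀ p ∈ V, p.Prime := fun p hp => hSp p (Finset.mem_filter.mp hp).1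
  have dvdU : ∀ p : ℕ, p.Prime → p ∣ ∏ q ∈ U, q → p ∈ U := by
    intro p hp hd
    obtain ⟨q, hq, hpq⟩ := (Prime.dvd_finsetProd_iff hp.prime _).mp hd
    rwa [(Nat.prime_dvd_prime_iff_eq hp (hUp q hq)).mp hpq]
  have dvdV : ∀ p : ℕ, p.Prime → p ∣ ∏ q ∈ V, q → p ∈ V := by
    intro p hp hd
    obtain ⟨q, hq, hpq⟩ := (Prime.dvd_finsetProd_iff hp.prime _).mp hd
    rwa [(Nat.prime_dvd_prime_iff_eq hp (hVp q hq)).mp hpq]
  refine ⟨((∏ q ∈ U, q : ℕ) : ℤ), ((∏ q ∈ V, q : ℕ) : ℤ), ?_, ?_⟩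
  · rw [Nat.isCoprime_iff_coprime]
    apply Nat.coprime_of_dvd
    intro p hp h1 h2
    have h3 := (Finset.mem_filter.mp (dvdU p hp h1)).2
    have h4 := (Finset.mem_filter.mp (dvdV p hp h2)).2
    exact h4 h3.1
  · rw [Int.isCoprime_iff_gcd_eq_one]
    by_contra hg
    obtain ⟨p, hp, hpg⟩ := Nat.exists_prime_and_dvd hg
    have hpz : Prime (p : ℤ) := Nat.prime_iff_prime_int.mp hp
    have h1 : (p : ℤ) ∣ bq a b c ((∏ q ∈ U, q : ℕ) : ℤ) ((∏ q ∈ V, q : ℕ) : ℤ) :=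
      (Int.natCast_dvd_natCast.mpr hpg).trans (Int.gcd_dvd_left _ _)
    have h2 : (p : ℤ) ∣ N := (Int.natCast_dvd_natCast.mpr hpg).trans (Int.gcd_dvd_right _ _)
    have hpS : p ∈ S := by
      rw [hS, Nat.mem_primeFactors]
      exact ⟨hp, Int.natCast_dvd.mp h2, by omega⟩
    have nU : p ∉ U → ¬ (p : ℤ) ∣ ((∏ q ∈ U, q : ℕ) : ℤ) := fun h h' =>
      h (dvdU p hp (Int.natCast_dvd_natCast.mp h'))
    have nV : p ∉ V → ¬ (p : ℤ) ∣ ((∏ q ∈ V, q : ℕ) : ℤ) := fun h h' =>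
      h (dvdV p hp (Int.natCast_dvd_natCast.mp h'))
    have yU : p ∈ U → (p : ℤ) ∣ ((∏ q ∈ U, q : ℕ) : ℤ) := fun h =>
      Int.natCast_dvd_natCast.mpr (Finset.dvd_prod_of_mem _ h)
    have yV : p ∈ V → (p : ℤ) ∣ ((∏ q ∈ V, q : ℕ) : ℤ) := fun h =>
      Int.natCast_dvd_natCast.mpr (Finset.dvd_prod_of_mem _ h)
    set u : ℤ := ((∏ q ∈ U, q : ℕ) : ℤ)
    set v : ℤ := ((∏ q ∈ V, q : ℕ) : ℤ)
    unfold bq at h1
    by_cases ha : (p : ℤ) ∣ a
    · have hVn : p ∉ V := fun h' => (Finset.mem_filter.mp h').2 ha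
      have hv := nV hVn
      by_cases hc : (p : ℤ) ∣ c
      · have hUn : p ∉ U := fun h' => (Finset.mem_filter.mp h').2.2 hc
        have hu := nU hUn
        have h3 : (p : ℤ) ∣ b * u * v := by
          have e : b * u * v = (a * u ^ 2 + b * u * v + c * v ^ 2) - a * u ^ 2 - c * v ^ 2 := by ring
          rw [e]
          exact dvd_sub (dvd_sub h1 (ha.mul_right _)) (hc.mul_right _)
        have h4 : (p : ℤ) ∣ b := by
          rcases hpz.dvd_or_dvd h3 with h5 | h5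
          · exact (hpz.dvd_or_dvd h5).resolve_right hu
          · exact absurd h5 hv
        exact h p hp h2 ⟨ha, h4, hc⟩
      · have hU' : p ∈ U := Finset.mem_filter.mpr ⟨hpS, ha, hc⟩
        have hu := yU hU'
        have h3 : (p : ℤ) ∣ c * v ^ 2 := by
          have e : c * v ^ 2 = (a * u ^ 2 + b * u * v + c * v ^ 2) - u * (a * u + b * v) := by ring
          rw [e]
          exact dvd_sub h1 (hu.mul_right _)
        rcases hpz.dvd_or_dvd h3 with h5 | h5
        · exact hc h5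
        · exact hv (hpz.dvd_of_dvd_pow h5)
    · have hV' : p ∈ V := Finset.mem_filter.mpr ⟨hpS, ha⟩
      have hv := yV hV'
      have hUn : p ∉ U := fun h' => ha (Finset.mem_filter.mp h').2.1
      have hu := nU hUn
      have h3 : (p : ℤ) ∣ a * u ^ 2 := by
        have e : a * u ^ 2 = (a * u ^ 2 + b * u * v + c * v ^ 2) - v * (b * u + c * v) := by ring
        rw [e]
        exact dvd_sub h1 (hv.mul_right _)
      rcases hpz.dvd_or_dvd h3 with h5 | h5
      · exact ha h5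
      · exact hu (hpz.dvd_of_dvd_pow h5)

/-- if the form `(a, b, c)` of discriminant `d` has the value `e ≠ 0` then it represents every
`t ≠ 0` for which the conic `x² = d y² + e t z²` has a point. -/
theorem rep_of_nm {a b c u v d e t : ℚ} (hd : b ^ 2 - 4 * a * c = d) (hd0 : d ≠ 0)
    (he : bq a b c u v = e) (he0 : e ≠ 0) (h : Nm ℚ d (e * t)) :
    ∃ r s : ℚ, bq a b c r s = t := by
  have key : ∀ α β : ℚ, bq a b c (α * u + β * (b * u + 2 * c * v))
      (α * v - β * (2 * a * u + b * v)) = (α ^ 2 - d * β ^ 2) * e := by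
    intro α β
    rw [← he, ← hd]
    unfold bq
    ring
  obtain ⟨x, y, z, h0, h1⟩ := h
  by_cases hz : z = 0
  · subst hz
    have hy : y ≠ 0 := by
      rintro rfl
      have : x ^ 2 = 0 := by rw [h1]; ring
      exact h0 ⟨pow_eq_zero_iff two_ne_zero |>.mp this, rfl, rfl⟩
    have hx2 : x ^ 2 = d * y ^ 2 := by rw [h1]; ring
    have hx : x ≠ 0 := by
      rintro rfl
      have : d * y ^ 2 = 0 := by rw [← hx2]; ring
      exact (mul_ne_zero hd0 (pow_ne_zero 2 hy)) this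
    refine ⟨_, _, (key ((1 + t / e) / 2) ((t / e - 1) * y / (2 * x))).trans ?_⟩
    have hdy : d = x ^ 2 / y ^ 2 := by field_simp; linarith
    rw [hdy]
    field_simp
    ring
  · refine ⟨_, _, (key (x / (e * z)) (y / (e * z))).trans ?_⟩
    field_simp
    linear_combination h1

end Pool.Agent.PP5LC
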