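import Mathlib
import Pool.Agent.PP5LC.Lg5

/-! Two binary forms of discriminants `d` and `d D` with a common value (Dirichlet's theorem,
quadratic reciprocity, Legendre's theorem). -/

open scoped NumberTheorySymbols

namespace Pool.Agent.PP5LC

private theorem jac_val {e d B k : ℤ} (h : d = B ^ 2 + e * k) (hc : IsCoprime e d) :
    jacobiSym d e.natAbs = 1 := by
  have h1 : d % (e.natAbs : ℤ) = B ^ 2 % (e.natAbs : ℤ) := by
    apply Int.ModEq.symm
    rw [Int.modEq_iff_dvd, Int.natAbs_dvd]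
    exact ⟨k, by rw [h]; ring⟩
  rw [jacobiSym.mod_left' h1]
  apply jacobiSym.sq_one'
  rw [← Int.isCoprime_iff_gcd_eq_one]
  rw [h] at hc
  have h2 : IsCoprime e (B ^ 2) := IsCoprime.add_mul_left_right_iff.mp hc
  have h3 : IsCoprime e B := (IsCoprime.pow_right_iff (by norm_num)).mp h2
  rcases Int.natAbs_eq e with h4 | h4
  · rw [← h4]; exact h3.symm
  · have : ((e.natAbs : ℕ) : ℤ) = -e := by omega
    rw [this]
    exact (IsCoprime.neg_left h3).symm

private theorem jac_abs (e : ℤ) {n : ℕ} (hn : n % 4 = 1) :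
    jacobiSym e n = jacobiSym (e.natAbs : ℤ) n := by
  rcases Int.natAbs_eq e with h | h
  · rw [← h]
  · conv_lhs => rw [h]
    have hodd : Odd n := Nat.odd_iff.mpr (by omega)
    rw [jacobiSym.neg _ hodd, ZMod.χ₄_nat_one_mod_four hn, one_mul]

private theorem coprime_of {m d : ℤ} {x k : ℤ} (hx : IsCoprime x d) (h : x = m ^ 2 + d * k) :
    IsCoprime m d := by
  rw [h] at hx
  have h2 : IsCoprime (m ^ 2) d := IsCoprime.add_mul_left_left_iff.mp hx
  exact (IsCoprime.pow_left_iff (by norm_num)).mp h2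

private theorem sq_zmod {p : ℕ} [Fact p.Prime] (hp : p ≠ 2) {x m k : ℤ}
    (h : 4 * x = m ^ 2 + p * k) : IsSquare ((x : ℤ) : ZMod p) := by
  have h2 : (2 : ZMod p) ≠ 0 := by
    intro h0
    have h3 : ((2 : ℕ) : ZMod p) = 0 := by exact_mod_cast h0
    rw [ZMod.natCast_eq_zero_iff] at h3
    exact hp ((Nat.prime_dvd_prime_iff_eq Fact.out Nat.prime_two).mp h3)
  refine ⟨(m : ZMod p) / 2, ?_⟩
  have h4 := congrArg (fun z : ℤ => (z : ZMod p)) h
  push_cast at h4
  rw [CharP.cast_eq_zero, zero_mul, add_zero] at h4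
  field_simp
  linear_combination h4

theorem two_forms {a b c A B C d D : ℤ} (hd : b ^ 2 - 4 * a * c = d)
    (hdD : B ^ 2 - 4 * A * C = d * D) (hd0 : 0 < d) (hd1 : ¬ 2 ∣ d) (hD1 : ¬ 2 ∣ D)
    (P1 : ∀ p : ℕ, p.Prime → (p : ℤ) ∣ d → ¬ ((p : ℤ) ∣ a ∧ (p : ℤ) ∣ b ∧ (p : ℤ) ∣ c))
    (P2 : ∀ p : ℕ, p.Prime → (p : ℤ) ∣ d * D → ¬ ((p : ℤ) ∣ A ∧ (p : ℤ) ∣ B ∧ (p : ℤ) ∣ C))
    (hrel : ∀ u v w z : ℤ, ∃ m k : ℤ, 4 * (bq a b c u v * bq A B C w z) = m ^ 2 + d * k) :
    ∃ r s r' s' t : ℚ, t ≠ 0 ∧ bq (a : ℚ) b c r s = t ∧ bq (A : ℚ) B C r' s' = t := by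
  have hD0 : D ≠ 0 := by rintro rfl; exact hD1 (dvd_zero _)
  have hdne : d ≠ 0 := hd0.ne'
  have hdDne : d * D ≠ 0 := mul_ne_zero hdne hD0
  have hdD1 : ¬ 2 ∣ d * D := fun h => (Int.prime_two.dvd_or_dvd h).elim hd1 hD1
  -- oddness of b, B
  have hb1 : ¬ (2 : ℤ) ∣ b := by
    rintro ⟨k, rfl⟩
    exact hd1 ⟨2 * k ^ 2 - 2 * a * c, by rw [← hd]; ring⟩
  have hB1 : ¬ (2 : ℤ) ∣ B := by
    rintro ⟨k, rfl⟩
    exact hdD1 ⟨2 * k ^ 2 - 2 * A * C, by rw [← hdD]; ring⟩
  have hdmod : d % 4 = 1 := by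
    obtain ⟨k, hk⟩ : Odd b := by rwa [← Int.not_even_iff_odd, even_iff_two_dvd]
    have : d = 4 * (k ^ 2 + k - a * c) + 1 := by rw [← hd, hk]; ring
    omega
  obtain ⟨u0, v0, hc0, he⟩ := good_value a b c (2 * d) (mul_ne_zero two_ne_zero hdne) (by
    intro p hp hpd
    rcases (Nat.prime_iff_prime_int.mp hp).dvd_or_dvd hpd with h | h
    · have h2 : p = 2 := by
        have : p ∣ 2 := by exact_mod_cast h
        exact (Nat.prime_dvd_prime_iff_eq hp Nat.prime_two).mp this
      subst h2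
      exact fun h' => hb1 h'.2.1
    · exact P1 p hp h)
  obtain ⟨w0, z0, hc1, hg⟩ := good_value A B C (2 * (d * D)) (mul_ne_zero two_ne_zero hdDne) (by
    intro p hp hpd
    rcases (Nat.prime_iff_prime_int.mp hp).dvd_or_dvd hpd with h | h
    · have h2 : p = 2 := by
        have : p ∣ 2 := by exact_mod_cast h
        exact (Nat.prime_dvd_prime_iff_eq hp Nat.prime_two).mp this
      subst h2
      exact fun h' => hB1 h'.2.1
    · exact P2 p hp h)
  set e := bq a b c u0 v0 with hedef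
  set g := bq A B C w0 z0 with hgdef
  have he2 : IsCoprime e 2 := he.of_mul_right_left
  have hed : IsCoprime e d := he.of_mul_right_right
  have hg2 : IsCoprime g 2 := hg.of_mul_right_left
  have hgdD : IsCoprime g (d * D) := hg.of_mul_right_right
  have hgd : IsCoprime g d := hgdD.of_mul_right_left
  have not2 : ∀ x : ℤ, IsCoprime x 2 → ¬ (2 : ℤ) ∣ x := by
    intro x hx h
    have := hx.isUnit_of_dvd' h (dvd_refl 2)
    exact absurd (Int.isUnit_iff.mp this) (by norm_num)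
  have he1 := not2 e he2
  have hg1 := not2 g hg2
  have he0 : e ≠ 0 := fun h => he1 (h ▸ dvd_zero _)
  have hg0 : g ≠ 0 := fun h => hg1 (h ▸ dvd_zero _)
  -- discriminant is a square modulo the value
  obtain ⟨m1, k1, hm1⟩ : ∃ m k : ℤ, d = m ^ 2 + e * k := by
    obtain ⟨s, r, hsr⟩ := hc0
    refine ⟨2 * a * u0 * (-r) + b * (u0 * s + v0 * (-r)) + 2 * c * v0 * s,
      -4 * bq a b c (-r) s, ?_⟩
    have : d = d * (s * u0 + r * v0) ^ 2 := by rw [hsr]; ring
    rw [this, hedef, ← hd]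
    unfold bq
    ring
  obtain ⟨m2, k2, hm2⟩ : ∃ m k : ℤ, d * D = m ^ 2 + g * k := by
    obtain ⟨s, r, hsr⟩ := hc1
    refine ⟨2 * A * w0 * (-r) + B * (w0 * s + z0 * (-r)) + 2 * C * z0 * s,
      -4 * bq A B C (-r) s, ?_⟩
    have : d * D = d * D * (s * w0 + r * z0) ^ 2 := by rw [hsr]; ring
    rw [this, hgdef, ← hdD]
    unfold bq
    ring
  obtain ⟨m3, k3, hm3⟩ := hrel u0 v0 w0 z0
  rw [← hedef, ← hgdef] at hm3
  -- the natural number n = d
  obtain ⟨n, hn⟩ : ∃ n : ℕ, d = n := ⟨d.toNat, by omega⟩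
  have hn4 : n % 4 = 1 := by omega
  have hnodd : Odd n := Nat.odd_iff.mpr (by omega)
  have J1 : jacobiSym e n = 1 := by
    have h1 : jacobiSym d e.natAbs = 1 := jac_val hm1 hed
    rw [jac_abs e hn4]
    have h2 : Odd e.natAbs := by
      rw [Int.natAbs_odd, ← Int.not_even_iff_odd, even_iff_two_dvd]; exact he1
    rw [← jacobiSym.quadratic_reciprocity_one_mod_four hn4 h2, ← hn]
    exact h1
  have J2 : jacobiSym g n = 1 := by
    have h1 : jacobiSym (4 * (e * g)) n = 1 := by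
      have hmod : (4 * (e * g)) % (n : ℤ) = m3 ^ 2 % (n : ℤ) := by
        apply Int.ModEq.symm
        rw [Int.modEq_iff_dvd]
        exact ⟨k3, by rw [hm3, hn]; ring⟩
      rw [jacobiSym.mod_left' hmod]
      apply jacobiSym.sq_one'
      rw [← Int.isCoprime_iff_gcd_eq_one, ← hn]
      have h2d : IsCoprime (2 : ℤ) d := by
        rw [Int.isCoprime_iff_gcd_eq_one]
        have h3 : Int.gcd 2 d ∣ 2 := by
          have := Int.gcd_dvd_left (2 : ℤ) d
          exact_mod_cast this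
        rcases (Nat.dvd_prime Nat.prime_two).mp h3 with h4 | h4
        · exact h4
        · exfalso
          have := Int.gcd_dvd_right (2 : ℤ) d
          rw [h4] at this
          exact hd1 this
      have h4 : IsCoprime (4 * (e * g)) d := by
        have : (4 : ℤ) * (e * g) = 2 * 2 * (e * g) := by ring
        rw [this]
        exact (h2d.mul_left h2d).mul_left (hed.mul_left hgd)
      exact coprime_of h4 hm3
    rw [jacobiSym.mul_left, jacobiSym.mul_left, jacobiSym.at_four hnodd, J1, one_mul, one_mul] at h1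
    exact h1
  -- the prime q
  have hM0 : 4 * (d * D).natAbs ≠ 0 := by
    have : (d * D).natAbs ≠ 0 := Int.natAbs_ne_zero.mpr hdDne
    omega
  have hMcop : (g.natAbs).Coprime (4 * (d * D).natAbs) := by
    have h1 : IsCoprime g (4 * (d * D)) := by
      have : (4 : ℤ) * (d * D) = 2 * 2 * (d * D) := by ring
      rw [this]
      exact (hg2.mul_right hg2).mul_right hgdD
    rw [Int.isCoprime_iff_gcd_eq_one, Int.gcd_eq_natAbs, Int.natAbs_mul] at h1
    exact h1
  obtain ⟨q, -, hq, hqm⟩ := Nat.forall_exists_prime_gt_and_modEq 0 hM0 hMcop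
  have hqf : Fact q.Prime := ⟨hq⟩
  have hgodd : Odd g.natAbs := by
    rw [Int.natAbs_odd, ← Int.not_even_iff_odd, even_iff_two_dvd]; exact hg1
  have hqodd : Odd q := by
    rw [Nat.odd_iff]
    have h1 : q ≡ g.natAbs [MOD 2] := hqm.of_dvd ⟨2 * (d * D).natAbs, by ring⟩
    have h2 := Nat.odd_iff.mp hgodd
    unfold Nat.ModEq at h1
    omega
  have hq2 : q ≠ 2 := by rintro rfl; exact absurd hqodd (by decide)
  have hqI : ∃ k : ℤ, (q : ℤ) = g.natAbs + (d * D) * k := by
    have h1 : q ≡ g.natAbs [MOD (d * D).natAbs] := hqm.of_dvd ⟨4, by ring⟩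
    have h2 : (g.natAbs : ℤ) ≡ q [ZMOD ((d * D).natAbs : ℤ)] :=
      (Int.natCast_modEq_iff.mpr h1).symm
    rw [Int.modEq_iff_dvd, Int.natAbs_dvd] at h2
    obtain ⟨k, hk⟩ := h2
    exact ⟨k, by linarith⟩
  obtain ⟨kq, hkq⟩ := hqI
  -- (d/q) = 1
  have Sd : IsSquare ((d : ℤ) : ZMod q) := by
    apply ZMod.isSquare_of_jacobiSym_eq_one
    rw [hn, jacobiSym.quadratic_reciprocity_one_mod_four hn4 hqodd]
    have hmod : (q : ℤ) % (n : ℤ) = (g.natAbs : ℤ) % (n : ℤ) := by
      apply Int.ModEq.symm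
      rw [Int.modEq_iff_dvd]
      exact ⟨D * kq, by rw [hkq, hn]; ring⟩
    rw [jacobiSym.mod_left' hmod, ← jac_abs g hn4]
    exact J2
  -- (dD/q) = 1
  have SdD : IsSquare (((d * D : ℤ)) : ZMod q) := by
    apply ZMod.isSquare_of_jacobiSym_eq_one
    rw [jacobiSym.mod_right _ hqodd]
    have h1 : q % (4 * (d * D).natAbs) = g.natAbs % (4 * (d * D).natAbs) := hqm
    rw [h1, ← jacobiSym.mod_right _ hgodd]
    exact jac_val hm2 hgdD
  have hqdD : ¬ (q : ℤ) ∣ d * D := by
    intro h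
    have h1 : (q : ℤ) ∣ g := by
      have h2 : (q : ℤ) ∣ (g.natAbs : ℤ) := by
        have e1 : (g.natAbs : ℤ) = q - (d * D) * kq := by linarith
        rw [e1]
        exact dvd_sub (dvd_refl _) (h.mul_right _)
      exact Int.dvd_natAbs.mp h2
    have := hgdD.isUnit_of_dvd' h1 h
    exact (Nat.prime_iff_prime_int.mp hq).not_isUnit this
  have hqd : ¬ (q : ℤ) ∣ d := fun h => hqdD (h.mul_right _)
  -- τ
  obtain ⟨σ, hσ, hσg⟩ : ∃ σ : ℤ, (σ = 1 ∨ σ = -1) ∧ g = σ * g.natAbs := by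
    rcases Int.natAbs_eq g with h | h
    · exact ⟨1, Or.inl rfl, by rw [one_mul]; exact h⟩
    · exact ⟨-1, Or.inr rfl, by rw [neg_one_mul]; exact h⟩
  have hσ2 : σ * σ = 1 := by rcases hσ with h | h <;> rw [h] <;> norm_num
  have hσn : ∀ p : ℕ, p.Prime → ¬ (p : ℤ) ∣ σ := by
    intro p hp h
    have : IsUnit σ := by rcases hσ with h | h <;> rw [h] <;> decide
    exact (Nat.prime_iff_prime_int.mp hp).not_isUnit (isUnit_of_dvd_unit h this)
  have hτg : σ * q = g + (d * D) * (σ * kq) := by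
    rw [hkq]
    linear_combination -hσg
  have hqpos : (0 : ℤ) < q := by exact_mod_cast hq.pos
  have hσ0 : σ ≠ 0 := by rcases hσ with h | h <;> rw [h] <;> norm_num
  have hτ0 : σ * (q : ℤ) ≠ 0 := mul_ne_zero hσ0 hqpos.ne'
  -- prime dividing the value
  have pdvd : ∀ p : ℕ, p.Prime → ∀ x y : ℤ, (p : ℤ) ∣ x → IsCoprime x y → ¬ (p : ℤ) ∣ y := by
    intro p hp x y h1 h2 h3
    exact (Nat.prime_iff_prime_int.mp hp).not_isUnit (h2.isUnit_of_dvd' h1 h3)
  have N1 : Nm ℚ ((d : ℤ) : ℚ) ((e * (σ * q) : ℤ) : ℚ) := by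
    apply legendre_cong hdne (mul_ne_zero he0 hτ0) (Or.inl hd0)
    intro p hp hp2
    have hpf : Fact p.Prime := ⟨hp⟩
    have hpp := Nat.prime_iff_prime_int.mp hp
    by_cases hpd : (p : ℤ) ∣ d
    · right; right
      have hpe : ¬ (p : ℤ) ∣ e := pdvd p hp d e hpd hed.symm
      have hpq : ¬ (p : ℤ) ∣ (q : ℤ) := by
        intro h
        have h1 : p = q := (Nat.prime_dvd_prime_iff_eq hp hq).mp (by exact_mod_cast h)
        subst h1
        exact hqd hpd
      refine ⟨fun h => ?_, ?_⟩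
      · rcases hpp.dvd_or_dvd h with h | h
        · exact hpe h
        · rcases hpp.dvd_or_dvd h with h | h
          · exact hσn p hp h
          · exact hpq h
      · obtain ⟨d', hd'⟩ := hpd
        apply sq_zmod (m := m3) (k := d' * k3 + 4 * e * (d' * D * (σ * kq))) hp2
        rw [hτg]
        have e1 : 4 * (e * (g + d * D * (σ * kq))) = 4 * (e * g) + 4 * e * (d * D * (σ * kq)) := by ring
        rw [e1, hm3, hd']
        ring
    · by_cases hpe : (p : ℤ) ∣ e
      · right; left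
        refine ⟨hpd, ?_⟩
        obtain ⟨e', he'⟩ := hpe
        refine sq_zmod (m := 2 * m1) (k := 4 * e' * k1) hp2 ?_
        rw [hm1, he']; ring
      · by_cases hpq : (p : ℤ) ∣ (q : ℤ)
        · right; left
          have h1 : p = q := (Nat.prime_dvd_prime_iff_eq hp hq).mp (by exact_mod_cast hpq)
          subst h1
          exact ⟨hqd, Sd⟩
        · left
          refine ⟨hpd, fun h => ?_⟩
          rcases hpp.dvd_or_dvd h with h | h
          · exact hpe h
          · rcases hpp.dvd_or_dvd h with h | h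
            · exact hσn p hp h
            · exact hpq h
  have N2 : Nm ℚ ((d * D : ℤ) : ℚ) ((g * (σ * q) : ℤ) : ℚ) := by
    have hpos : 0 < g * (σ * q) := by
      have e1 : g * (σ * q) = (g.natAbs : ℤ) * q := by
        conv_lhs => rw [hσg]
        linear_combination (g.natAbs : ℤ) * q * hσ2
      rw [e1]
      have : 0 < (g.natAbs : ℤ) := by
        have := Int.natAbs_pos.mpr hg0
        exact_mod_cast this
      exact mul_pos this hqpos
    apply legendre_cong hdDne (mul_ne_zero hg0 hτ0) (Or.inr hpos)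
    intro p hp hp2
    have hpf : Fact p.Prime := ⟨hp⟩
    have hpp := Nat.prime_iff_prime_int.mp hp
    by_cases hpd : (p : ℤ) ∣ d * D
    · right; right
      have hpg : ¬ (p : ℤ) ∣ g := pdvd p hp (d * D) g hpd hgdD.symm
      have hpq : ¬ (p : ℤ) ∣ (q : ℤ) := by
        intro h
        have h1 : p = q := (Nat.prime_dvd_prime_iff_eq hp hq).mp (by exact_mod_cast h)
        subst h1
        exact hqdD hpd
      refine ⟨fun h => ?_, ?_⟩
      · rcases hpp.dvd_or_dvd h with h | h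
        · exact hpg h
        · rcases hpp.dvd_or_dvd h with h | h
          · exact hσn p hp h
          · exact hpq h
      · obtain ⟨d', hd'⟩ := hpd
        apply sq_zmod (m := 2 * g) (k := 4 * g * (d' * (σ * kq))) hp2
        rw [hτg, hd']
        ring
    · by_cases hpg : (p : ℤ) ∣ g
      · right; left
        refine ⟨hpd, ?_⟩
        obtain ⟨g', hg'⟩ := hpg
        refine sq_zmod (m := 2 * m2) (k := 4 * g' * k2) hp2 ?_
        rw [hm2, hg']; ring
      · by_cases hpq : (p : ℤ) ∣ (q : ℤ)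
        · right; left
          have h1 : p = q := (Nat.prime_dvd_prime_iff_eq hp hq).mp (by exact_mod_cast hpq)
          subst h1
          exact ⟨hqdD, SdD⟩
        · left
          refine ⟨hpd, fun h => ?_⟩
          rcases hpp.dvd_or_dvd h with h | h
          · exact hpg h
          · rcases hpp.dvd_or_dvd h with h | h
            · exact hσn p hp h
            · exact hpq h
  have c1 : (b : ℚ) ^ 2 - 4 * a * c = (d : ℚ) := by exact_mod_cast hd
  have c2 : (B : ℚ) ^ 2 - 4 * A * C = ((d * D : ℤ) : ℚ) := by exact_mod_cast hdD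
  have c3 : bq (a : ℚ) b c u0 v0 = (e : ℚ) := by rw [hedef]; unfold bq; push_cast; ring
  have c4 : bq (A : ℚ) B C w0 z0 = (g : ℚ) := by rw [hgdef]; unfold bq; push_cast; ring
  obtain ⟨r, s, hrs⟩ := rep_of_nm (t := ((σ * q : ℤ) : ℚ)) c1 (by exact_mod_cast hdne) c3
    (by exact_mod_cast he0) (by have := N1; push_cast at this ⊢; exact this)
  obtain ⟨r', s', hrs'⟩ := rep_of_nm (t := ((σ * q : ℤ) : ℚ)) c2 (by exact_mod_cast hdDne) c4
    (by exact_mod_cast hg0) (by have := N2; push_cast at this ⊢; exact this)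
  exact ⟨r, s, r', s', _, by exact_mod_cast hτ0, hrs, hrs'⟩

end Pool.Agent.PP5LC
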