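import Mathlib
import Pool.Agent.PP5LC.Lg6
import Pool.Agent.PP5.LDefs

/-! `S(x)` is isotropic. -/

open Matrix

namespace Pool.Agent.PP5LC

open Pool.Agent.PP5L

theorem quad_eq {R : Type*} [CommRing R] (x : Fin 10 → R) (mu : Fin 4 → R) :
    mu ⬝ᵥ (SS x *ᵥ mu) = 2 * (x 0 * mu 0 ^ 2 - (x 4 + x 5) * mu 0 * mu 1 + x 2 * mu 1 ^ 2
      + x 6 * mu 0 * mu 2 - x 8 * mu 0 * mu 3 - x 7 * mu 1 * mu 2 + x 9 * mu 1 * mu 3
      - x 1 * mu 2 ^ 2 + (x 4 - x 5) * mu 2 * mu 3 - x 3 * mu 3 ^ 2) := by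
  simp [dotProduct, Matrix.mulVec, Fin.sum_univ_four, SS]
  ring

/-- the discriminant of the first binary block. -/
def dV {R : Type*} [CommRing R] (x : Fin 10 → R) : R := (x 4 + x 5) ^ 2 - 4 * x 0 * x 2

/-- the coefficients of `h' = ½ wᵀ (d S_W + Bᵀ adj(S_V) B) w`. -/
def hA {R : Type*} [CommRing R] (x : Fin 10 → R) : R :=
  -(dV x * x 1) + x 0 * x 7 ^ 2 - (x 4 + x 5) * x 7 * x 6 + x 2 * x 6 ^ 2
def hB {R : Type*} [CommRing R] (x : Fin 10 → R) : R :=
  dV x * (x 4 - x 5) - 2 * x 0 * x 7 * x 9 + (x 4 + x 5) * (x 7 * x 8 + x 9 * x 6)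
    - 2 * x 2 * x 6 * x 8
def hC {R : Type*} [CommRing R] (x : Fin 10 → R) : R :=
  -(dV x * x 3) + x 0 * x 9 ^ 2 - (x 4 + x 5) * x 9 * x 8 + x 2 * x 8 ^ 2

theorem det_eq {R : Type*} [CommRing R] (x : Fin 10 → R) :
    hB x ^ 2 - 4 * hA x * hC x = dV x * (SS x).det := by
  simp [SS, Matrix.det_succ_row_zero, Fin.sum_univ_succ, Fin.succAbove, hA, hB, hC, dV]
  ring

theorem rel_eq {R : Type*} [CommRing R] (x : Fin 10 → R) (u v w z : R) :
    4 * (bq (x 0) (-(x 4 + x 5)) (x 2) u v * bq (hA x) (hB x) (hC x) w z)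
      = (2 * x 0 * u * (-(x 7 * w) + x 9 * z)
          - (x 4 + x 5) * (u * (-(x 6 * w) + x 8 * z) + v * (-(x 7 * w) + x 9 * z))
          + 2 * x 2 * v * (-(x 6 * w) + x 8 * z)) ^ 2
        + dV x * (4 * bq (x 0) (-(x 4 + x 5)) (x 2) u v
            * (-(x 1 * w ^ 2) + (x 4 - x 5) * w * z - x 3 * z ^ 2)
          - (u * (-(x 6 * w) + x 8 * z) - v * (-(x 7 * w) + x 9 * z)) ^ 2) := by
  unfold bq hA hB hC dV
  ring

/-- a `4 × 4` matrix with two independent kernel vectors has adjugate zero. -/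
private theorem adj_zero {K : Type*} [Field K] (S : Matrix (Fin 4) (Fin 4) K) (n1 n2 : Fin 4 → K)
    {δ : K} (hδ : δ ≠ 0) (h1 : S *ᵥ n1 = 0) (h2 : S *ᵥ n2 = 0) (a1 : n1 2 = δ) (b1 : n1 3 = 0)
    (b2 : n2 3 = δ) : S.adjugate = 0 := by
  ext i j
  rw [Matrix.adjugate_apply, Matrix.zero_apply, ← Matrix.exists_mulVec_eq_zero_iff]
  obtain ⟨n, hn0, hn, hni⟩ : ∃ n : Fin 4 → K, n ≠ 0 ∧ S *ᵥ n = 0 ∧ n i = 0 := by
    by_cases hi : n1 i = 0
    · refine ⟨n1, ?_, h1, hi⟩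
      intro h
      rw [h] at a1
      exact hδ a1.symm
    · refine ⟨n1 i • n2 - n2 i • n1, ?_, ?_, ?_⟩
      · intro h
        have := congrFun h 3
        simp only [Pi.sub_apply, Pi.smul_apply, smul_eq_mul, b1, b2, mul_zero, sub_zero,
          Pi.zero_apply] at this
        exact mul_ne_zero hi hδ this
      · rw [Matrix.mulVec_sub, Matrix.mulVec_smul, Matrix.mulVec_smul, h1, h2]; simp
      · simp; ring
  refine ⟨n, hn0, ?_⟩
  ext k
  rw [Matrix.mulVec, Pi.zero_apply]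
  by_cases hk : k = j
  · subst hk
    rw [Matrix.updateRow_self]
    simp [hni]
  · rw [Matrix.updateRow_ne hk]
    exact congrFun hn k

/-- primitivity of `h'` away from `d`. -/
private theorem hprim_D {x : Fin 10 → ℤ} {p : ℕ} (hp : p.Prime) (hd : ¬ (p : ℤ) ∣ dV x)
    (hadj : ∃ i j, ¬ (p : ℤ) ∣ (SS x).adjugate i j) :
    ¬ ((p : ℤ) ∣ hA x ∧ (p : ℤ) ∣ hB x ∧ (p : ℤ) ∣ hC x) := by
  rintro ⟨hA0, hB0, hC0⟩
  have hpf : Fact p.Prime := ⟨hp⟩
  obtain ⟨i, j, hij⟩ := hadj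
  apply hij
  rw [← ZMod.intCast_zmod_eq_zero_iff_dvd] at hA0 hB0 hC0 ⊢
  rw [← ZMod.intCast_zmod_eq_zero_iff_dvd] at hd
  set y : Fin 10 → ZMod p := fun k => ((x k : ℤ) : ZMod p) with hy
  have eA : hA y = 0 := by rw [← hA0]; simp [hA, dV, hy]
  have eB : hB y = 0 := by rw [← hB0]; simp [hB, dV, hy]
  have eC : hC y = 0 := by rw [← hC0]; simp [hC, dV, hy]
  have ed : dV y ≠ 0 := by
    intro h
    apply hd
    rw [← h]; simp [dV, hy]
  have eS : (SS x).map (Int.castRingHom (ZMod p)) = SS y := by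
    ext a b
    fin_cases a <;> fin_cases b <;> simp [SS, hy]
  have eadj : (SS y).adjugate = ((SS x).adjugate).map (Int.castRingHom (ZMod p)) := by
    rw [← eS]
    exact ((Int.castRingHom (ZMod p)).map_adjugate (SS x)).symm
  have hz : (SS y).adjugate = 0 := by
    refine adj_zero (SS y)
      ![2 * y 2 * y 6 - (y 4 + y 5) * y 7, (y 4 + y 5) * y 6 - 2 * y 0 * y 7, dV y, 0]
      ![-(2 * y 2 * y 8) + (y 4 + y 5) * y 9, -((y 4 + y 5) * y 8) + 2 * y 0 * y 9, 0, dV y]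
      ed ?_ ?_ (by simp) (by simp) (by simp)
    · ext k
      fin_cases k
      · simp [SS, Matrix.mulVec, dotProduct, Fin.sum_univ_four, dV]; ring
      · simp [SS, Matrix.mulVec, dotProduct, Fin.sum_univ_four, dV]; ring
      · simp [SS, Matrix.mulVec, dotProduct, Fin.sum_univ_four]
        unfold hA at eA
        linear_combination 2 * eA
      · simp [SS, Matrix.mulVec, dotProduct, Fin.sum_univ_four]
        unfold hB at eB
        linear_combination eB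
    · ext k
      fin_cases k
      · simp [SS, Matrix.mulVec, dotProduct, Fin.sum_univ_four, dV]; ring
      · simp [SS, Matrix.mulVec, dotProduct, Fin.sum_univ_four, dV]; ring
      · simp [SS, Matrix.mulVec, dotProduct, Fin.sum_univ_four]
        unfold hB at eB
        linear_combination eB
      · simp [SS, Matrix.mulVec, dotProduct, Fin.sum_univ_four]
        unfold hC at eC
        linear_combination 2 * eC
  rw [eadj] at hz
  have := congrFun (congrFun hz i) j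
  simpa using this

/-- primitivity of `h'` at the primes dividing `d`. -/
private theorem hprim_d {x : Fin 10 → ℤ} {p : ℕ} (hp : p.Prime) (hp2 : p ≠ 2)
    (hd : (p : ℤ) ∣ dV x) (hD : ¬ (p : ℤ) ∣ (SS x).det)
    (hprim : ¬ ((p : ℤ) ∣ x 0 ∧ (p : ℤ) ∣ x 2 ∧ (p : ℤ) ∣ x 4 + x 5)) :
    ¬ ((p : ℤ) ∣ hA x ∧ (p : ℤ) ∣ hB x ∧ (p : ℤ) ∣ hC x) := by
  rintro ⟨hA0, -, hC0⟩
  have hpf : Fact p.Prime := ⟨hp⟩
  rw [← ZMod.intCast_zmod_eq_zero_iff_dvd] at hA0 hC0 hd hD
  rw [← ZMod.intCast_zmod_eq_zero_iff_dvd, ← ZMod.intCast_zmod_eq_zero_iff_dvd,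
    ← ZMod.intCast_zmod_eq_zero_iff_dvd] at hprim
  set y : Fin 10 → ZMod p := fun k => ((x k : ℤ) : ZMod p) with hy
  have eA : hA y = 0 := by rw [← hA0]; simp [hA, dV, hy]
  have eC : hC y = 0 := by rw [← hC0]; simp [hC, dV, hy]
  have ed : dV y = 0 := by rw [← hd]; simp [dV, hy]
  have eD : (SS y).det ≠ 0 := by
    have h1 : (SS x).map (Int.castRingHom (ZMod p)) = SS y := by
      ext a b
      fin_cases a <;> fin_cases b <;> simp [SS, hy]
    have h2 : (SS y).det = (((SS x).det : ℤ) : ZMod p) := by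
      rw [← h1]
      exact ((Int.castRingHom (ZMod p)).map_det (SS x)).symm
    rw [h2]; exact hD
  have h2 : (2 : ZMod p) ≠ 0 := by
    intro h0
    have h3 : ((2 : ℕ) : ZMod p) = 0 := by exact_mod_cast h0
    rw [ZMod.natCast_eq_zero_iff] at h3
    exact hp2 ((Nat.prime_dvd_prime_iff_eq Fact.out Nat.prime_two).mp h3)
  -- the four auxiliary minors
  have m2 : (2 * y 0 * (-(y 7)) + (y 4 + y 5) * y 6) = 0 := by
    have : (2 * y 0 * (-(y 7)) + (y 4 + y 5) * y 6) ^ 2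
        = 4 * y 0 * hA y + dV y * (4 * y 0 * y 1 + y 6 ^ 2) := by
      unfold hA dV; ring
    rw [eA, ed] at this
    exact pow_eq_zero_iff two_ne_zero |>.mp (by rw [this]; ring)
  have m3 : (2 * y 0 * y 9 - (y 4 + y 5) * y 8) = 0 := by
    have : (2 * y 0 * y 9 - (y 4 + y 5) * y 8) ^ 2
        = 4 * y 0 * hC y + dV y * (4 * y 0 * y 3 + y 8 ^ 2) := by
      unfold hC dV; ring
    rw [eC, ed] at this
    exact pow_eq_zero_iff two_ne_zero |>.mp (by rw [this]; ring)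
  have l2 : (2 * y 2 * y 6 - (y 4 + y 5) * y 7) = 0 := by
    have : (2 * y 2 * y 6 - (y 4 + y 5) * y 7) ^ 2
        = 4 * y 2 * hA y + dV y * (4 * y 2 * y 1 + y 7 ^ 2) := by
      unfold hA dV; ring
    rw [eA, ed] at this
    exact pow_eq_zero_iff two_ne_zero |>.mp (by rw [this]; ring)
  have l3 : (2 * y 2 * y 8 - (y 4 + y 5) * y 9) = 0 := by
    have : (2 * y 2 * y 8 - (y 4 + y 5) * y 9) ^ 2
        = 4 * y 2 * hC y + dV y * (4 * y 2 * y 3 + y 9 ^ 2) := by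
      unfold hC dV; ring
    rw [eC, ed] at this
    exact pow_eq_zero_iff two_ne_zero |>.mp (by rw [this]; ring)
  by_cases h0 : y 0 = 0 ∧ y 4 + y 5 = 0
  · -- then `y 2 ≠ 0`
    have hy2 : y 2 ≠ 0 := by
      intro h
      apply hprim
      refine ⟨h0.1, h, ?_⟩
      have := h0.2
      rw [← this]; simp [hy]
    -- kernel vector (1,0,0,0)?
    apply eD
    rw [← Matrix.exists_mulVec_eq_zero_iff]
    have e6 : y 6 = 0 := by
      have := l2
      rw [h0.2] at this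
      have h3 : 2 * y 2 * y 6 = 0 := by linear_combination this
      exact (mul_eq_zero.mp h3).resolve_left (mul_ne_zero h2 hy2)
    have e8 : y 8 = 0 := by
      have := l3
      rw [h0.2] at this
      have h3 : 2 * y 2 * y 8 = 0 := by linear_combination this
      exact (mul_eq_zero.mp h3).resolve_left (mul_ne_zero h2 hy2)
    refine ⟨![1, 0, 0, 0], fun h => one_ne_zero (congrFun h 0), ?_⟩
    ext k
    fin_cases k
    · simp [SS, Matrix.mulVec, dotProduct, Fin.sum_univ_four, h0.1]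
    · simp [SS, Matrix.mulVec, dotProduct, Fin.sum_univ_four]
      linear_combination -h0.2
    · simp [SS, Matrix.mulVec, dotProduct, Fin.sum_univ_four, e6]
    · simp [SS, Matrix.mulVec, dotProduct, Fin.sum_univ_four, e8]
  · apply eD
    rw [← Matrix.exists_mulVec_eq_zero_iff]
    refine ⟨![y 4 + y 5, 2 * y 0, 0, 0], ?_, ?_⟩
    · intro h
      apply h0
      have h3 := congrFun h 0
      have h4 := congrFun h 1
      simp at h3 h4
      exact ⟨h4.resolve_left h2, h3⟩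
    · ext k
      fin_cases k
      · simp [SS, Matrix.mulVec, dotProduct, Fin.sum_univ_four]; ring
      · simp [SS, Matrix.mulVec, dotProduct, Fin.sum_univ_four]
        unfold dV at ed
        linear_combination -ed
      · simp [SS, Matrix.mulVec, dotProduct, Fin.sum_univ_four]
        linear_combination m2
      · simp [SS, Matrix.mulVec, dotProduct, Fin.sum_univ_four]
        linear_combination m3

/-- **`S(x)` is isotropic**: `d_V > 0` odd, `D` odd, `gcd(d_V, D) = 1`, `rank_p S ≥ 3` for all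
odd `p`, the first block primitive. -/
theorem isotropic {x : Fin 10 → ℤ} (hd0 : 0 < dV x) (hd1 : ¬ 2 ∣ dV x)
    (hD1 : ¬ 2 ∣ (SS x).det) (hcop : IsCoprime (dV x) (SS x).det)
    (hadj : ∀ p : ℕ, p.Prime → p ≠ 2 → ∃ i j, ¬ (p : ℤ) ∣ (SS x).adjugate i j)
    (hprim : ∀ p : ℕ, p.Prime → p ≠ 2 →
      ¬ ((p : ℤ) ∣ x 0 ∧ (p : ℤ) ∣ x 2 ∧ (p : ℤ) ∣ x 4 + x 5)) :
    ∃ mu : Fin 4 → ℤ, mu ≠ 0 ∧ mu ⬝ᵥ (SS x *ᵥ mu) = 0 := by
  have hdD : hB x ^ 2 - 4 * hA x * hC x = dV x * (SS x).det := det_eq x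
  have hd : (-(x 4 + x 5)) ^ 2 - 4 * x 0 * x 2 = dV x := by unfold dV; ring
  obtain ⟨r, s, r', s', t, ht, h1, h2⟩ := two_forms hd hdD hd0 hd1 hD1 (by
    intro p hp hpd h
    by_cases hp2 : p = 2
    · subst hp2; exact hd1 hpd
    · exact hprim p hp hp2 ⟨h.1, h.2.2, (dvd_neg.mp h.2.1)⟩) (by
    intro p hp hpd
    have hpp := Nat.prime_iff_prime_int.mp hp
    have hp2 : p ≠ 2 := by
      rintro rfl
      exact (hpp.dvd_or_dvd hpd).elim hd1 hD1
    by_cases hpd' : (p : ℤ) ∣ dV x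
    · refine hprim_d hp hp2 hpd' (fun h => ?_) (hprim p hp hp2)
      exact hpp.not_isUnit (hcop.isUnit_of_dvd' hpd' h)
    · exact hprim_D hp hpd' (hadj p hp hp2))
    (fun u v w z => ⟨_, _, rel_eq x u v w z⟩)
  -- the rational vector
  set X : Fin 10 → ℚ := fun k => ((x k : ℤ) : ℚ) with hX
  set y0 : ℚ := X 6 * r' - X 8 * s' with hy0
  set y1 : ℚ := -(X 7 * r') + X 9 * s' with hy1
  set μ : Fin 4 → ℚ := ![-((X 4 + X 5) * r) + 2 * X 2 * s + 2 * X 2 * y0 + (X 4 + X 5) * y1,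
    -(2 * X 0 * r) + (X 4 + X 5) * s + (X 4 + X 5) * y0 + 2 * X 0 * y1,
    dV X * r', dV X * s'] with hμ
  have hdX : dV X = ((dV x : ℤ) : ℚ) := by simp [dV, hX]
  have hμ0 : μ ≠ 0 := by
    intro h
    have hdne : dV X ≠ 0 := by rw [hdX]; exact_mod_cast hd0.ne'
    have e2 := congrFun h 2
    have e3 := congrFun h 3
    simp only [hμ, Matrix.cons_val, Pi.zero_apply] at e2 e3
    have f2 := (mul_eq_zero.mp e2).resolve_left hdne
    have f3 := (mul_eq_zero.mp e3).resolve_left hdne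
    rw [f2, f3] at h2
    apply ht
    rw [← h2]
    unfold bq
    ring
  have eq0 : bq (X 0) (-(X 4 + X 5)) (X 2) r s = t := by
    rw [← h1]; simp [hX, bq]
  have eq1 : bq (hA X) (hB X) (hC X) r' s' = t := by
    rw [← h2]; simp [hX, bq, hA, hB, hC, dV]
  have hq : μ ⬝ᵥ (SS X *ᵥ μ) = 0 := by
    rw [quad_eq]
    have e : bq (X 0) (-(X 4 + X 5)) (X 2) r s - bq (hA X) (hB X) (hC X) r' s' = 0 := by
      rw [eq0, eq1]; ring
    simp only [hμ, Matrix.cons_val, hy0, hy1]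
    unfold bq hA hB hC at e
    unfold dV at e ⊢
    linear_combination (-2 * ((X 4 + X 5) ^ 2 - 4 * X 0 * X 2)) * e
  -- clearing denominators
  classical
  set ν : Fin 4 → ℤ := fun i => (μ i).num * ∏ j ∈ Finset.univ.erase i, ((μ j).den : ℤ) with hν
  set P : ℚ := ∏ j : Fin 4, ((μ j).den : ℚ) with hP
  have hνμ : ∀ i, ((ν i : ℤ) : ℚ) = P * μ i := by
    intro i
    have e1 : P = ((μ i).den : ℚ) * ∏ j ∈ Finset.univ.erase i, ((μ j).den : ℚ) :=
      (Finset.mul_prod_erase _ _ (Finset.mem_univ i)).symm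
    rw [e1, hν]
    push_cast
    rw [← Rat.mul_den_eq_num (μ i)]
    ring
  have hP0 : P ≠ 0 := by
    rw [hP]
    exact Finset.prod_ne_zero_iff.mpr (fun j _ => by exact_mod_cast (μ j).den_nz)
  refine ⟨ν, ?_, ?_⟩
  · intro h
    apply hμ0
    ext i
    have := hνμ i
    rw [h] at this
    simp only [Pi.zero_apply, Int.cast_zero] at this
    exact (mul_eq_zero.mp this.symm).resolve_left hP0
  · have e1 : (((ν ⬝ᵥ (SS x *ᵥ ν) : ℤ)) : ℚ) = P ^ 2 * (μ ⬝ᵥ (SS X *ᵥ μ)) := by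
      rw [quad_eq, quad_eq]
      push_cast
      rw [hνμ 0, hνμ 1, hνμ 2, hνμ 3]
      simp only [hX]
      ring
    rw [hq, mul_zero] at e1
    exact_mod_cast e1

end Pool.Agent.PP5LC
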