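import Pool.Agent.PP5LC.TrG

/-!
# PP5LC, the transfer (T6): `L = H + T`
-/

namespace Pool.Agent.PP5LC

open Matrix Module

/-- the Gram matrix of `H + T` -/
def HT (A B C : ℤ) : Matrix (Fin 4) (Fin 4) ℤ :=
  !![0, 1, 0, 0; 1, 0, 0, 0; 0, 0, 2 * A, B; 0, 0, B, 2 * C]

theorem det_HT (A B C : ℤ) : (HT A B C).det = B ^ 2 - 4 * A * C := by
  simp [HT, Matrix.det_succ_row_zero, Fin.sum_univ_succ, Fin.succAbove]
  ring

/-- the matrix with columns `v0, w0, p1, p2` -/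
def Uc (v0 w0 p1 p2 : Fin 4 → ℤ) : Matrix (Fin 4) (Fin 4) ℤ :=
  Matrix.of fun i j => (![v0, w0, p1, p2] : Fin 4 → Fin 4 → ℤ) j i

theorem Uc_gram (G : Matrix (Fin 4) (Fin 4) ℤ) (v0 w0 p1 p2 : Fin 4 → ℤ) (i j : Fin 4) :
    ((Uc v0 w0 p1 p2)ᵀ * G * Uc v0 w0 p1 p2) i j =
      (![v0, w0, p1, p2] : Fin 4 → Fin 4 → ℤ) i ⬝ᵥ
        (G *ᵥ (![v0, w0, p1, p2] : Fin 4 → Fin 4 → ℤ) j) := by
  rw [Matrix.mul_assoc, Matrix.mul_apply]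
  rfl

theorem gram_HT {G : Matrix (Fin 4) (Fin 4) ℤ} (hsym : Gᵀ = G) {v0 w0 p1 p2 : Fin 4 → ℤ}
    {A B C : ℤ} (h00 : v0 ⬝ᵥ (G *ᵥ v0) = 0) (h10 : w0 ⬝ᵥ (G *ᵥ v0) = 1)
    (h11 : w0 ⬝ᵥ (G *ᵥ w0) = 0) (a0 : p1 ⬝ᵥ (G *ᵥ v0) = 0) (a1 : p1 ⬝ᵥ (G *ᵥ w0) = 0)
    (b0 : p2 ⬝ᵥ (G *ᵥ v0) = 0) (b1 : p2 ⬝ᵥ (G *ᵥ w0) = 0) (hA : p1 ⬝ᵥ (G *ᵥ p1) = 2 * A)
    (hB : p1 ⬝ᵥ (G *ᵥ p2) = B) (hC : p2 ⬝ᵥ (G *ᵥ p2) = 2 * C) :
    (Uc v0 w0 p1 p2)ᵀ * G * Uc v0 w0 p1 p2 = HT A B C := by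
  have h01 : v0 ⬝ᵥ (G *ᵥ w0) = 1 := by rw [dot_symm hsym]; exact h10
  have a0' : v0 ⬝ᵥ (G *ᵥ p1) = 0 := by rw [dot_symm hsym]; exact a0
  have a1' : w0 ⬝ᵥ (G *ᵥ p1) = 0 := by rw [dot_symm hsym]; exact a1
  have b0' : v0 ⬝ᵥ (G *ᵥ p2) = 0 := by rw [dot_symm hsym]; exact b0
  have b1' : w0 ⬝ᵥ (G *ᵥ p2) = 0 := by rw [dot_symm hsym]; exact b1
  have hB' : p2 ⬝ᵥ (G *ᵥ p1) = B := by rw [dot_symm hsym]; exact hB
  ext i j
  rw [Uc_gram]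
  fin_cases i <;> fin_cases j
  · exact h00
  · exact h01
  · exact a0'
  · exact b0'
  · exact h10
  · exact h11
  · exact a1'
  · exact b1'
  · exact a0
  · exact a1
  · exact hA
  · exact hB
  · exact b0
  · exact b1
  · exact hB'
  · exact hC

/-- (T6) the decomposition, `det U = 1` -/
theorem exists_HT {G : Matrix (Fin 4) (Fin 4) ℤ} (hsym : Gᵀ = G) (hev : ∀ i, 2 ∣ G i i)
    {v0 w : Fin 4 → ℤ} (hz : v0 ⬝ᵥ (G *ᵥ v0) = 0) (hw : w ⬝ᵥ (G *ᵥ v0) = 1) :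
    ∃ (w0 p1 p2 : Fin 4 → ℤ) (A B C : ℤ), (Uc v0 w0 p1 p2).det = 1 ∧
      (Uc v0 w0 p1 p2)ᵀ * G * Uc v0 w0 p1 p2 = HT A B C ∧ B ^ 2 - 4 * A * C = G.det := by
  obtain ⟨q, hq⟩ := even_quad hsym hev w
  set w0 : Fin 4 → ℤ := w - q • v0 with hw0
  have h10 : w0 ⬝ᵥ (G *ᵥ v0) = 1 := by
    rw [hw0, sub_dotProduct, smul_dotProduct, hz, hw]; simp
  have h01 : v0 ⬝ᵥ (G *ᵥ w0) = 1 := by rw [dot_symm hsym, h10]
  have h11 : w0 ⬝ᵥ (G *ᵥ w0) = 0 := by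
    have h2 : w0 ⬝ᵥ (G *ᵥ w0) = w ⬝ᵥ (G *ᵥ w0) - q * (v0 ⬝ᵥ (G *ᵥ w0)) := by
      conv_lhs => rw [hw0, sub_dotProduct, smul_dotProduct, smul_eq_mul]
    have h3 : w ⬝ᵥ (G *ᵥ w0) = w ⬝ᵥ (G *ᵥ w) - q * (w ⬝ᵥ (G *ᵥ v0)) := by
      rw [hw0, Matrix.mulVec_sub, Matrix.mulVec_smul, dotProduct_sub, dotProduct_smul, smul_eq_mul]
    rw [h2, h3, h01, hw, hq]; ring
  -- the orthogonal complement
  set f : (Fin 4 → ℤ) →ₗ[ℤ] (Fin 2 → ℤ) :=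
    { toFun := fun z => ![z ⬝ᵥ (G *ᵥ w0), z ⬝ᵥ (G *ᵥ v0)]
      map_add' := fun a b => by
        funext i; fin_cases i <;> simp [add_dotProduct]
      map_smul' := fun c a => by
        funext i; fin_cases i
        · exact smul_dotProduct c a _
        · exact smul_dotProduct c a _ } with hf
  have hf0 : ∀ z, f z 0 = z ⬝ᵥ (G *ᵥ w0) := fun z => rfl
  have hf1 : ∀ z, f z 1 = z ⬝ᵥ (G *ᵥ v0) := fun z => rfl
  have hfs : LinearMap.range f = ⊤ := by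
    rw [LinearMap.range_eq_top]
    intro y
    refine ⟨y 0 • v0 + y 1 • w0, ?_⟩
    funext i
    fin_cases i
    · show f _ 0 = y 0
      rw [hf0, add_dotProduct, smul_dotProduct, smul_dotProduct, h01, h11]; simp
    · show f _ 1 = y 1
      rw [hf1, add_dotProduct, smul_dotProduct, smul_dotProduct, hz, h10]; simp
  have hfr : finrank ℤ (LinearMap.ker f) = 2 := by
    have h := PP5L.rank_nullity_gen f
    rw [hfs, finrank_top] at h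
    have h4 : finrank ℤ (Fin 4 → ℤ) = 4 := by simp
    have h2 : finrank ℤ (Fin 2 → ℤ) = 2 := by simp
    omega
  let bP : Basis (Fin 2) ℤ (LinearMap.ker f) := Module.finBasisOfFinrankEq ℤ _ hfr
  set p1 : Fin 4 → ℤ := (bP 0 : Fin 4 → ℤ) with hp1
  set p2 : Fin 4 → ℤ := (bP 1 : Fin 4 → ℤ) with hp2
  have hk : ∀ (z : LinearMap.ker f), (z : Fin 4 → ℤ) ⬝ᵥ (G *ᵥ w0) = 0 ∧
      (z : Fin 4 → ℤ) ⬝ᵥ (G *ᵥ v0) = 0 := by
    intro z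
    have h := LinearMap.mem_ker.1 z.2
    exact ⟨congrFun h 0, congrFun h 1⟩
  have hspan : ∀ z : Fin 4 → ℤ, ∃ c : Fin 4 → ℤ,
      z = c 0 • v0 + c 1 • w0 + c 2 • p1 + c 3 • p2 := by
    intro z
    set z' : Fin 4 → ℤ := z - (z ⬝ᵥ (G *ᵥ w0)) • v0 - (z ⬝ᵥ (G *ᵥ v0)) • w0 with hz'
    have hzk : z' ∈ LinearMap.ker f := by
      rw [LinearMap.mem_ker]
      funext i
      fin_cases i
      · show f _ 0 = 0
        rw [hf0, hz', sub_dotProduct, sub_dotProduct, smul_dotProduct, smul_dotProduct, h01, h11]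
        simp
      · show f _ 1 = 0
        rw [hf1, hz', sub_dotProduct, sub_dotProduct, smul_dotProduct, smul_dotProduct, hz, h10]
        simp
    have hrep := bP.sum_repr ⟨z', hzk⟩
    have hrep2 := congrArg (Subtype.val) hrep
    rw [Fin.sum_univ_two] at hrep2
    simp only [Submodule.coe_add, SetLike.val_smul] at hrep2
    refine ⟨![z ⬝ᵥ (G *ᵥ w0), z ⬝ᵥ (G *ᵥ v0), bP.repr ⟨z', hzk⟩ 0, bP.repr ⟨z', hzk⟩ 1], ?_⟩
    have e : z = (z ⬝ᵥ (G *ᵥ w0)) • v0 + (z ⬝ᵥ (G *ᵥ v0)) • w0 + z' := by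
      rw [hz']; abel
    conv_lhs => rw [e, ← hrep2]
    simp only [Matrix.cons_val_zero, Matrix.cons_val_one, Matrix.cons_val]
    abel
  have hunit : IsUnit (Uc v0 w0 p1 p2).det := by
    choose c hc using fun j : Fin 4 => hspan (Pi.single j 1)
    have hUV : Uc v0 w0 p1 p2 * (Matrix.of fun i j => c j i) = 1 := by
      ext i j
      rw [Matrix.mul_apply, Fin.sum_univ_four]
      have h := congrFun (hc j) i
      simp only [Pi.add_apply, Pi.smul_apply, smul_eq_mul] at h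
      simp only [Uc, Matrix.of_apply, Matrix.cons_val_zero, Matrix.cons_val_one, Matrix.cons_val]
      rw [Matrix.one_apply, ← Pi.single_apply j (1 : ℤ) i] at *
      rw [h]; ring
    have h2 := congrArg Matrix.det hUV
    rw [Matrix.det_mul, Matrix.det_one] at h2
    exact IsUnit.of_mul_eq_one _ h2
  have hgen : ∀ (s : ℤ), s * s = 1 → ∃ A B C : ℤ,
      (Uc v0 w0 (s • p1) p2)ᵀ * G * Uc v0 w0 (s • p1) p2 = HT A B C := by
    intro s hs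
    obtain ⟨A, hA⟩ := even_quad hsym hev p1
    obtain ⟨C, hC⟩ := even_quad hsym hev p2
    refine ⟨A, s * (p1 ⬝ᵥ (G *ᵥ p2)), C, ?_⟩
    have k1 := hk (bP 0)
    have k2 := hk (bP 1)
    rw [← hp1] at k1
    rw [← hp2] at k2
    refine gram_HT hsym hz h10 h11 ?_ ?_ k2.2 k2.1 ?_ ?_ hC
    · rw [smul_dotProduct, k1.2, smul_zero]
    · rw [smul_dotProduct, k1.1, smul_zero]
    · rw [Matrix.mulVec_smul, smul_dotProduct, dotProduct_smul, hA, smul_eq_mul, smul_eq_mul,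
        ← mul_assoc, hs, one_mul]
    · rw [smul_dotProduct, smul_eq_mul]
  have hdets : ∀ s : ℤ, (Uc v0 w0 (s • p1) p2).det = s * (Uc v0 w0 p1 p2).det := by
    intro s
    have e : Uc v0 w0 (s • p1) p2 = (Uc v0 w0 p1 p2).updateCol 2 (s • p1) := by
      ext i j
      fin_cases j <;> simp [Uc, Matrix.updateCol_apply]
    have e2 : (Uc v0 w0 p1 p2).updateCol 2 p1 = Uc v0 w0 p1 p2 := by
      ext i j
      fin_cases j <;> simp [Uc, Matrix.updateCol_apply]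
    rw [e, Matrix.det_updateCol_smul, e2]
  obtain ⟨s, hs, hsd⟩ : ∃ s : ℤ, s * s = 1 ∧ s * (Uc v0 w0 p1 p2).det = 1 := by
    rcases Int.isUnit_iff.1 hunit with h | h
    · exact ⟨1, by norm_num, by rw [h]; norm_num⟩
    · exact ⟨-1, by norm_num, by rw [h]; norm_num⟩
  obtain ⟨A, B, C, hABC⟩ := hgen s hs
  have hd1 : (Uc v0 w0 (s • p1) p2).det = 1 := by rw [hdets, hsd]
  refine ⟨w0, s • p1, p2, A, B, C, hd1, hABC, ?_⟩
  have h := congrArg Matrix.det hABC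
  rw [Matrix.det_mul, Matrix.det_mul, Matrix.det_transpose, hd1, det_HT] at h
  linarith

end Pool.Agent.PP5LC
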