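import Pool.Agent.PP5LC.TrD
import Pool.Agent.PP5LC.TrH

/-!
# PP5LC, the transfer (T6b): `T` is primitive and `A` may be taken prime to `N`
-/

namespace Pool.Agent.PP5LC

open Matrix Module

theorem adj_HT (A B C : ℤ) : (HT A B C).adjugate =
    !![0, B ^ 2 - 4 * A * C, 0, 0; B ^ 2 - 4 * A * C, 0, 0, 0; 0, 0, -(2 * C), B;
      0, 0, B, -(2 * A)] := by
  ext i j
  rw [Matrix.adjugate_fin_succ_eq_det_submatrix, det3]
  fin_cases i <;> fin_cases j <;> simp [HT, Fin.succAbove] <;> ring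

/-- `T` is primitive -/
theorem prim_T {G U : Matrix (Fin 4) (Fin 4) ℤ} {A B C : ℤ} (hU : U.det = 1)
    (hHT : Uᵀ * G * U = HT A B C) {p : ℕ} (hadj : ∃ i j, ¬ (p : ℤ) ∣ G.adjugate i j) :
    ¬ ((p : ℤ) ∣ A ∧ (p : ℤ) ∣ B ∧ (p : ℤ) ∣ C) := by
  rintro ⟨hA, hB, hC⟩
  obtain ⟨i, j, hij⟩ := hadj
  apply hij
  have h1 : G.adjugate = U * (HT A B C).adjugate * Uᵀ := by
    rw [← hHT, Matrix.adjugate_mul_distrib, Matrix.adjugate_mul_distrib]
    have h2 : U * U.adjugate = 1 := by rw [Matrix.mul_adjugate, hU, one_smul]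
    have h3 : Uᵀ.adjugate * Uᵀ = 1 := by
      rw [Matrix.adjugate_mul, Matrix.det_transpose, hU, one_smul]
    calc G.adjugate = 1 * G.adjugate * 1 := by rw [Matrix.one_mul, Matrix.mul_one]
      _ = (U * U.adjugate) * G.adjugate * (Uᵀ.adjugate * Uᵀ) := by rw [h2, h3]
      _ = _ := by simp only [Matrix.mul_assoc]
  have h4 : ∀ a b, (p : ℤ) ∣ (HT A B C).adjugate a b := by
    intro a b
    rw [adj_HT]
    have hD : (p : ℤ) ∣ B ^ 2 - 4 * A * C :=
      dvd_sub (dvd_pow hB two_ne_zero) (Dvd.dvd.mul_left hC _)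
    fin_cases a <;> fin_cases b <;>
      simp [hD, hB, dvd_neg, Dvd.dvd.mul_left hC, Dvd.dvd.mul_left hA]
  rw [h1, Matrix.mul_apply]
  refine Finset.dvd_sum fun k _ => Dvd.dvd.mul_right ?_ _
  rw [Matrix.mul_apply]
  exact Finset.dvd_sum fun l _ => Dvd.dvd.mul_left (h4 l k) _

/-- a primitive binary form represents primitively a number prime to `N` -/
theorem cop {A B C N : ℤ} (hN : N ≠ 0)
    (hp : ∀ p : ℕ, p.Prime → ¬ ((p : ℤ) ∣ A ∧ (p : ℤ) ∣ B ∧ (p : ℤ) ∣ C)) :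
    ∃ x y r s : ℤ, x * s - y * r = 1 ∧ IsCoprime (A * x ^ 2 + B * x * y + C * y ^ 2) N := by
  classical
  set P : Finset ℕ := N.natAbs.primeFactors with hP
  set X : Finset ℕ := P.filter (fun p => (p : ℤ) ∣ A ∧ ¬ (p : ℤ) ∣ C) with hX
  set Y : Finset ℕ := P.filter (fun p => ¬ (p : ℤ) ∣ A) with hY
  have hPp : ∀ p ∈ P, p.Prime := fun p h => Nat.prime_of_mem_primeFactors h
  have hdv : ∀ (Z : Finset ℕ), (∀ q ∈ Z, q.Prime) → ∀ p : ℕ, p.Prime →
      ((p : ℤ) ∣ ((∏ q ∈ Z, q : ℕ) : ℤ) ↔ p ∈ Z) := by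
    intro Z hZ p hp
    rw [Int.natCast_dvd_natCast]
    constructor
    · intro h
      obtain ⟨q, hq, hpq⟩ := (Nat.Prime.prime hp).exists_mem_finset_dvd h
      rw [(Nat.prime_dvd_prime_iff_eq hp (hZ q hq)).1 hpq]; exact hq
    · intro h
      exact Finset.dvd_prod_of_mem _ h
  have hXp : ∀ q ∈ X, q.Prime := fun q h => hPp q (Finset.mem_filter.1 h).1
  have hYp : ∀ q ∈ Y, q.Prime := fun q h => hPp q (Finset.mem_filter.1 h).1
  set x : ℤ := ((∏ q ∈ X, q : ℕ) : ℤ) with hx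
  set y : ℤ := ((∏ q ∈ Y, q : ℕ) : ℤ) with hy
  have hxy : IsCoprime x y := by
    rw [hx, hy, Nat.isCoprime_iff_coprime]
    apply Nat.Coprime.prod_left
    intro a ha
    apply Nat.Coprime.prod_right
    intro b hb
    rw [Nat.coprime_primes (hXp a ha) (hYp b hb)]
    rintro rfl
    exact (Finset.mem_filter.1 hb).2 (Finset.mem_filter.1 ha).2.1
  obtain ⟨a, b, hab⟩ := hxy
  refine ⟨x, y, -b, a, by linear_combination hab, ?_⟩
  rw [Int.isCoprime_iff_gcd_eq_one, Int.gcd_eq_natAbs]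
  apply Nat.Coprime.symm
  apply Nat.coprime_of_dvd
  intro p hpp h1 h2
  have hpN : p ∈ P := Nat.mem_primeFactors.2 ⟨hpp, h1, Int.natAbs_ne_zero.2 hN⟩
  have hpF : (p : ℤ) ∣ A * x ^ 2 + B * x * y + C * y ^ 2 := Int.natCast_dvd.2 h2
  have hpr : Prime (p : ℤ) := Nat.prime_iff_prime_int.1 hpp
  by_cases hA : (p : ℤ) ∣ A
  · have hpy : ¬ (p : ℤ) ∣ y := by
      rw [hy, hdv Y hYp p hpp]
      intro h
      exact (Finset.mem_filter.1 h).2 hA
    by_cases hC : (p : ℤ) ∣ C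
    · have hB : ¬ (p : ℤ) ∣ B := fun h => hp p hpp ⟨hA, h, hC⟩
      have hpx : ¬ (p : ℤ) ∣ x := by
        rw [hx, hdv X hXp p hpp]
        intro h
        exact (Finset.mem_filter.1 h).2.2 hC
      have h3 : (p : ℤ) ∣ B * x * y := by
        have e : B * x * y = (A * x ^ 2 + B * x * y + C * y ^ 2) - A * x ^ 2 - C * y ^ 2 := by ring
        rw [e]
        exact dvd_sub (dvd_sub hpF (Dvd.dvd.mul_right hA _)) (Dvd.dvd.mul_right hC _)
      rcases hpr.dvd_or_dvd h3 with h4 | h4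
      · rcases hpr.dvd_or_dvd h4 with h5 | h5
        · exact hB h5
        · exact hpx h5
      · exact hpy h4
    · have hpx : (p : ℤ) ∣ x := by
        rw [hx, hdv X hXp p hpp]
        exact Finset.mem_filter.2 ⟨hpN, hA, hC⟩
      have h3 : (p : ℤ) ∣ C * y ^ 2 := by
        have e : C * y ^ 2 = (A * x ^ 2 + B * x * y + C * y ^ 2) - x * (A * x + B * y) := by ring
        rw [e]
        exact dvd_sub hpF (Dvd.dvd.mul_right hpx _)
      rcases hpr.dvd_or_dvd h3 with h4 | h4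
      · exact hC h4
      · exact hpy (hpr.dvd_of_dvd_pow h4)
  · have hpy : (p : ℤ) ∣ y := by
      rw [hy, hdv Y hYp p hpp]
      exact Finset.mem_filter.2 ⟨hpN, hA⟩
    have hpx : ¬ (p : ℤ) ∣ x := by
      rw [hx, hdv X hXp p hpp]
      intro h
      exact hA (Finset.mem_filter.1 h).2.1
    have h3 : (p : ℤ) ∣ A * x ^ 2 := by
      have e : A * x ^ 2 = (A * x ^ 2 + B * x * y + C * y ^ 2) - y * (B * x + C * y) := by ring
      rw [e]
      exact dvd_sub hpF (Dvd.dvd.mul_right hpy _)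
    rcases hpr.dvd_or_dvd h3 with h4 | h4
    · exact hA h4
    · exact hpx (hpr.dvd_of_dvd_pow h4)

/-- change of basis in `T` -/
theorem HT_change (A B C x y r s : ℤ) :
    (!![1, 0, 0, 0; 0, 1, 0, 0; 0, 0, x, r; 0, 0, y, s] : Matrix (Fin 4) (Fin 4) ℤ)ᵀ *
      HT A B C * !![1, 0, 0, 0; 0, 1, 0, 0; 0, 0, x, r; 0, 0, y, s] =
    HT (A * x ^ 2 + B * x * y + C * y ^ 2)
      (2 * A * x * r + B * (x * s + y * r) + 2 * C * y * s) (A * r ^ 2 + B * r * s + C * s ^ 2) := by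
  ext i j
  fin_cases i <;> fin_cases j <;>
    simp [HT, Matrix.mul_apply, Fin.sum_univ_four] <;> ring

theorem exists_HT_cop {G U : Matrix (Fin 4) (Fin 4) ℤ} {A B C N : ℤ} (hN : N ≠ 0)
    (hU : U.det = 1) (hHT : Uᵀ * G * U = HT A B C)
    (hadj : ∀ p : ℕ, p.Prime → ∃ i j, ¬ (p : ℤ) ∣ G.adjugate i j) :
    ∃ (U' : Matrix (Fin 4) (Fin 4) ℤ) (A' B' C' : ℤ), U'.det = 1 ∧ U'ᵀ * G * U' = HT A' B' C' ∧
      B' ^ 2 - 4 * A' * C' = B ^ 2 - 4 * A * C ∧ IsCoprime A' N ∧ ∀ i, U' i 0 = U i 0 := by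
  obtain ⟨x, y, r, s, h1, h2⟩ := cop hN (fun p hp => prim_T hU hHT (hadj p hp))
  set M : Matrix (Fin 4) (Fin 4) ℤ := !![1, 0, 0, 0; 0, 1, 0, 0; 0, 0, x, r; 0, 0, y, s] with hM
  have hMd : M.det = 1 := by
    have : M.det = x * s - y * r := by
      rw [hM]
      simp [Matrix.det_succ_row_zero, Fin.sum_univ_succ, Fin.succAbove]
      ring
    rw [this, h1]
  refine ⟨U * M, A * x ^ 2 + B * x * y + C * y ^ 2,
    2 * A * x * r + B * (x * s + y * r) + 2 * C * y * s, A * r ^ 2 + B * r * s + C * s ^ 2,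
    ?_, ?_, ?_, h2, ?_⟩
  · rw [Matrix.det_mul, hU, hMd, one_mul]
  · rw [← HT_change, ← hM, ← hHT, Matrix.transpose_mul]
    simp only [Matrix.mul_assoc]
  · linear_combination (B ^ 2 - 4 * A * C) * (x * s - y * r + 1) * h1
  · intro i
    rw [Matrix.mul_apply, Fin.sum_univ_four]
    simp [hM]

end Pool.Agent.PP5LC
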