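import Pool.Agent.PP5LC.TrE
import Pool.Agent.PP5LC.TrI

/-!
# PP5LC: the transfer theorem
-/

namespace Pool.Agent.PP5LC

open Pool.Agent.PP5L Matrix Module

/-- coordinates: `b_x` of two elements of `L_x` -/
theorem bx_coord {x x' : Fin 10 → ℤ} (b : Basis (Fin 4) ℤ (Lx x)) (G : Matrix (Fin 4) (Fin 4) ℤ)
    (hG : ∀ i j, G i j = bx x' (b i) (b j)) (n m : Fin 4 → ℤ) :
    bx x' (∑ i, n i • (b i : Fin 16 → ℤ)) (∑ i, m i • (b i : Fin 16 → ℤ)) = n ⬝ᵥ (G *ᵥ m) := by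
  rw [bx_sum_left]
  simp only [dotProduct, mulVec]
  refine Finset.sum_congr rfl fun i _ => ?_
  congr 1
  rw [bx_symm, bx_sum_left]
  refine Finset.sum_congr rfl fun j _ => ?_
  rw [bx_symm, ← hG, mul_comm]

/-- MAIN THEOREM of section C2: an isotropic vector of `S(x)` gives `L_x = H + T` -/
theorem transfer {x : Fin 10 → ℤ} (hF : FF x = 0)
    (hp : ∀ p : ℕ, p.Prime → ∃ j, ¬ (p : ℤ) ∣ x j) (hodd : ¬ 2 ∣ (SS x).det)
    (hadj : ∀ p : ℕ, p.Prime → ∃ i j, ¬ (p : ℤ) ∣ (SS x).adjugate i j)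
    {mu : Fin 4 → ℤ} (hmu : mu ≠ 0) (hz : mu ⬝ᵥ ((SS x) *ᵥ mu) = 0)
    (b : Basis (Fin 4) ℤ (Lx x)) (G : Matrix (Fin 4) (Fin 4) ℤ)
    (hG : ∀ i k j, Bd (b i : Fin 16 → ℤ) (b k) j = G i k * x j) (N : ℤ) (hN : N ≠ 0) :
    G.det = (SS x).det ∧ ∃ (U : Matrix (Fin 4) (Fin 4) ℤ) (A B C : ℤ), U.det = 1 ∧
      Uᵀ * G * U = !![0, 1, 0, 0; 1, 0, 0, 0; 0, 0, 2 * A, B; 0, 0, B, 2 * C] ∧
      B ^ 2 - 4 * A * C = (SS x).det ∧ IsCoprime A N := by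
  obtain ⟨x', h1⟩ := exists_partner hp
  have hD : (SS x).det ≠ 0 := by
    intro h; rw [h] at hodd; exact hodd (dvd_zero _)
  obtain ⟨j, hj⟩ := exists_coord_ne h1
  have hGe : ∀ i k, G i k = bx x' (b i) (b k) := by
    intro i k
    have h2 := hG i k j
    rw [Bd_Kx hF h1 (Lx_le_Kx x (b i).2) (Lx_le_Kx x (b k).2) j] at h2
    exact (mul_right_cancel₀ hj h2).symm
  obtain ⟨hs, hev, -, -, -, hcont⟩ := Lx_facts hF hp hD b G hG
  have hsym : Gᵀ = G := by ext i k; exact hs k i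
  have hdet := gdet_eq hF h1 hodd hadj b G hGe
  have hadjG : ∀ p : ℕ, p.Prime → ∃ i j, ¬ (p : ℤ) ∣ G.adjugate i j := by
    intro p hpp
    by_contra hcon
    push Not at hcon
    obtain ⟨i, k, hik⟩ := hadj p hpp
    exact hik (hcont p hcon i k)
  have hoddG : ¬ 2 ∣ G.det := by rw [hdet]; exact hodd
  refine ⟨hdet, ?_⟩
  -- an isotropic vector
  obtain ⟨v, hvL, hv0, hvq⟩ := zero_of_mu hF h1 hD hmu hz
  set n : Fin 4 → ℤ := fun i => b.repr ⟨v, hvL⟩ i with hn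
  have hrep : v = ∑ i, n i • (b i : Fin 16 → ℤ) := by
    have h := congrArg (Subtype.val) (b.sum_repr ⟨v, hvL⟩)
    simp only [AddSubmonoidClass.coe_finsetSum, SetLike.val_smul] at h
    exact h.symm
  have hn0 : n ≠ 0 := by
    intro h
    apply hv0
    rw [hrep, h]
    simp
  have hnz : n ⬝ᵥ (G *ᵥ n) = 0 := by
    rw [← bx_coord b G hGe, ← hrep, hvq]
  obtain ⟨v0, w, hv0z, hw⟩ := exists_good_zero hsym hev hoddG hadjG hn0 hnz
  obtain ⟨w0, p1, p2, A, B, C, hU, hHT, hABC⟩ := exists_HT hsym hev hv0z hw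
  obtain ⟨U', A', B', C', hU', hHT', hABC', hcop, -⟩ := exists_HT_cop hN hU hHT hadjG
  refine ⟨U', A', B', C', hU', hHT', ?_, hcop⟩
  rw [hABC', hABC, hdet]

end Pool.Agent.PP5LC
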