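import Pool.Agent.LB.Defs
import Pool.Agent.PP5LC.TrK
import Pool.Agent.PP5LC.Lg7

/-!
# PP5LC: section C of LB5, `StC`
-/

namespace Pool.Agent.PP5LC

open Matrix Finset

theorem SS_add (x y : Fin 10 → ℤ) : PP5L.SS (x + y) = PP5L.SS x + PP5L.SS y := by
  ext i j
  fin_cases i <;> fin_cases j <;> simp [PP5L.SS] <;> ring

/-- `dV` and `DD` only depend on `x` modulo `W` -/
theorem dV_mod {W : ℤ} {x x0 : Fin 10 → ℤ} (h : ∀ i, W ∣ x i - x0 i) :
    W ∣ PP5LB.dV x - PP5LB.dV x0 := by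
  choose c hc using h
  have e : ∀ i, x i = x0 i + W * c i := fun i => by linarith [hc i]
  unfold PP5LB.dV
  rw [e 4, e 5, e 0, e 2]
  refine ⟨2 * (x0 4 + x0 5) * (c 4 + c 5) + W * (c 4 + c 5) ^ 2 - 4 * (x0 0 * c 2 + x0 2 * c 0 +
    W * c 0 * c 2), ?_⟩
  ring

theorem DD_mod {W : ℤ} {x x0 : Fin 10 → ℤ} (h : ∀ i, W ∣ x i - x0 i) :
    W ∣ PP5LB.DD x - PP5LB.DD x0 := by
  have hm : ∀ i j, W ∣ PP5L.SS x i j - PP5L.SS x0 i j := by
    intro i j
    choose c hc using h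
    have e : x = x0 + W • c := by
      funext i
      simp only [Pi.add_apply, Pi.smul_apply, smul_eq_mul]
      linarith [hc i]
    rw [e, SS_add, SS_smul, Matrix.add_apply, Matrix.smul_apply, smul_eq_mul]
    exact ⟨PP5L.SS c i j, by ring⟩
  unfold PP5LB.DD
  rw [← Int.modEq_iff_dvd]
  apply Int.ModEq.symm
  have h1 : ∀ (M N : Matrix (Fin 4) (Fin 4) ℤ), (∀ i j, M i j ≡ N i j [ZMOD W]) →
      M.det ≡ N.det [ZMOD W] := by
    intro M N hMN
    rw [Matrix.det_apply, Matrix.det_apply]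
    apply Int.ModEq.sum
    intro σ _
    have h2 : (∏ i, M (σ i) i) ≡ ∏ i, N (σ i) i [ZMOD W] := by
      apply Int.ModEq.prod
      intro i _
      exact hMN _ _
    rcases Int.units_eq_one_or (Equiv.Perm.sign σ) with hs | hs
    · rw [hs]; simpa using h2
    · rw [hs]; simpa using h2
  apply h1
  intro i j
  exact (Int.modEq_iff_dvd.2 (hm i j)).symm

/-- membership in the family -/
theorem mem_Fm {h w r : ℕ} {c x : LB.V10} (hx : x ∈ LB.Fm h w c r) :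
    (∀ j, j ≠ 3 → ((h : ℤ) * LB.xs j * r ≤ x j ∧ x j < ((h : ℤ) * LB.xs j + 1) * r)) ∧
      PP5L.FF x = 0 ∧ PP5LB.Uni x ∧ ∀ j, (PP5LB.Wf w : ℤ) ∣ x j - c j := by
  classical
  unfold LB.Fm PP5LB.XC at hx
  rw [Finset.mem_filter] at hx
  obtain ⟨h1, h2⟩ := hx
  unfold PP5LB.XA at h1
  rw [Finset.mem_filter, Fintype.mem_piFinset] at h1
  obtain ⟨h3, h4, h5⟩ := h1
  refine ⟨fun j hj => ?_, h4, h5, fun j => ?_⟩
  · have h6 := h3 j
    unfold PP5LB.Bx at h6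
    rw [if_neg hj] at h6
    exact Finset.mem_Ico.1 h6
  · have h7 := congrFun h2 j
    unfold PP5LB.red at h7
    have h8 : ((x j - c j : ℤ) : ZMod (PP5LB.Wf w)) = 0 := by
      push_cast; rw [h7, sub_self]
    exact (ZMod.intCast_zmod_eq_zero_iff_dvd _ _).1 h8

theorem prim_of_Uni {x : Fin 10 → ℤ} (h : PP5LB.Uni x) :
    ∀ p : ℕ, p.Prime → ∃ j, ¬ (p : ℤ) ∣ x j := by
  intro p hp
  by_contra hcon
  push Not at hcon
  obtain ⟨a, b, c, habc⟩ := h
  have h1 : (p : ℤ) ∣ 1 := by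
    rw [← habc]
    exact dvd_add (dvd_add (Dvd.dvd.mul_left (hcon 1) _) (Dvd.dvd.mul_left (hcon 6) _))
      (Dvd.dvd.mul_left (hcon 7) _)
  have h2 := Int.isUnit_iff.1 (isUnit_of_dvd_one h1)
  have h3 := hp.two_le
  omega

/-- SECTION C -/
theorem stC : LB.StC := by
  refine ⟨1, ?_⟩
  intro h w r c x hh hL hr hx hG b G hBd
  obtain ⟨hcell, hF, huni, hmod⟩ := mem_Fm hx
  have h4 : ∀ i, (4 : ℤ) ∣ x i - c i := fun i => by
    refine dvd_trans ?_ (hmod i)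
    unfold PP5LB.Wf
    push_cast
    exact dvd_mul_right _ _
  have hdV4 := dV_mod h4
  have hDD4 := DD_mod h4
  have hodd : ¬ 2 ∣ (PP5L.SS x).det := by
    have e : (PP5L.SS x).det = PP5LB.DD x := rfl
    have := hL.d8
    rw [e]; omega
  have hdodd : ¬ 2 ∣ PP5LB.dV x := by
    have := hL.v8
    omega
  have hdpos : 0 < PP5LB.dV x := by
    have h0 := (hcell 0 (by decide)).1
    have h2 := (hcell 2 (by decide)).2
    have e0 : LB.xs 0 = 1 := rfl
    have e2 : LB.xs 2 = -1 := rfl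
    rw [e0] at h0
    rw [e2] at h2
    have hr' : (1 : ℤ) ≤ r := by exact_mod_cast hr
    have hh' : (1 : ℤ) ≤ h := by exact_mod_cast hh
    have hx0 : 0 < x 0 := by nlinarith
    have hx2 : x 2 < 0 := by nlinarith
    unfold PP5LB.dV
    nlinarith [sq_nonneg (x 4 + x 5), mul_pos hx0 (neg_pos.2 hx2)]
  have hcop : IsCoprime (dV x) (PP5L.SS x).det := by
    rw [Int.isCoprime_iff_gcd_eq_one, Int.gcd_eq_natAbs]
    apply Nat.coprime_of_dvd
    intro p hp h1 h2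
    exact hG.cp p hp ⟨Int.natCast_dvd.2 h1, Int.natCast_dvd.2 h2⟩
  have hp := prim_of_Uni huni
  obtain ⟨mu, hmu, hz⟩ := isotropic (x := x) hdpos hdodd hodd hcop
    (fun p hp _ => hG.rk p hp) (fun p hp _ => hG.nV p hp)
  refine ⟨(transfer hF hp hodd hG.rk hmu hz b G hBd 1 one_ne_zero).1, fun N hN => ?_⟩
  exact (transfer hF hp hodd hG.rk hmu hz b G hBd N hN).2

end Pool.Agent.PP5LC
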