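import Mathlib

/-!
# PP5LC, the transfer (T5a): zeros modulo `p` outside the radical
-/

namespace Pool.Agent.PP5LC

open Matrix

section field
variable {F : Type*} [Field F]

/-- two independent kernel vectors: the adjugate vanishes -/
theorem adj_zero_of_two {M : Matrix (Fin 4) (Fin 4) F} {z v : Fin 4 → F} (hz : M *ᵥ z = 0)
    (hv : M *ᵥ v = 0) (hind : ∀ a b : F, a • z + b • v = 0 → a = 0 ∧ b = 0) :
    M.adjugate = 0 := by
  have hz0 : z ≠ 0 := by
    rintro rfl
    have := (hind 1 0 (by simp)).1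
    exact one_ne_zero this
  ext i j
  rw [Matrix.adjugate_fin_succ_eq_det_submatrix, Matrix.zero_apply]
  have key : (M.submatrix j.succAbove i.succAbove).det = 0 := by
    -- a nonzero kernel vector with vanishing i-th coordinate
    obtain ⟨w, hw0, hwi, hMw⟩ : ∃ w : Fin 4 → F, w ≠ 0 ∧ w i = 0 ∧ M *ᵥ w = 0 := by
      by_cases h : z i = 0
      · exact ⟨z, hz0, h, hz⟩
      · refine ⟨(-(v i)) • z + (z i) • v, ?_, ?_, ?_⟩
        · intro h2
          exact h (hind _ _ h2).2
        · simp; ring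
        · rw [Matrix.mulVec_add, Matrix.mulVec_smul, Matrix.mulVec_smul, hz, hv]; simp
    rw [← Matrix.exists_mulVec_eq_zero_iff]
    refine ⟨fun a => w (i.succAbove a), ?_, ?_⟩
    · intro h2
      apply hw0
      funext b
      rcases Fin.eq_self_or_eq_succAbove i b with rfl | ⟨a, rfl⟩
      · exact hwi
      · exact congrFun h2 a
    · funext k
      have h3 := congrFun hMw (j.succAbove k)
      simp only [Matrix.mulVec, dotProduct, Pi.zero_apply] at h3 ⊢
      rw [Fin.sum_univ_succAbove _ i, hwi, mul_zero, zero_add] at h3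
      simpa [Matrix.submatrix_apply] using h3
  rw [key, mul_zero]

/-- Chevalley-Warning for a quadratic form in three variables -/
theorem exists_zero_three [Fintype F] (c : Fin 3 → Fin 3 → F) :
    ∃ y : Fin 3 → F, y ≠ 0 ∧ ∑ a, ∑ b, c a b * (y a * y b) = 0 := by
  classical
  obtain ⟨p, hp⟩ := CharP.exists F
  have : CharP F p := hp
  have hpp : p.Prime := (CharP.char_is_prime_or_zero F p).resolve_right
    (CharP.char_ne_zero_of_finite F p)
  set f : MvPolynomial (Fin 3) F :=
    ∑ a, ∑ b, MvPolynomial.C (c a b) * (MvPolynomial.X a * MvPolynomial.X b) with hf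
  have hdeg : f.totalDegree < Fintype.card (Fin 3) := by
    have h2 : f.totalDegree ≤ 2 := by
      rw [hf]
      refine (MvPolynomial.totalDegree_finsetSum_le (d := 2) fun a _ => ?_)
      refine (MvPolynomial.totalDegree_finsetSum_le (d := 2) fun b _ => ?_)
      refine (MvPolynomial.totalDegree_mul _ _).trans ?_
      rw [MvPolynomial.totalDegree_C, zero_add]
      refine (MvPolynomial.totalDegree_mul _ _).trans ?_
      rw [MvPolynomial.totalDegree_X, MvPolynomial.totalDegree_X]
    have : Fintype.card (Fin 3) = 3 := by simp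
    omega
  have hdvd := char_dvd_card_solutions p hdeg
  have hev : ∀ y : Fin 3 → F, MvPolynomial.eval y f = ∑ a, ∑ b, c a b * (y a * y b) := by
    intro y
    simp [hf, map_sum]
  by_contra hcon
  push Not at hcon
  have h1 : Fintype.card { y : Fin 3 → F // MvPolynomial.eval y f = 0 } = 1 := by
    rw [Fintype.card_eq_one_iff]
    refine ⟨⟨0, by rw [hev]; simp⟩, ?_⟩
    rintro ⟨y, hy⟩
    apply Subtype.ext
    by_contra h
    exact hcon y h (by rw [← hev]; exact hy)
  rw [h1] at hdvd
  exact hpp.one_lt.ne' (Nat.dvd_one.1 hdvd)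

/-- two nonzero functionals have a common nonvanishing vector -/
theorem exists_both {a g : Fin 4 → F} (ha : a ≠ 0) (hg : g ≠ 0) :
    ∃ y : Fin 4 → F, a ⬝ᵥ y ≠ 0 ∧ g ⬝ᵥ y ≠ 0 := by
  obtain ⟨i, hi⟩ := Function.ne_iff.1 ha
  obtain ⟨j, hj⟩ := Function.ne_iff.1 hg
  simp only [Pi.zero_apply] at hi hj
  by_cases h1 : g i = 0
  · by_cases h2 : a j = 0
    · refine ⟨Pi.single i 1 + Pi.single j 1, ?_, ?_⟩
      · rw [dotProduct_add, dotProduct_single_one, dotProduct_single_one, h2, add_zero]; exact hi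
      · rw [dotProduct_add, dotProduct_single_one, dotProduct_single_one, h1, zero_add]; exact hj
    · exact ⟨Pi.single j 1, by rw [dotProduct_single_one]; exact h2,
        by rw [dotProduct_single_one]; exact hj⟩
  · exact ⟨Pi.single i 1, by rw [dotProduct_single_one]; exact hi,
      by rw [dotProduct_single_one]; exact h1⟩

/-- (T5a) -/
theorem exists_zero_out [Fintype F] (h2 : (2 : F) ≠ 0) {M : Matrix (Fin 4) (Fin 4) F}
    (hsym : Mᵀ = M) (hadj : M.adjugate ≠ 0) {v g : Fin 4 → F} (hv0 : v ≠ 0)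
    (hv : M *ᵥ v = 0) (hg : g ≠ 0) :
    ∃ u : Fin 4 → F, u ⬝ᵥ (M *ᵥ u) = 0 ∧ g ⬝ᵥ u ≠ 0 := by
  obtain ⟨i, hi⟩ := Function.ne_iff.1 hv0
  simp only [Pi.zero_apply] at hi
  -- a zero with vanishing i-th coordinate
  obtain ⟨y, hy0, hy⟩ := exists_zero_three (fun a b => M (i.succAbove a) (i.succAbove b))
  set z : Fin 4 → F := i.insertNth (α := fun _ => F) 0 y with hz
  have hzi : z i = 0 := Fin.insertNth_apply_same _ _ _
  have hza : ∀ a, z (i.succAbove a) = y a := fun a => Fin.insertNth_apply_succAbove _ _ _ _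
  have hz0 : z ≠ 0 := by
    intro h
    apply hy0
    funext a
    rw [← hza a, h]; rfl
  have hqz : z ⬝ᵥ (M *ᵥ z) = 0 := by
    simp only [Matrix.mulVec, dotProduct]
    rw [Fin.sum_univ_succAbove _ i, hzi, zero_mul, zero_add]
    rw [← hy]
    refine Finset.sum_congr rfl fun a _ => ?_
    rw [Fin.sum_univ_succAbove _ i, hzi, mul_zero, zero_add, hza, Finset.mul_sum]
    refine Finset.sum_congr rfl fun b _ => ?_
    rw [hza]; ring
  by_cases hgz : g ⬝ᵥ z = 0
  · -- M z ≠ 0
    have hMz : M *ᵥ z ≠ 0 := by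
      intro h
      apply hadj
      refine adj_zero_of_two h hv fun a b hab => ?_
      have h3 := congrFun hab i
      simp only [Pi.add_apply, Pi.smul_apply, smul_eq_mul, hzi, mul_zero, zero_add,
        Pi.zero_apply] at h3
      have hb : b = 0 := (mul_eq_zero.1 h3).resolve_right hi
      rw [hb, zero_smul, add_zero] at hab
      exact ⟨(smul_eq_zero.1 hab).resolve_right hz0, hb⟩
    obtain ⟨w, hw1, hw2⟩ := exists_both hMz hg
    set Q := w ⬝ᵥ (M *ᵥ w) with hQ
    set B := (M *ᵥ z) ⬝ᵥ w with hB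
    have hB2 : z ⬝ᵥ (M *ᵥ w) = B := by
      rw [hB, Matrix.dotProduct_mulVec, ← Matrix.mulVec_transpose, hsym]
    have hB3 : w ⬝ᵥ (M *ᵥ z) = B := by rw [hB, dotProduct_comm]
    refine ⟨Q • z - (2 * B) • w, ?_, ?_⟩
    · rw [Matrix.mulVec_sub, Matrix.mulVec_smul, Matrix.mulVec_smul, sub_dotProduct,
        dotProduct_sub, dotProduct_sub]
      simp only [smul_dotProduct, dotProduct_smul, smul_eq_mul]
      rw [hqz, hB2, hB3, ← hQ]
      ring
    · rw [dotProduct_sub, dotProduct_smul, dotProduct_smul, hgz]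
      simp only [smul_eq_mul, mul_zero, zero_sub]
      exact neg_ne_zero.2 (mul_ne_zero (mul_ne_zero h2 hw1) hw2)
  · exact ⟨z, hqz, hgz⟩

end field

end Pool.Agent.PP5LC
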