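import Pool.Agent.PP5LC.TrB
import Pool.Agent.PP5LC.TrF

/-!
# PP5LC, the transfer (T5b): a zero `v` with `G v` primitive
-/

namespace Pool.Agent.PP5LC

open Matrix

/-- primitive vectors -/
def Prim {n : ℕ} (v : Fin n → ℤ) : Prop := ∀ p : ℕ, p.Prime → ∃ j, ¬ (p : ℤ) ∣ v j

theorem bezout4 {g : Fin 4 → ℤ} (h : Prim g) : ∃ w : Fin 4 → ℤ, g ⬝ᵥ w = 1 := by
  obtain ⟨x', hx'⟩ := PP5L.exists_partner (x := ![g 0, g 1, g 2, g 3, 0, 0, 0, 0, 0, 0])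
    (fun p hp => by
      obtain ⟨j, hj⟩ := h p hp
      fin_cases j
      · exact ⟨0, hj⟩
      · exact ⟨1, hj⟩
      · exact ⟨2, hj⟩
      · exact ⟨3, hj⟩)
  refine ⟨![x' 2, -(x' 3), x' 0, -(x' 1)], ?_⟩
  rw [← hx']
  simp [dotProduct, Fin.sum_univ_four, PP5L.bF]
  ring

theorem even_quad {G : Matrix (Fin 4) (Fin 4) ℤ} (hsym : Gᵀ = G) (hev : ∀ i, 2 ∣ G i i)
    (u : Fin 4 → ℤ) : ∃ q : ℤ, u ⬝ᵥ (G *ᵥ u) = 2 * q := by
  choose a ha using hev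
  have hs : ∀ i j, G i j = G j i := fun i j => by
    have := congrFun (congrFun hsym i) j
    rw [Matrix.transpose_apply] at this
    exact this.symm
  refine ⟨a 0 * u 0 ^ 2 + a 1 * u 1 ^ 2 + a 2 * u 2 ^ 2 + a 3 * u 3 ^ 2 + G 0 1 * u 0 * u 1
    + G 0 2 * u 0 * u 2 + G 0 3 * u 0 * u 3 + G 1 2 * u 1 * u 2 + G 1 3 * u 1 * u 3
    + G 2 3 * u 2 * u 3, ?_⟩
  simp only [dotProduct, mulVec, Fin.sum_univ_four]
  rw [hs 1 0, hs 2 0, hs 3 0, hs 2 1, hs 3 1, hs 3 2, ha 0, ha 1, ha 2, ha 3]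
  ring

theorem dot_symm {G : Matrix (Fin 4) (Fin 4) ℤ} (hsym : Gᵀ = G) (u v : Fin 4 → ℤ) :
    u ⬝ᵥ (G *ᵥ v) = v ⬝ᵥ (G *ᵥ u) := by
  rw [Matrix.dotProduct_mulVec, ← Matrix.mulVec_transpose, hsym, dotProduct_comm]

/-- a prime dividing `G v`, `v` primitive, divides `det G` -/
theorem dvd_det_of_dvd {G : Matrix (Fin 4) (Fin 4) ℤ} {v : Fin 4 → ℤ} (hv : Prim v) {p : ℕ}
    (hp : p.Prime) (h : ∀ i, (p : ℤ) ∣ (G *ᵥ v) i) : (p : ℤ) ∣ G.det := by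
  obtain ⟨j, hj⟩ := hv p hp
  have e : G.det * v j = ∑ i, G.adjugate j i * (G *ᵥ v) i := by
    have h2 : G.adjugate *ᵥ (G *ᵥ v) = G.det • v := by
      rw [Matrix.mulVec_mulVec, Matrix.adjugate_mul, Matrix.smul_mulVec, Matrix.one_mulVec]
    have h3 := congrFun h2 j
    simp only [Pi.smul_apply, smul_eq_mul] at h3
    rw [← h3]
    rfl
  have h2 : (p : ℤ) ∣ G.det * v j := by
    rw [e]
    exact Finset.dvd_sum fun i _ => Dvd.dvd.mul_left (h i) _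
  exact ((Nat.prime_iff_prime_int.1 hp).dvd_or_dvd h2).resolve_right hj

section modp
variable {p : ℕ} [Fact p.Prime]

/-- reduction modulo `p` -/
def rd (p : ℕ) (v : Fin 4 → ℤ) : Fin 4 → ZMod p := fun i => (v i : ZMod p)

theorem rd_dot (u v : Fin 4 → ℤ) : rd p u ⬝ᵥ rd p v = ((u ⬝ᵥ v : ℤ) : ZMod p) := by
  simp [rd, dotProduct]

theorem rd_mulVec (G : Matrix (Fin 4) (Fin 4) ℤ) (v : Fin 4 → ℤ) :
    (G.map (Int.castRingHom (ZMod p))) *ᵥ (rd p v) = rd p (G *ᵥ v) := by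
  funext i
  simp [rd, mulVec, dotProduct]

theorem rd_eq_zero {v : Fin 4 → ℤ} : rd p v = 0 ↔ ∀ i, (p : ℤ) ∣ v i := by
  constructor
  · intro h i
    exact (ZMod.intCast_zmod_eq_zero_iff_dvd _ _).1 (congrFun h i)
  · intro h
    funext i
    exact (ZMod.intCast_zmod_eq_zero_iff_dvd _ _).2 (h i)

theorem adj_map_ne {G : Matrix (Fin 4) (Fin 4) ℤ} (h : ∃ i j, ¬ (p : ℤ) ∣ G.adjugate i j) :
    (G.map (Int.castRingHom (ZMod p))).adjugate ≠ 0 := by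
  obtain ⟨i, j, hij⟩ := h
  intro h0
  apply hij
  have h6 : (Int.castRingHom (ZMod p)).mapMatrix G = G.map (Int.castRingHom (ZMod p)) := rfl
  rw [← h6, ← RingHom.map_adjugate] at h0
  have h7 := congrFun (congrFun h0 i) j
  simp only [RingHom.mapMatrix_apply, Matrix.map_apply, Matrix.zero_apply,
    Int.coe_castRingHom] at h7
  exact (ZMod.intCast_zmod_eq_zero_iff_dvd _ _).1 h7

theorem map_symm {G : Matrix (Fin 4) (Fin 4) ℤ} (hsym : Gᵀ = G) :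
    (G.map (Int.castRingHom (ZMod p)))ᵀ = G.map (Int.castRingHom (ZMod p)) := by
  rw [← Matrix.transpose_map, hsym]

/-- the radical is one-dimensional -/
theorem no_two {G : Matrix (Fin 4) (Fin 4) ℤ} (hadj : ∃ i j, ¬ (p : ℤ) ∣ G.adjugate i j)
    {u v g : Fin 4 → ℤ} (hu : ∀ i, (p : ℤ) ∣ (G *ᵥ u) i) (hv : ∀ i, (p : ℤ) ∣ (G *ᵥ v) i)
    (hvp : ∃ j, ¬ (p : ℤ) ∣ v j) (hgu : g ⬝ᵥ u = 1) (hgv : g ⬝ᵥ v = 0) : False := by
  apply adj_map_ne hadj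
  refine adj_zero_of_two (z := rd p u) (v := rd p v) ?_ ?_ fun a b hab => ?_
  · rw [rd_mulVec]; exact rd_eq_zero.2 hu
  · rw [rd_mulVec]; exact rd_eq_zero.2 hv
  · have h1 : rd p g ⬝ᵥ (a • rd p u + b • rd p v) = a := by
      rw [dotProduct_add, dotProduct_smul, dotProduct_smul, rd_dot, rd_dot, hgu, hgv]
      simp
    have ha : a = 0 := by rw [← h1, hab, dotProduct_zero]
    rw [ha, zero_smul, zero_add] at hab
    refine ⟨ha, (smul_eq_zero.1 hab).resolve_right fun h => ?_⟩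
    obtain ⟨j, hj⟩ := hvp
    exact hj (rd_eq_zero.1 h j)

/-- (T5a) in integers -/
theorem exists_u1 (hp2 : p ≠ 2) {G : Matrix (Fin 4) (Fin 4) ℤ} (hsym : Gᵀ = G)
    (hadj : ∃ i j, ¬ (p : ℤ) ∣ G.adjugate i j) {v g : Fin 4 → ℤ}
    (hvp : ∃ j, ¬ (p : ℤ) ∣ v j) (hv : ∀ i, (p : ℤ) ∣ (G *ᵥ v) i) (hgp : ∃ j, ¬ (p : ℤ) ∣ g j) :
    ∃ u : Fin 4 → ℤ, (p : ℤ) ∣ u ⬝ᵥ (G *ᵥ u) ∧ ¬ (p : ℤ) ∣ g ⬝ᵥ u := by
  have hp : p.Prime := Fact.out
  have h2' : (2 : ZMod p) ≠ 0 := by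
    intro h0
    have h3 : ((2 : ℕ) : ZMod p) = 0 := by exact_mod_cast h0
    rw [ZMod.natCast_eq_zero_iff] at h3
    exact hp2 ((Nat.prime_dvd_prime_iff_eq hp Nat.prime_two).1 h3)
  obtain ⟨u, hu1, hu2⟩ := exists_zero_out h2' (map_symm hsym) (adj_map_ne hadj) (v := rd p v)
    (g := rd p g) (fun h => by obtain ⟨j, hj⟩ := hvp; exact hj (rd_eq_zero.1 h j))
    (by rw [rd_mulVec]; exact rd_eq_zero.2 hv)
    (fun h => by obtain ⟨j, hj⟩ := hgp; exact hj (rd_eq_zero.1 h j))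
  have hlift : rd p (fun i => ((u i).val : ℤ)) = u := by
    funext i; simp [rd]
  refine ⟨fun i => ((u i).val : ℤ), ?_, ?_⟩
  · rw [← hlift, rd_mulVec, rd_dot] at hu1
    exact (ZMod.intCast_zmod_eq_zero_iff_dvd _ _).1 hu1
  · intro h
    apply hu2
    rw [← hlift, rd_dot]
    exact (ZMod.intCast_zmod_eq_zero_iff_dvd _ _).2 h

end modp

/-- (T5b) one step: the content of `G v` decreases -/
theorem content_step {G : Matrix (Fin 4) (Fin 4) ℤ} (hsym : Gᵀ = G) (hev : ∀ i, 2 ∣ G i i)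
    (hodd : ¬ 2 ∣ G.det) (hadj : ∀ p : ℕ, p.Prime → ∃ i j, ¬ (p : ℤ) ∣ G.adjugate i j)
    {v g : Fin 4 → ℤ} {c : ℤ} (hv : Prim v) (hg : Prim g) (hc : G *ᵥ v = c • g)
    (hz : v ⬝ᵥ (G *ᵥ v) = 0) (hc0 : c ≠ 0) (hc1 : c.natAbs ≠ 1) :
    ∃ (v' g' : Fin 4 → ℤ) (c' : ℤ), Prim v' ∧ Prim g' ∧ G *ᵥ v' = c' • g' ∧
      v' ⬝ᵥ (G *ᵥ v') = 0 ∧ c' ≠ 0 ∧ c'.natAbs < c.natAbs := by
  obtain ⟨p, hp, hpc⟩ := Nat.exists_prime_and_dvd hc1
  have hpc' : (p : ℤ) ∣ c := Int.natCast_dvd.2 hpc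
  have : Fact p.Prime := ⟨hp⟩
  have hGvp : ∀ i, (p : ℤ) ∣ (G *ᵥ v) i := by
    intro i; rw [hc]; exact Dvd.dvd.mul_right hpc' _
  have hp2 : p ≠ 2 := by
    rintro rfl
    exact hodd (dvd_det_of_dvd hv hp hGvp)
  have hgv : g ⬝ᵥ v = 0 := by
    rw [hc, dotProduct_smul, smul_eq_mul] at hz
    rw [dotProduct_comm]
    exact (mul_eq_zero.1 hz).resolve_left hc0
  obtain ⟨u1, hu1, hgu1⟩ := exists_u1 hp2 hsym (hadj p hp) (hv p hp) hGvp (hg p hp)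
  obtain ⟨w, hw⟩ := bezout4 hg
  have hcop : IsCoprime (p : ℤ) (g ⬝ᵥ u1) :=
    (Prime.coprime_iff_not_dvd (Nat.prime_iff_prime_int.1 hp)).2 hgu1
  obtain ⟨a, b, hab⟩ := hcop
  set u : Fin 4 → ℤ := b • u1 + (a * p) • w with hu
  have hgu : g ⬝ᵥ u = 1 := by
    rw [hu, dotProduct_add, dotProduct_smul, dotProduct_smul, hw]
    simp only [smul_eq_mul]
    linear_combination hab
  obtain ⟨q, hq⟩ := even_quad hsym hev u
  have hpq : (p : ℤ) ∣ q := by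
    have h2 : (p : ℤ) ∣ 2 * q := by
      rw [← hq, hu]
      have e : (b • u1 + (a * p) • w) ⬝ᵥ (G *ᵥ (b • u1 + (a * p) • w)) =
          b * b * (u1 ⬝ᵥ (G *ᵥ u1)) + p * (a * (b * (u1 ⬝ᵥ (G *ᵥ w)) + b * (w ⬝ᵥ (G *ᵥ u1))
            + a * p * (w ⬝ᵥ (G *ᵥ w)))) := by
        rw [Matrix.mulVec_add, Matrix.mulVec_smul, Matrix.mulVec_smul, dotProduct_add,
          add_dotProduct, add_dotProduct]
        simp only [smul_dotProduct, dotProduct_smul, smul_eq_mul]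
        ring
      rw [e]
      exact dvd_add (Dvd.dvd.mul_left hu1 _) (Dvd.intro _ rfl)
    rcases (Nat.prime_iff_prime_int.1 hp).dvd_or_dvd h2 with h | h
    · exfalso
      have h3 : p ∣ 2 := by exact_mod_cast h
      exact hp2 ((Nat.prime_dvd_prime_iff_eq hp Nat.prime_two).1 h3)
    · exact h
  -- the gcd
  set e : ℤ := (Int.gcd q c : ℤ) with he
  have hgpos : 0 < Int.gcd q c := Int.gcd_pos_of_ne_zero_right _ hc0
  obtain ⟨q', hq'⟩ : e ∣ q := Int.gcd_dvd_left ..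
  obtain ⟨c', hc'⟩ : e ∣ c := Int.gcd_dvd_right ..
  have he0 : e ≠ 0 := by rw [he]; exact_mod_cast hgpos.ne'
  have hpe : (p : ℤ) ∣ e := by
    rw [he]; exact Int.dvd_coe_gcd hpq hpc'
  have hc'0 : c' ≠ 0 := by
    rintro rfl; rw [mul_zero] at hc'; exact hc0 hc'
  have hcop2 : ∀ l : ℕ, l.Prime → ¬ ((l : ℤ) ∣ q' ∧ (l : ℤ) ∣ c') := by
    rintro l hl ⟨h1, h2⟩
    have h3 : e * l ∣ e := by
      rw [he]
      refine Int.dvd_coe_gcd ?_ ?_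
      · rw [← he]; conv_rhs => rw [hq']
        exact mul_dvd_mul_left _ h1
      · rw [← he]; conv_rhs => rw [hc']
        exact mul_dvd_mul_left _ h2
    have h4 : (l : ℤ) ∣ 1 := by
      have : e * l ∣ e * 1 := by rwa [mul_one]
      exact (mul_dvd_mul_iff_left he0).1 this
    have h5 := Int.isUnit_iff.1 (isUnit_of_dvd_one h4)
    have h6 := hl.two_le
    omega
  set g1 : Fin 4 → ℤ := q • g - G *ᵥ u with hg1
  set v1 : Fin 4 → ℤ := q' • v - c' • u with hv1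
  have huGv : u ⬝ᵥ (G *ᵥ v) = c := by
    rw [hc, dotProduct_smul, dotProduct_comm, hgu, smul_eq_mul, mul_one]
  have hvg1 : v ⬝ᵥ g1 = -c := by
    rw [hg1, dotProduct_sub, dotProduct_smul, dotProduct_comm v g, hgv, dot_symm hsym v u, huGv]
    simp
  have hug1 : u ⬝ᵥ g1 = -q := by
    rw [hg1, dotProduct_sub, dotProduct_smul, dotProduct_comm u g, hgu, hq]
    simp only [smul_eq_mul]; ring
  refine ⟨v1, g1, c', ?_, ?_, ?_, ?_, hc'0, ?_⟩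
  · -- v1 primitive
    intro l hl
    by_contra hcon
    push Not at hcon
    have h1 : g ⬝ᵥ v1 = -c' := by
      rw [hv1, dotProduct_sub, dotProduct_smul, dotProduct_smul, hgv, hgu]
      simp
    have h2 : (l : ℤ) ∣ c' := by
      rw [← dvd_neg, ← h1]
      exact Finset.dvd_sum fun i _ => Dvd.dvd.mul_left (hcon i) _
    obtain ⟨j, hj⟩ := hv l hl
    have h3 : (l : ℤ) ∣ q' * v j := by
      have h4 : q' * v j = v1 j + c' * u j := by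
        rw [hv1]; simp
      rw [h4]
      exact dvd_add (hcon j) (Dvd.dvd.mul_right h2 _)
    exact hcop2 l hl ⟨((Nat.prime_iff_prime_int.1 hl).dvd_or_dvd h3).resolve_right hj, h2⟩
  · -- g1 primitive
    intro l hl
    by_contra hcon
    push Not at hcon
    have : Fact l.Prime := ⟨hl⟩
    have h1 : (l : ℤ) ∣ c := by
      rw [← dvd_neg, ← hvg1]
      exact Finset.dvd_sum fun i _ => Dvd.dvd.mul_left (hcon i) _
    have h2 : (l : ℤ) ∣ q := by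
      rw [← dvd_neg, ← hug1]
      exact Finset.dvd_sum fun i _ => Dvd.dvd.mul_left (hcon i) _
    have h3 : ∀ i, (l : ℤ) ∣ (G *ᵥ u) i := by
      intro i
      have h4 : (G *ᵥ u) i = q * g i - g1 i := by
        rw [hg1]; simp
      rw [h4]
      exact dvd_sub (Dvd.dvd.mul_right h2 _) (hcon i)
    exact no_two (hadj l hl) h3 (fun i => by rw [hc]; exact Dvd.dvd.mul_right h1 _) (hv l hl)
      hgu hgv
  · rw [hv1, Matrix.mulVec_sub, Matrix.mulVec_smul, Matrix.mulVec_smul, hc, hg1]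
    funext i
    simp only [Pi.sub_apply, Pi.smul_apply, smul_eq_mul]
    rw [hc', hq']; ring
  · have h1 : G *ᵥ v1 = c' • g1 := by
      rw [hv1, Matrix.mulVec_sub, Matrix.mulVec_smul, Matrix.mulVec_smul, hc, hg1]
      funext i
      simp only [Pi.sub_apply, Pi.smul_apply, smul_eq_mul]
      rw [hc', hq']; ring
    rw [h1, dotProduct_smul, hv1, sub_dotProduct, smul_dotProduct, smul_dotProduct, hvg1, hug1]
    simp only [smul_eq_mul]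
    rw [hc', hq']; ring
  · rw [hc', Int.natAbs_mul]
    have h1 : 2 ≤ e.natAbs := by
      have h2 : p ∣ e.natAbs := Int.natCast_dvd.1 hpe
      have h3 := Nat.le_of_dvd (Int.natAbs_pos.2 he0) h2
      have h4 := hp.two_le
      omega
    have h5 := Int.natAbs_pos.2 hc'0
    nlinarith

/-- (T5) a zero `v0` with a partner `w` -/
theorem exists_good_zero {G : Matrix (Fin 4) (Fin 4) ℤ} (hsym : Gᵀ = G) (hev : ∀ i, 2 ∣ G i i)
    (hodd : ¬ 2 ∣ G.det) (hadj : ∀ p : ℕ, p.Prime → ∃ i j, ¬ (p : ℤ) ∣ G.adjugate i j)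
    {v : Fin 4 → ℤ} (hv0 : v ≠ 0) (hz : v ⬝ᵥ (G *ᵥ v) = 0) :
    ∃ v0 w : Fin 4 → ℤ, v0 ⬝ᵥ (G *ᵥ v0) = 0 ∧ w ⬝ᵥ (G *ᵥ v0) = 1 := by
  have key : ∀ N : ℕ, ∀ (v g : Fin 4 → ℤ) (c : ℤ), c.natAbs = N → Prim v → Prim g →
      G *ᵥ v = c • g → v ⬝ᵥ (G *ᵥ v) = 0 → c ≠ 0 →
      ∃ v0 w : Fin 4 → ℤ, v0 ⬝ᵥ (G *ᵥ v0) = 0 ∧ w ⬝ᵥ (G *ᵥ v0) = 1 := by
    intro N
    induction N using Nat.strong_induction_on with
    | _ N ih =>
      intro v g c hN hv hg hc hz hc0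
      by_cases h1 : c.natAbs = 1
      · obtain ⟨w, hw⟩ := bezout4 hg
        refine ⟨v, c • w, hz, ?_⟩
        rw [hc, smul_dotProduct, dotProduct_smul, dotProduct_comm, hw]
        simp only [smul_eq_mul, mul_one]
        rcases Int.natAbs_eq_iff.1 h1 with h | h <;> rw [h] <;> norm_num
      · obtain ⟨v', g', c', hv', hg', hc', hz', hc'0, hlt⟩ :=
          content_step hsym hev hodd hadj hv hg hc hz hc0 h1
        exact ih c'.natAbs (by omega) v' g' c' rfl hv' hg' hc' hz' hc'0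
  obtain ⟨d, v', hd, hvd, hv'⟩ := prim_part hv0
  have hdet : G.det ≠ 0 := by
    intro h; rw [h] at hodd; exact hodd (dvd_zero _)
  have hv'0 : v' ≠ 0 := by
    rintro rfl; rw [smul_zero] at hvd; exact hv0 hvd
  have hGv : G *ᵥ v' ≠ 0 := fun h => hv'0 (Matrix.eq_zero_of_mulVec_eq_zero hdet h)
  obtain ⟨c, g, hc, hcg, hg⟩ := prim_part hGv
  refine key c.natAbs v' g c rfl hv' hg hcg ?_ hc
  have h2 : v ⬝ᵥ (G *ᵥ v) = d * d * (v' ⬝ᵥ (G *ᵥ v')) := by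
    rw [hvd, Matrix.mulVec_smul, smul_dotProduct, dotProduct_smul]
    simp only [smul_eq_mul]; ring
  rw [h2] at hz
  exact (mul_eq_zero.1 hz).resolve_left (mul_ne_zero hd hd)

end Pool.Agent.PP5LC
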