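import Pool.Agent.PP5.LFin

/-!
# PP5LC, the transfer (T1), (T2): a pure spinor `r` in `K_x` is killed by a second isotropic vector
-/

namespace Pool.Agent.PP5LC

open Pool.Agent.PP5L

section ring
variable {R : Type*} [CommRing R]

theorem HH_Bd (s t : Fin 16 → R) (i : Fin 16) : HH (Bd s t) s i + HH (Qd s) t i = 0 := by
  fin_cases i <;> (simp only [Fin.zero_eta, Fin.mk_one, Fin.reduceFinMk, HH, Matrix.cons_val]; simp only [Qd, Bd, Matrix.cons_val]; ring)

theorem bF_Bd (y : Fin 10 → R) (s t : Fin 16 → R) : bF y (Bd s t) = dot (HH y s) t := by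
  simp [bF, Bd, HH, dot, Fin.sum_univ_succ]; ring

theorem HHx_add (x y : Fin 10 → R) (s : Fin 16 → R) (i : Fin 16) :
    HH (x + y) s i = HH x s i + HH y s i := by
  fin_cases i <;> (simp only [Fin.zero_eta, Fin.mk_one, Fin.reduceFinMk, HH, Matrix.cons_val]; simp only [Pi.add_apply]; ring)

theorem HHx_smul (c : R) (x : Fin 10 → R) (s : Fin 16 → R) (i : Fin 16) :
    HH (c • x) s i = c * HH x s i := by
  fin_cases i <;>
    (simp only [Fin.zero_eta, Fin.mk_one, Fin.reduceFinMk, HH, Matrix.cons_val]; simp only [Pi.smul_apply, smul_eq_mul]; ring)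

theorem HPx_smul (c : R) (x : Fin 10 → R) (s : Fin 16 → R) (i : Fin 16) :
    HP (c • x) s i = c * HP x s i := by
  fin_cases i <;>
    (simp only [Fin.zero_eta, Fin.mk_one, Fin.reduceFinMk, HP, Matrix.cons_val]; simp only [Pi.smul_apply, smul_eq_mul]; ring)

theorem bF_smul_left (c : R) (x y : Fin 10 → R) : bF (c • x) y = c * bF x y := by
  simp [bF]; ring

theorem bF_smul_right (c : R) (x y : Fin 10 → R) : bF x (c • y) = c * bF x y := by
  simp [bF]; ring

theorem FF_smul (c : R) (x : Fin 10 → R) : FF (c • x) = c ^ 2 * FF x := by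
  simp [FF]; ring

end ring

theorem HP_zero (x : Fin 10 → ℤ) : HP x (0 : Fin 16 → ℤ) = 0 := by
  have := HP_smul x (0 : ℤ) (0 : Fin 16 → ℤ)
  simpa using this

theorem HH_zero (x : Fin 10 → ℤ) : HH x (0 : Fin 16 → ℤ) = 0 := by
  have := HH_smul x (0 : ℤ) (0 : Fin 16 → ℤ)
  simpa using this

/-- two vectors killing a nonzero spinor are orthogonal -/
theorem bF_of_kill {x y : Fin 10 → ℤ} {r : Fin 16 → ℤ} (hr : r ≠ 0) (hx : HH x r = 0)
    (hy : HH y r = 0) : bF x y = 0 := by
  by_contra h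
  apply hr
  funext i
  have := HP_HH_pol x y r i
  rw [hx, hy, HP_zero, HP_zero] at this
  simp only [Pi.zero_apply, add_zero] at this
  exact (mul_eq_zero.1 this.symm).resolve_left h

theorem FF_of_kill {x : Fin 10 → ℤ} {r : Fin 16 → ℤ} (hr : r ≠ 0) (hx : HH x r = 0) :
    FF x = 0 := by
  by_contra h
  apply hr
  funext i
  have := HP_HH x r i
  rw [hx, HP_zero] at this
  simp only [Pi.zero_apply] at this
  exact (mul_eq_zero.1 this.symm).resolve_left h

/-- the test vector `xh_b e_a - xh_a e_b` orthogonal to `x` -/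
def tv (x : Fin 10 → ℤ) (a b : Fin 10) : Fin 10 → ℤ :=
  xhat x b • Pi.single a 1 - xhat x a • Pi.single b 1

theorem bF_xhat_sum (x y : Fin 10 → ℤ) : bF x y = ∑ j, xhat x j * y j := by
  simp [bF, xhat, Fin.sum_univ_succ]; ring

theorem bF_tv (x : Fin 10 → ℤ) (a b : Fin 10) : bF x (tv x a b) = 0 := by
  rw [bF_xhat_sum]
  simp only [tv, Pi.sub_apply, Pi.smul_apply, smul_eq_mul, mul_sub, Finset.sum_sub_distrib]
  simp [Pi.single_apply]
  ring

theorem tv_pair (x : Fin 10 → ℤ) (b : Fin 10) (hb : xhat x b ≠ 0) :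
    ∃ a c, bF (tv x a b) (tv x c b) ≠ 0 := by
  by_cases h0 : b = 0 ∨ b = 2
  · refine ⟨1, 3, ?_⟩
    have e : bF (tv x 1 b) (tv x 3 b) = -(xhat x b) ^ 2 := by
      rcases h0 with rfl | rfl <;> simp [bF, tv, Pi.single_apply] <;> ring
    rw [e]
    exact neg_ne_zero.2 (pow_ne_zero _ hb)
  · push Not at h0
    refine ⟨0, 2, ?_⟩
    have e : bF (tv x 0 b) (tv x 2 b) = (xhat x b) ^ 2 := by
      obtain ⟨h1, h2⟩ := h0
      fin_cases b <;> first | exact absurd rfl h1 | exact absurd rfl h2 |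
        (simp [bF, tv, Pi.single_apply] <;> ring)
    rw [e]
    exact pow_ne_zero _ hb

/-- (T2) a pure spinor is killed by a vector not proportional to `x` -/
theorem exists_second {x : Fin 10 → ℤ} {r : Fin 16 → ℤ} (hx0 : ∃ j, x j ≠ 0) (hr : r ≠ 0)
    (hq : Qd r = 0) :
    ∃ z : Fin 10 → ℤ, HH z r = 0 ∧ ∃ i j, z i * x j ≠ z j * x i := by
  by_contra hcon
  push Not at hcon
  have hkill : ∀ t : Fin 16 → ℤ, HH (Bd r t) r = 0 := by
    intro t
    funext i
    have h := HH_Bd r t i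
    have h2 : HH (Qd r) t i = 0 := by
      rw [hq]
      fin_cases i <;> simp [HH]
    rw [h2, add_zero] at h
    exact h
  have hprop : ∀ t i j, Bd r t i * x j = Bd r t j * x i := fun t => hcon _ (hkill t)
  obtain ⟨j, hj⟩ := hx0
  -- HH y r = 0 for y orthogonal to x
  have hy : ∀ y, bF x y = 0 → HH y r = 0 := by
    intro y hxy
    funext i
    have h1 : x j * bF y (Bd r (Pi.single i 1)) = 0 := by
      rw [← bF_smul_right]
      have h2 : x j • Bd r (Pi.single i 1) = (Bd r (Pi.single i 1) j) • x := by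
        funext k
        simp only [Pi.smul_apply, smul_eq_mul]
        rw [mul_comm]
        exact hprop _ k j
      rw [h2, bF_smul_right, bF_symm, hxy, mul_zero]
    have h3 := (mul_eq_zero.1 h1).resolve_left hj
    rw [bF_Bd] at h3
    simpa [dot, Pi.single_apply] using h3
  -- a nonzero coordinate of xhat x
  obtain ⟨b, hb⟩ : ∃ b, xhat x b ≠ 0 := by
    by_contra h
    push Not at h
    apply hj
    have h2 := congrFun (xhat_xhat x) j
    rw [← h2]
    have h3 : xhat x = 0 := funext h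
    rw [h3]
    fin_cases j <;> simp [xhat]
  obtain ⟨a, c, hac⟩ := tv_pair x b hb
  exact hac (bF_of_kill hr (hy _ (bF_tv x a b)) (hy _ (bF_tv x c b)))

end Pool.Agent.PP5LC
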