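import Pool.Agent.PP5LC.TrA

/-!
# PP5LC, the transfer (T3): a zero of `L_x`
-/

namespace Pool.Agent.PP5LC

open Pool.Agent.PP5L Module

/-- a nonzero integral vector is a multiple of a primitive one -/
theorem prim_part {ι : Type*} [Fintype ι] {z : ι → ℤ} (hz : z ≠ 0) :
    ∃ (c : ℤ) (w : ι → ℤ), c ≠ 0 ∧ z = c • w ∧ ∀ p : ℕ, p.Prime → ∃ j, ¬ (p : ℤ) ∣ w j := by
  classical
  have hne : (Finset.univ : Finset ι).Nonempty := by
    by_contra h
    apply hz
    funext i
    exact absurd ⟨i, Finset.mem_univ i⟩ h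
  obtain ⟨g, hg, hg1⟩ := Finset.extract_gcd z hne
  have hc : Finset.univ.gcd z ≠ 0 := by
    intro h
    apply hz
    funext i
    rw [hg i (Finset.mem_univ i), h, zero_mul]; rfl
  refine ⟨Finset.univ.gcd z, g, hc, ?_, ?_⟩
  · funext i
    exact hg i (Finset.mem_univ i)
  · intro p hp
    by_contra h
    push Not at h
    have h2 : (p : ℤ) ∣ Finset.univ.gcd g := Finset.dvd_gcd fun i _ => h i
    rw [hg1] at h2
    have h3 := Int.isUnit_iff.1 (isUnit_of_dvd_one h2)
    have h4 := hp.two_le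
    omega

theorem finrank_sup_inf (A B : Submodule ℤ (Fin 16 → ℤ)) :
    finrank ℤ (A ⊔ B : Submodule ℤ (Fin 16 → ℤ)) + finrank ℤ (A ⊓ B : Submodule ℤ (Fin 16 → ℤ))
      = finrank ℤ A + finrank ℤ B := by
  have key := Submodule.rank_sup_add_rank_inf_eq A B
  repeat rw [← finrank_eq_rank] at key
  norm_cast at key

theorem dot_self_eq_zero {s : Fin 16 → ℤ} (h : dot s s = 0) : s = 0 := by
  unfold dot at h
  rw [Finset.sum_eq_zero_iff_of_nonneg (fun i _ => mul_self_nonneg _)] at h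
  funext i
  exact mul_self_eq_zero.1 (h i (Finset.mem_univ i))

/-- dot-orthogonal submodules -/
theorem finrank_add_le_of_dot {A B : Submodule ℤ (Fin 16 → ℤ)}
    (h : ∀ s ∈ A, ∀ t ∈ B, dot s t = 0) : finrank ℤ A + finrank ℤ B ≤ 16 := by
  rw [← finrank_sup_inf]
  have h0 : A ⊓ B = ⊥ := by
    rw [eq_bot_iff]
    intro s hs
    rw [Submodule.mem_bot]
    exact dot_self_eq_zero (h s hs.1 s hs.2)
  rw [h0, finrank_bot, add_zero]
  have := Submodule.finrank_le (A ⊔ B : Submodule ℤ (Fin 16 → ℤ))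
  simpa using this

/-- `HP x s = 0` and `HH x t = 0` with `x` primitive isotropic: `dot s t = 0` -/
theorem dot_hat {x x' : Fin 10 → ℤ} (h1 : bF x x' = 1) {s t : Fin 16 → ℤ}
    (hs : s ∈ Kx (xhat x)) (ht : t ∈ Kx x) : dot s t = 0 := by
  rw [mem_Kx, HP_xhat] at hs
  have e := Kx_eq_HP h1 ht
  rw [← e, dot_comm, dot_HP_symm, dot_comm, hs]
  simp [dot]

/-- (T3) the intersection has rank at least 4 -/
theorem four_le {x x' z z' : Fin 10 → ℤ} (hx : FF x = 0) (h1 : bF x x' = 1) (hz : FF z = 0)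
    (h1' : bF z z' = 1) (hxz : bF x z = 0) : 4 ≤ finrank ℤ (Kx x ⊓ Kx z : Submodule ℤ _) := by
  set A := Kx x ⊓ Kx z with hA
  set B := Kx (xhat x) ⊓ Kx (xhat z) with hB
  have h8 : finrank ℤ (Kx (xhat x)) = 8 :=
    finrank_Kx (x' := xhat x') (by rw [FF_xhat, hx]) (by rw [bF_xhat, h1])
  -- (i)
  have hi : 8 ≤ finrank ℤ A + finrank ℤ B := by
    set f : Kx (xhat x) →ₗ[ℤ] (Fin 16 → ℤ) := (HPl z).domRestrict (Kx (xhat x)) with hf
    have hrn := rank_nullity_gen f
    rw [h8] at hrn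
    have hr : LinearMap.range f ≤ A := by
      rintro _ ⟨s, rfl⟩
      have hs := s.2
      rw [mem_Kx, HP_xhat] at hs
      have e : f s = HP z (s : Fin 16 → ℤ) := rfl
      rw [e]
      refine ⟨?_, HP_mem_Kx hz _⟩
      refine mem_Kx.2 ?_
      funext i
      have h := HH_HP_pol x z (s : Fin 16 → ℤ) i
      rw [hs, HH_zero, hxz] at h
      simpa using h
    have hk : (LinearMap.ker f).map (Kx (xhat x)).subtype ≤ B := by
      rintro _ ⟨s, hs, rfl⟩
      refine ⟨s.2, mem_Kx.2 ?_⟩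
      rw [HP_xhat]
      exact hs
    have hr2 := Submodule.finrank_mono hr
    have hk2 := Submodule.finrank_mono hk
    rw [Submodule.finrank_map_subtype_eq] at hk2
    omega
  -- (ii)
  have hii : finrank ℤ B + finrank ℤ (Kx x ⊔ Kx z : Submodule ℤ (Fin 16 → ℤ)) ≤ 16 := by
    apply finrank_add_le_of_dot
    intro s hs t ht
    obtain ⟨a, ha, b, hb, rfl⟩ := Submodule.mem_sup.1 ht
    have e : dot s (a + b) = dot s a + dot s b := by
      simp [dot, mul_add, Finset.sum_add_distrib]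
    rw [e, dot_hat h1 hs.1 ha, dot_hat h1' hs.2 hb, add_zero]
  have hiii := finrank_sup_inf (Kx x) (Kx z)
  rw [finrank_Kx hx h1, finrank_Kx hz h1'] at hiii
  have hA2 : finrank ℤ (Kx x ⊓ Kx z : Submodule ℤ (Fin 16 → ℤ)) = finrank ℤ A := rfl
  omega

/-- the intersection is isotropic -/
theorem iso_inf {x x' z z' : Fin 10 → ℤ} (hx : FF x = 0) (h1 : bF x x' = 1) (hz : FF z = 0)
    (h1' : bF z z' = 1) (hne : ∃ i j, z i * x j ≠ z j * x i) {s t : Fin 16 → ℤ}
    (hs : s ∈ Kx x ⊓ Kx z) (ht : t ∈ Kx x ⊓ Kx z) : bx x' s t = 0 := by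
  obtain ⟨i, j, hij⟩ := hne
  by_contra h
  apply hij
  have e1 := Bd_Kx hx h1 hs.1 ht.1
  have e2 := Bd_Kx hz h1' hs.2 ht.2
  have ei : bx x' s t * x i = bx z' s t * z i := (e1 i).symm.trans (e2 i)
  have ej : bx x' s t * x j = bx z' s t * z j := (e1 j).symm.trans (e2 j)
  apply mul_left_cancel₀ h
  linear_combination z i * ej - z j * ei

/-- (T1)-(T3): an isotropic vector for `S(x)` gives a nonzero isotropic vector of `L_x` -/
theorem zero_of_mu {x x' : Fin 10 → ℤ} (hF : FF x = 0) (h1 : bF x x' = 1)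
    (hD : (SS x).det ≠ 0) {mu : Fin 4 → ℤ} (hmu : mu ≠ 0)
    (hq : mu ⬝ᵥ (Matrix.mulVec (SS x) mu) = 0) :
    ∃ v ∈ Lx x, v ≠ 0 ∧ bx x' v v = 0 := by
  set rm : Fin 16 → ℤ := ∑ i, mu i • rho i with hrm
  set r : Fin 16 → ℤ := HP x rm with hr
  have hrsum : r = ∑ i, mu i • HP x (rho i) := by
    have h := map_sum (HPl x : (Fin 16 → ℤ) →ₗ[ℤ] (Fin 16 → ℤ)) (fun i => mu i • rho i) Finset.univ
    simp only [HPl_apply, HP_smul] at h
    exact h
  have hrK : r ∈ Kx x := HP_mem_Kx hF _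
  have hdot : ∀ j, dot r (rho j) = Matrix.vecMul mu (SS x) j := by
    intro j
    rw [hrsum, dot_sum_left]
    simp only [SS_eq, Matrix.vecMul, dotProduct]
  have hr0 : r ≠ 0 := by
    intro h
    apply hmu
    apply Matrix.eq_zero_of_vecMul_eq_zero hD
    funext j
    rw [← hdot j, h]
    simp [dot]
  have hbr : ∀ t ∈ Kx x, bx x' r t = ∑ i, mu i * dot t (rho i) := by
    intro t ht
    rw [hr, bx_HP h1 _ ht, hrm, dot_sum_left]
    exact Finset.sum_congr rfl fun i _ => by rw [dot_comm]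
  have hbrr : bx x' r r = 0 := by
    rw [hbr r hrK]
    have : ∑ i, mu i * dot r (rho i) = mu ⬝ᵥ (Matrix.vecMul mu (SS x)) := by
      simp only [dotProduct, hdot]
    rw [this]
    have hsymm : (SS x).transpose = SS x := by
      ext a b; fin_cases a <;> fin_cases b <;> simp [SS]
    have e : Matrix.vecMul mu (SS x) = Matrix.mulVec (SS x) mu := by
      conv_lhs => rw [← hsymm]
      rw [Matrix.vecMul_transpose]
    rw [e, hq]
  have hQ : Qd r = 0 := by
    funext j
    have h := Bd_Kx hF h1 hrK hrK j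
    rw [hbrr, zero_mul, Bd_self] at h
    simp only [Pi.zero_apply]
    omega
  have hrH : HH x r = 0 := mem_Kx.1 hrK
  obtain ⟨z0, hz0, i, j, hij⟩ := exists_second (exists_coord_ne h1) hr0 hQ
  have hz0n : z0 ≠ 0 := by
    rintro rfl
    simp at hij
  obtain ⟨c, z, hc, hcz, hzp⟩ := prim_part hz0n
  have hz : HH z r = 0 := by
    funext k
    have h := congrFun hz0 k
    rw [hcz, HHx_smul] at h
    exact (mul_eq_zero.1 h).resolve_left hc
  have hne : ∃ i j, z i * x j ≠ z j * x i := by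
    refine ⟨i, j, fun h => hij ?_⟩
    rw [hcz]
    simp only [Pi.smul_apply, smul_eq_mul]
    linear_combination c * h
  obtain ⟨z', hz'⟩ := exists_partner hzp
  have hFz := FF_of_kill hr0 hz
  have hxz := bF_of_kill hr0 hrH hz
  have h4 := four_le hF h1 hFz hz' hxz
  set A := Kx x ⊓ Kx z with hA
  have hrA : r ∈ A := ⟨hrK, mem_Kx.2 hz⟩
  -- the map to ℤ⁴
  set f : A →ₗ[ℤ] (Fin 4 → ℤ) := rhol.domRestrict A with hf
  have hrn := rank_nullity_gen f
  have hr3 : finrank ℤ (LinearMap.range f) ≤ 3 := by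
    set g : (Fin 4 → ℤ) →ₗ[ℤ] ℤ := Fintype.linearCombination ℤ mu with hg
    have hga : ∀ y : Fin 4 → ℤ, g y = ∑ i, mu i * y i := by
      intro y
      simp [hg, Fintype.linearCombination_apply, mul_comm]
    have hle : LinearMap.range f ≤ LinearMap.ker g := by
      rintro _ ⟨v, rfl⟩
      rw [LinearMap.mem_ker, hga]
      have h := hbr v v.2.1
      rw [iso_inf hF h1 hFz hz' hne hrA v.2] at h
      exact h.symm
    have hgn := rank_nullity_gen g
    have hg1 : 1 ≤ finrank ℤ (LinearMap.range g) := by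
      obtain ⟨k, hk⟩ := Function.ne_iff.1 hmu
      have hne0 : LinearMap.range g ≠ ⊥ := by
        intro h
        apply hk
        have h2 : g (Pi.single k 1) ∈ LinearMap.range g := ⟨_, rfl⟩
        rw [h, Submodule.mem_bot, hga] at h2
        simpa [Pi.single_apply] using h2
      rw [Nat.one_le_iff_ne_zero]
      intro h
      exact hne0 (Submodule.finrank_eq_zero.1 h)
    have h44 : finrank ℤ (Fin 4 → ℤ) = 4 := by simp
    have := Submodule.finrank_mono hle
    omega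
  have hk1 : 1 ≤ finrank ℤ (LinearMap.ker f) := by
    have hA2 : finrank ℤ (Kx x ⊓ Kx z : Submodule ℤ (Fin 16 → ℤ)) = finrank ℤ A := rfl
    omega
  have hkne : LinearMap.ker f ≠ ⊥ := by
    intro h
    rw [h, finrank_bot] at hk1
    omega
  obtain ⟨v, hv, hv0⟩ := Submodule.exists_mem_ne_zero_of_ne_bot hkne
  refine ⟨v, ?_, fun h => hv0 (Subtype.ext h), iso_inf hF h1 hFz hz' hne v.2 v.2⟩
  rw [mem_Lx]
  exact ⟨mem_Kx.1 v.2.1, fun i => congrFun (LinearMap.mem_ker.1 hv) i⟩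

end Pool.Agent.PP5LC
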