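import Pool.Agent.PP5LC.TrB

/-!
# PP5LC, the transfer (T4a): if `HP x (rho n) = 0` then `x` is proportional to an explicit vector of rank `≤ 2`
-/

namespace Pool.Agent.PP5LC

open Pool.Agent.PP5L

section ring
variable {R : Type*} [CommRing R]

/-- the vector `rho n = ∑ n i • rho i` -/
def rv (n : Fin 4 → R) : Fin 16 → R :=
  ![0, 0, 0, 0, -(n 0), -(n 1), -(n 2), -(n 3), 0, 0, 0, 0, n 0, n 1, n 2, n 3]

/-- the explicit vector -/
def qv (n : Fin 4 → R) : Fin 10 → R :=
  ![n 1 ^ 2, n 3 ^ 2, n 0 ^ 2, n 2 ^ 2, n 0 * n 1 + n 2 * n 3, n 0 * n 1 - n 2 * n 3,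
    -(n 1 * n 3), -(n 0 * n 3), -(n 1 * n 2), -(n 0 * n 2)]

/-- the index with `qv n (sg i) = n i ^ 2` -/
def sg : Fin 4 → Fin 10 := ![2, 0, 3, 1]

theorem SS_smul (c : R) (x : Fin 10 → R) : SS (c • x) = c • SS x := by
  ext i j
  fin_cases i <;> fin_cases j <;> simp [SS] <;> ring

theorem rv_sum (n : Fin 4 → R) : (∑ i, n i • rho i : Fin 16 → R) = rv n := by
  funext k
  simp only [Fin.sum_univ_four, Pi.add_apply, Pi.smul_apply, smul_eq_mul]
  fin_cases k <;> simp [rho, rv]

/-- `HP x (rho n) = 0` forces proportionality -/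
theorem two_prop {x : Fin 10 → R} {n : Fin 4 → R} (h : HP x (rv n) = 0) (i : Fin 4) (j : Fin 10) :
    2 * (x j * n i ^ 2) = 2 * (x (sg i) * qv n j) := by
  have h0 : x 1 * n 1 + x 6 * n 3 = 0 := by
    have := congrFun h 0
    simp [HP, rv] at this
    linear_combination this
  have h1 : x 3 * n 0 + x 9 * n 2 = 0 := by
    have := congrFun h 1
    simp [HP, rv] at this
    linear_combination this
  have h2 : -(x 7 * n 0) - x 2 * n 3 = 0 := by
    have := congrFun h 2
    simp [HP, rv] at this
    linear_combination this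
  have h3 : -(x 8 * n 1) - x 0 * n 2 = 0 := by
    have := congrFun h 3
    simp [HP, rv] at this
    linear_combination this
  have h4 : x 4 * n 1 - x 0 * n 0 + x 8 * n 3 = 0 := by
    have := congrFun h 4
    simp [HP, rv] at this
    linear_combination this
  have h5 : x 4 * n 0 - x 2 * n 1 + x 7 * n 2 = 0 := by
    have := congrFun h 5
    simp [HP, rv] at this
    linear_combination this
  have h6 : -(x 4 * n 3) - x 6 * n 0 + x 1 * n 2 = 0 := by
    have := congrFun h 6
    simp [HP, rv] at this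
    linear_combination this
  have h7 : -(x 4 * n 2) - x 9 * n 1 + x 3 * n 3 = 0 := by
    have := congrFun h 7
    simp [HP, rv] at this
    linear_combination this
  have h8 : -(x 6 * n 1) - x 0 * n 3 = 0 := by
    have := congrFun h 8
    simp [HP, rv] at this
    linear_combination this
  have h9 : -(x 9 * n 0) - x 2 * n 2 = 0 := by
    have := congrFun h 9
    simp [HP, rv] at this
    linear_combination this
  have h10 : x 3 * n 1 + x 8 * n 2 = 0 := by
    have := congrFun h 10
    simp [HP, rv] at this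
    linear_combination this
  have h11 : x 1 * n 0 + x 7 * n 3 = 0 := by
    have := congrFun h 11
    simp [HP, rv] at this
    linear_combination this
  have h12 : x 0 * n 0 + x 6 * n 2 - x 5 * n 1 = 0 := by
    have := congrFun h 12
    simp [HP, rv] at this
    linear_combination this
  have h13 : x 2 * n 1 + x 9 * n 3 - x 5 * n 0 = 0 := by
    have := congrFun h 13
    simp [HP, rv] at this
    linear_combination this
  have h14 : -(x 7 * n 1) - x 1 * n 2 - x 5 * n 3 = 0 := by
    have := congrFun h 14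
    simp [HP, rv] at this
    linear_combination this
  have h15 : -(x 8 * n 0) - x 3 * n 3 - x 5 * n 2 = 0 := by
    have := congrFun h 15
    simp [HP, rv] at this
    linear_combination this
  fin_cases i <;> fin_cases j
  · simp [sg, qv]
    linear_combination (-1) * n 0 * h4 + (1) * n 1 * h5 + (1) * n 2 * h6 + (-1) * n 3 * h7 + (1) * n 0 * h12 + (-1) * n 1 * h13 + (1) * n 2 * h14 + (-1) * n 3 * h15
  · simp [sg, qv]
    linear_combination (2) * n 3 * h2 + (2) * n 0 * h11
  · simp [sg, qv]
  · simp [sg, qv]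
    linear_combination (2) * n 0 * h1 + (2) * n 2 * h9
  · simp [sg, qv]
    linear_combination (2) * n 2 * h2 + (2) * n 0 * h5
  · simp [sg, qv]
    linear_combination (-2) * n 3 * h9 + (-2) * n 0 * h13
  · simp [sg, qv]
    linear_combination (-2) * n 3 * h5 + (-2) * n 0 * h6 + (2) * n 2 * h11
  · simp [sg, qv]
    linear_combination (-2) * n 0 * h2
  · simp [sg, qv]
    linear_combination (-2) * n 3 * h1 + (2) * n 2 * h13 + (-2) * n 0 * h15
  · simp [sg, qv]
    linear_combination (-2) * n 0 * h9
  · simp [sg, qv]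
  · simp [sg, qv]
    linear_combination (2) * n 1 * h0 + (2) * n 3 * h8
  · simp [sg, qv]
    linear_combination (1) * n 0 * h4 + (-1) * n 1 * h5 + (-1) * n 2 * h6 + (1) * n 3 * h7 + (-1) * n 0 * h12 + (1) * n 1 * h13 + (-1) * n 2 * h14 + (1) * n 3 * h15
  · simp [sg, qv]
    linear_combination (2) * n 2 * h3 + (2) * n 1 * h10
  · simp [sg, qv]
    linear_combination (2) * n 3 * h3 + (2) * n 1 * h4
  · simp [sg, qv]
    linear_combination (-2) * n 2 * h8 + (-2) * n 1 * h12
  · simp [sg, qv]
    linear_combination (-2) * n 1 * h8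
  · simp [sg, qv]
    linear_combination (-2) * n 2 * h0 + (2) * n 3 * h12 + (-2) * n 1 * h14
  · simp [sg, qv]
    linear_combination (-2) * n 1 * h3
  · simp [sg, qv]
    linear_combination (-2) * n 2 * h4 + (-2) * n 1 * h7 + (2) * n 3 * h10
  · simp [sg, qv]
    linear_combination (-2) * n 2 * h3 + (-2) * n 1 * h10
  · simp [sg, qv]
    linear_combination (1) * n 0 * h4 + (-1) * n 1 * h5 + (1) * n 2 * h6 + (-1) * n 3 * h7 + (1) * n 0 * h12 + (-1) * n 1 * h13 + (-1) * n 2 * h14 + (1) * n 3 * h15
  · simp [sg, qv]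
    linear_combination (-2) * n 0 * h1 + (-2) * n 2 * h9
  · simp [sg, qv]
  · simp [sg, qv]
    linear_combination (-2) * n 1 * h1 + (-2) * n 2 * h7
  · simp [sg, qv]
    linear_combination (-2) * n 0 * h10 + (-2) * n 2 * h15
  · simp [sg, qv]
    linear_combination (2) * n 0 * h3 + (2) * n 2 * h12 + (-2) * n 1 * h15
  · simp [sg, qv]
    linear_combination (2) * n 2 * h5 + (2) * n 0 * h7 + (-2) * n 1 * h9
  · simp [sg, qv]
    linear_combination (2) * n 2 * h10
  · simp [sg, qv]
    linear_combination (2) * n 2 * h1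
  · simp [sg, qv]
    linear_combination (-2) * n 1 * h0 + (-2) * n 3 * h8
  · simp [sg, qv]
  · simp [sg, qv]
    linear_combination (-2) * n 3 * h2 + (-2) * n 0 * h11
  · simp [sg, qv]
    linear_combination (-1) * n 0 * h4 + (1) * n 1 * h5 + (-1) * n 2 * h6 + (1) * n 3 * h7 + (-1) * n 0 * h12 + (1) * n 1 * h13 + (1) * n 2 * h14 + (-1) * n 3 * h15
  · simp [sg, qv]
    linear_combination (-2) * n 0 * h0 + (-2) * n 3 * h6
  · simp [sg, qv]
    linear_combination (-2) * n 1 * h11 + (-2) * n 3 * h14
  · simp [sg, qv]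
    linear_combination (2) * n 3 * h0
  · simp [sg, qv]
    linear_combination (2) * n 3 * h11
  · simp [sg, qv]
    linear_combination (2) * n 3 * h4 + (2) * n 1 * h6 + (-2) * n 0 * h8
  · simp [sg, qv]
    linear_combination (2) * n 1 * h2 + (2) * n 3 * h13 + (-2) * n 0 * h14

end ring

end Pool.Agent.PP5LC
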