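import Pool.Agent.PP5LC.TrC

/-!
# PP5LC, the transfer (T4b): the index is one
-/

namespace Pool.Agent.PP5LC

open Pool.Agent.PP5L Matrix

section ring
variable {R : Type*} [CommRing R]

theorem det3 (M : Matrix (Fin 3) (Fin 3) R) : M.det =
    M 0 0 * (M 1 1 * M 2 2 - M 1 2 * M 2 1) - M 0 1 * (M 1 0 * M 2 2 - M 1 2 * M 2 0)
      + M 0 2 * (M 1 0 * M 2 1 - M 1 1 * M 2 0) := by
  rw [Matrix.det_fin_three]; ring

theorem adj_qv (n : Fin 4 → R) : (SS (qv n)).adjugate = 0 := by
  ext i j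
  rw [Matrix.adjugate_fin_succ_eq_det_submatrix, Matrix.zero_apply]
  have : ((SS (qv n)).submatrix j.succAbove i.succAbove).det = 0 := by
    rw [det3]
    fin_cases i <;> fin_cases j <;>
      simp [SS, qv, Fin.succAbove] <;> ring
  rw [this, mul_zero]

end ring

theorem SS_map {R S : Type*} [CommRing R] [CommRing S] (f : R →+* S) (x : Fin 10 → R) :
    (SS x).map f = SS (fun j => f (x j)) := by
  have h2 : f 2 = 2 := map_ofNat f 2
  ext i j
  fin_cases i <;> fin_cases j <;> simp [SS, h2]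

/-- over a field of characteristic not two -/
theorem adj_of_kill {F : Type*} [Field F] (h2 : (2 : F) ≠ 0) {x : Fin 10 → F} {n : Fin 4 → F}
    (hn : n ≠ 0) (h : HP x (rv n) = 0) : (SS x).adjugate = 0 := by
  obtain ⟨i, hi⟩ := Function.ne_iff.1 hn
  have hi' : n i ≠ 0 := hi
  have e : n i ^ 2 • x = x (sg i) • qv n := by
    funext j
    have := mul_left_cancel₀ h2 (two_prop h i j)
    simp only [Pi.smul_apply, smul_eq_mul]
    rw [mul_comm]; exact this
  have e2 : (SS (n i ^ 2 • x)).adjugate = 0 := by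
    rw [e, SS_smul, Matrix.adjugate_smul, adj_qv, smul_zero]
  rw [SS_smul, Matrix.adjugate_smul] at e2
  exact (smul_eq_zero.1 e2).resolve_left (pow_ne_zero _ (pow_ne_zero _ hi'))

/-- (T4) a prime dividing `HP x (rho n)` divides `n` -/
theorem prime_dvd_n {x : Fin 10 → ℤ} {p : ℕ} (hp : p.Prime) (h2 : p ≠ 2)
    (hadj : ∃ i j, ¬ (p : ℤ) ∣ (SS x).adjugate i j) {n : Fin 4 → ℤ}
    (h : ∀ i, (p : ℤ) ∣ HP x (∑ k, n k • rho k) i) (k : Fin 4) : (p : ℤ) ∣ n k := by
  by_contra hk
  have : Fact p.Prime := ⟨hp⟩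
  obtain ⟨i, j, hij⟩ := hadj
  apply hij
  set f := Int.castRingHom (ZMod p) with hf
  have h2' : (2 : ZMod p) ≠ 0 := by
    intro h0
    have h3 : ((2 : ℕ) : ZMod p) = 0 := by exact_mod_cast h0
    rw [ZMod.natCast_eq_zero_iff] at h3
    have h4 := (Nat.prime_dvd_prime_iff_eq hp Nat.prime_two).1 h3
    exact h2 h4
  have hn : (fun a => f (n a)) ≠ 0 := by
    intro h0
    apply hk
    have := congrFun h0 k
    simp only [hf, Int.coe_castRingHom, Pi.zero_apply] at this
    exact (ZMod.intCast_zmod_eq_zero_iff_dvd _ _).1 this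
  have hkill : HP (fun a => f (x a)) (rv (fun a => f (n a))) = 0 := by
    funext a
    have h3 := h a
    rw [rv_sum, ← ZMod.intCast_zmod_eq_zero_iff_dvd] at h3
    simp only [Pi.zero_apply]
    rw [← h3]
    fin_cases a <;> simp [HP, rv, hf]
  have h5 := adj_of_kill h2' hn hkill
  rw [← SS_map] at h5
  have h6 : f.mapMatrix (SS x) = (SS x).map f := rfl
  rw [← h6, ← RingHom.map_adjugate] at h5
  have h7 := congrFun (congrFun h5 i) j
  simp only [RingHom.mapMatrix_apply, Matrix.map_apply, Matrix.zero_apply, hf,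
    Int.coe_castRingHom] at h7
  exact (ZMod.intCast_zmod_eq_zero_iff_dvd _ _).1 h7

end Pool.Agent.PP5LC
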