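import Pool.Agent.PP5LC.TrD

/-!
# PP5LC, the transfer (T4c): `det G = det S(x)` when `rank_p S(x) ≥ 3` for all `p`
-/

namespace Pool.Agent.PP5LC

open Pool.Agent.PP5L Matrix Module

theorem det_block {ι : Type*} [Fintype ι] [DecidableEq ι] {κ : Type*} [Fintype κ] [DecidableEq κ]
    (G : Matrix ι ι ℤ) (B : Matrix ι κ ℤ) (B' : Matrix κ ι ℤ) (E : Matrix κ κ ℤ)
    (X : Matrix ι ι ℤ) (Y : Matrix ι κ ℤ) (Y' : Matrix κ ι ℤ) (W : Matrix κ κ ℤ)
    (h : Matrix.fromBlocks G B B' E * Matrix.fromBlocks X Y Y' W = 1)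
    (hU : (Matrix.fromBlocks G B B' E).det = 1) : W.det = G.det := by
  rw [Matrix.fromBlocks_multiply, ← Matrix.fromBlocks_one, Matrix.fromBlocks_inj] at h
  obtain ⟨h11, h12, h21, h22⟩ := h
  have e1 : Matrix.fromBlocks G B B' E * Matrix.fromBlocks 1 Y 0 W =
      Matrix.fromBlocks G 0 B' 1 := by
    rw [Matrix.fromBlocks_multiply, Matrix.fromBlocks_inj]
    refine ⟨by simp, h12, by simp, h22⟩
  have e2 := congrArg Matrix.det e1
  rw [Matrix.det_mul, hU, Matrix.det_fromBlocks_zero₂₁, Matrix.det_fromBlocks_zero₁₂,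
    Matrix.det_one, Matrix.det_one] at e2
  simpa using e2

/-- `S = C W Cᵀ` with `det W = det G` and `HP x (rho i) = ∑ C i k φ k` -/
theorem exists_CW {x x' : Fin 10 → ℤ} (hF : FF x = 0) (h1 : bF x x' = 1)
    (hD : (SS x).det ≠ 0) (b : Basis (Fin 4) ℤ (Lx x)) (G : Matrix (Fin 4) (Fin 4) ℤ)
    (hG : ∀ i j, G i j = bx x' (b i) (b j)) :
    ∃ (C W : Matrix (Fin 4) (Fin 4) ℤ) (φ : Fin 4 → Fin 16 → ℤ),
      SS x = C * W * Cᵀ ∧ W.det = G.det ∧ ∀ i, HP x (rho i) = ∑ k, C i k • φ k := by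
  obtain ⟨e, he⟩ := exists_completion hF h1 hD b
  choose φ hφK hφ using fun a : Fin 4 ⊕ Fin 4 => functional_Kx hF h1 (e.coord a)
  have hφe : ∀ a c, bx x' (φ a) (e c) = if a = c then 1 else 0 := by
    intro a c
    rw [hφ a (e c)]
    simp [Finsupp.single_apply, eq_comm]
  have hexp : ∀ ψ ∈ Kx x, ψ = ∑ a, bx x' ψ (e a) • φ a := by
    intro ψ hψ
    have hmem : ψ - ∑ a, bx x' ψ (e a) • φ a ∈ Kx x :=
      Submodule.sub_mem _ hψ (Submodule.sum_mem _ fun a _ => Submodule.smul_mem _ _ (hφK a))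
    have hz : ψ - ∑ a, bx x' ψ (e a) • φ a = 0 := by
      apply bx_nondeg hF h1 hmem
      intro t ht
      have hrep := e.sum_repr ⟨t, ht⟩
      have hrep2 : t = ∑ c, (e.repr ⟨t, ht⟩ c) • ((e c : Kx x) : Fin 16 → ℤ) := by
        have := congrArg (Subtype.val) hrep
        simp only [AddSubmonoidClass.coe_finsetSum, SetLike.val_smul] at this
        exact this.symm
      have hbase : ∀ c, bx x' (ψ - ∑ a, bx x' ψ (e a) • φ a) (e c) = 0 := by
        intro c
        have e1 : bx x' (ψ - ∑ a, bx x' ψ (e a) • φ a) (e c) =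
            bx x' ψ (e c) - ∑ a, bx x' ψ (e a) * bx x' (φ a) (e c) := by
          rw [← bx_sum_left]
          have := map_sub ((bxl x').flip ((e c : Kx x) : Fin 16 → ℤ) : (Fin 16 → ℤ) →ₗ[ℤ] ℤ) ψ
            (∑ a, bx x' ψ (e a) • φ a)
          simpa only [LinearMap.flip_apply, bxl_apply] using this
        rw [e1]
        simp only [hφe]
        simp
      rw [bx_symm, hrep2, bx_sum_left]
      refine Finset.sum_eq_zero (fun c _ => ?_)
      rw [bx_symm, hbase, mul_zero]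
    exact sub_eq_zero.1 hz
  set U : Matrix (Fin 4 ⊕ Fin 4) (Fin 4 ⊕ Fin 4) ℤ := Matrix.of fun a c => bx x' (e a) (e c) with hU
  set V : Matrix (Fin 4 ⊕ Fin 4) (Fin 4 ⊕ Fin 4) ℤ := Matrix.of fun a c => bx x' (φ a) (φ c) with hV
  have hUV : U * V = 1 := by
    ext a c
    simp only [hU, hV, Matrix.mul_apply, Matrix.of_apply, Matrix.one_apply]
    have h2 := hexp _ (e a).2
    have h3 : bx x' (e a) (φ c) = ∑ k, bx x' (e a) (e k) * bx x' (φ k) (φ c) := by
      conv_lhs => rw [h2]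
      rw [bx_sum_left]
    rw [← h3, bx_symm, hφe]
    by_cases h : a = c <;> simp [h, eq_comm]
  have hdetU : U.det = 1 := by
    obtain ⟨j, hj⟩ := exists_coord_ne h1
    have hc := chart_det hF h1 (fun a => ((e a : Kx x) : Fin 16 → ℤ)) (fun a => (e a).2) j
    have h2 := congrArg Matrix.det hUV
    rw [Matrix.det_mul, Matrix.det_one] at h2
    have hpos : 0 ≤ U.det := by
      by_contra hneg
      push Not at hneg
      have h8 : (0 : ℤ) < (x j) ^ 8 := by
        have : (x j) ^ 8 = ((x j) ^ 4) ^ 2 := by ring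
        rw [this]; positivity
      have h9 : (x j) ^ 8 * U.det < 0 := mul_neg_of_pos_of_neg h8 hneg
      rw [hU] at h9
      rw [hc] at h9
      exact absurd h9 (not_lt.2 (sq_nonneg _))
    rcases Int.isUnit_iff.1 (IsUnit.of_mul_eq_one _ h2) with h3 | h3
    · exact h3
    · omega
  have hUb : U = Matrix.fromBlocks U.toBlocks₁₁ U.toBlocks₁₂ U.toBlocks₂₁ U.toBlocks₂₂ :=
    (Matrix.fromBlocks_toBlocks U).symm
  have hVb : V = Matrix.fromBlocks V.toBlocks₁₁ V.toBlocks₁₂ V.toBlocks₂₁ V.toBlocks₂₂ :=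
    (Matrix.fromBlocks_toBlocks V).symm
  have hU11 : U.toBlocks₁₁ = G := by
    ext i j
    simp only [Matrix.toBlocks₁₁, hU, Matrix.of_apply, he, hG]
  have hdet := det_block U.toBlocks₁₁ U.toBlocks₁₂ U.toBlocks₂₁ U.toBlocks₂₂ V.toBlocks₁₁
    V.toBlocks₁₂ V.toBlocks₂₁ V.toBlocks₂₂ (by rw [← hUb, ← hVb, hUV]) (by rw [← hUb, hdetU])
  rw [hU11] at hdet
  set Cm : Matrix (Fin 4) (Fin 4) ℤ := Matrix.of fun i k => bx x' (HP x (rho i)) (e (Sum.inr k))
    with hCm
  have hrho : ∀ i, HP x (rho i) = ∑ k, Cm i k • φ (Sum.inr k) := by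
    intro i
    have h2 := hexp _ (HP_mem_Kx hF (rho i))
    rw [Fintype.sum_sum_type] at h2
    have h3 : ∑ a : Fin 4, bx x' (HP x (rho i)) (e (Sum.inl a)) • φ (Sum.inl a) = 0 := by
      refine Finset.sum_eq_zero (fun a _ => ?_)
      rw [he, bx_HP_rho h1 (b a).2, zero_smul]
    rw [h3, zero_add] at h2
    exact h2
  refine ⟨Cm, V.toBlocks₂₂, fun k => φ (Sum.inr k), ?_, hdet, hrho⟩
  ext i j
  have e1 : SS x i j = bx x' (HP x (rho i)) (HP x (rho j)) := by
    rw [bx_HP h1 _ (HP_mem_Kx hF _), ← SS_eq, dot_HP_symm]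
  rw [e1, hrho i, bx_sum_left, Matrix.mul_assoc, Matrix.mul_apply]
  refine Finset.sum_congr rfl (fun k _ => ?_)
  congr 1
  rw [hrho j, bx_symm, bx_sum_left, Matrix.mul_apply]
  refine Finset.sum_congr rfl (fun l _ => ?_)
  simp only [Matrix.toBlocks₂₂, hV, Matrix.of_apply, Matrix.transpose_apply]
  rw [bx_symm, mul_comm]

/-- (T4) -/
theorem gdet_eq {x x' : Fin 10 → ℤ} (hF : FF x = 0) (h1 : bF x x' = 1)
    (hodd : ¬ 2 ∣ (SS x).det) (hadj : ∀ p : ℕ, p.Prime → ∃ i j, ¬ (p : ℤ) ∣ (SS x).adjugate i j)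
    (b : Basis (Fin 4) ℤ (Lx x)) (G : Matrix (Fin 4) (Fin 4) ℤ)
    (hG : ∀ i j, G i j = bx x' (b i) (b j)) : G.det = (SS x).det := by
  have hD : (SS x).det ≠ 0 := by
    intro h; rw [h] at hodd; exact hodd (dvd_zero _)
  obtain ⟨C, W, φ, hS, hW, hr⟩ := exists_CW hF h1 hD b G hG
  have hdet : (SS x).det = C.det ^ 2 * G.det := by
    rw [hS, Matrix.det_mul, Matrix.det_mul, Matrix.det_transpose, hW]; ring
  have hC : IsUnit C.det := by
    by_contra hnu
    have hC1 : C.det.natAbs ≠ 1 := fun h => hnu (Int.isUnit_iff_natAbs_eq.2 h)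
    obtain ⟨p, hp, hpd⟩ := Nat.exists_prime_and_dvd hC1
    have hpd' : (p : ℤ) ∣ C.det := Int.natCast_dvd.2 hpd
    have : Fact p.Prime := ⟨hp⟩
    have hp2 : p ≠ 2 := by
      rintro rfl
      apply hodd
      rw [hdet]
      exact Dvd.dvd.mul_right (dvd_pow hpd' two_ne_zero) _
    -- a left kernel vector modulo p
    have hdet0 : (C.map (Int.castRingHom (ZMod p))).det = 0 := by
      have : (C.map (Int.castRingHom (ZMod p))).det = Int.castRingHom (ZMod p) C.det := by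
        rw [RingHom.map_det]; rfl
      rw [this]
      exact (ZMod.intCast_zmod_eq_zero_iff_dvd _ _).2 hpd'
    obtain ⟨v, hv0, hv⟩ := Matrix.exists_vecMul_eq_zero_iff.2 hdet0
    set n : Fin 4 → ℤ := fun i => ((v i).val : ℤ) with hn
    have hnv : ∀ i, ((n i : ℤ) : ZMod p) = v i := by
      intro i; simp [hn]
    have hCn : ∀ k, (p : ℤ) ∣ ∑ i, n i * C i k := by
      intro k
      rw [← ZMod.intCast_zmod_eq_zero_iff_dvd]
      have := congrFun hv k
      simp only [Matrix.vecMul, dotProduct, Matrix.map_apply, Pi.zero_apply,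
        Int.coe_castRingHom] at this
      push_cast
      rw [← this]
      exact Finset.sum_congr rfl (fun i _ => by rw [hnv])
    have hkill : ∀ a, (p : ℤ) ∣ HP x (∑ k, n k • rho k) a := by
      intro a
      have e : HP x (∑ k, n k • rho k) = ∑ k, (∑ i, n i * C i k) • φ k := by
        have h := map_sum (HPl x : (Fin 16 → ℤ) →ₗ[ℤ] (Fin 16 → ℤ)) (fun i => n i • rho i)
          Finset.univ
        simp only [HPl_apply, HP_smul] at h
        rw [h]
        simp only [hr, Finset.smul_sum, smul_smul, Finset.sum_smul]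
        rw [Finset.sum_comm]
      rw [e]
      simp only [Finset.sum_apply, Pi.smul_apply, smul_eq_mul]
      exact Finset.dvd_sum fun k _ => Dvd.dvd.mul_right (hCn k) _
    apply hv0
    funext i
    rw [← hnv i]
    exact (ZMod.intCast_zmod_eq_zero_iff_dvd _ _).2 (prime_dvd_n hp hp2 (hadj p hp) hkill i)
  have hC2 : C.det ^ 2 = 1 := by
    rcases Int.isUnit_iff.1 hC with h | h <;> rw [h] <;> norm_num
  rw [hdet, hC2, one_mul]

end Pool.Agent.PP5LC
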